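import Pool.Agent.H42.Two.Main
import Pool.Agent.H42.Mix.Threshold

/-!
Blow-up below the Lions exponent, with the shell ratio 2 included.
-/

open Set Filter Topology

namespace Pool.Agent.H42.Flag2

open Pool.Agent.H39.Dy (IsSol Rapid)
open Pool.Agent.H42.Mix (Reg blowup)
open Pool.Agent.H42.Flag (Fast Global BlowsUpAt isSol_iff' rapid_reg dichotomy)

/-- `(a, b, c, 0, 0, …)` -/
def data (a b c : ℝ) : ℕ → ℝ
  | 0 => a
  | 1 => b
  | 2 => c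
  | _ + 3 => 0

theorem data_fast (A a b c : ℝ) : Fast (fun n => A * data a b c n) := by
  intro s hs
  refine ⟨|A * a| + s * |A * b| + s ^ 2 * |A * c|, fun n => ?_⟩
  have h0 := abs_nonneg (A * a)
  have h1 : 0 ≤ s * |A * b| := by positivity
  have h2 : 0 ≤ s ^ 2 * |A * c| := by positivity
  match n with
  | 0 => simp only [data, pow_zero, one_mul]; linarith
  | 1 => simp only [data, pow_one]; linarith
  | 2 => simp only [data]; linarith
  | n + 3 => simp only [data, mul_zero, abs_zero]; positivity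

/-- Large data blow up, shell ratio `lam`, dissipation `(-Δ) ^ s`, viscosity `ν`, coupling constants
`α`, `β`: for every time `T`, the data `A x` with a large amplitude `A` lead to blow-up before time
`T`. -/
def LargeMultiplesBlowUp (lam s ν α β : ℝ) (x : ℕ → ℝ) : Prop :=
  ∀ T : ℝ, 0 < T → ∃ A₀ : ℝ, ∀ A, A₀ ≤ A →
    (¬ ∃ X : ℕ → ℝ → ℝ, IsSol α β (lam ^ (5 / 2 : ℝ)) (lam ^ (2 * s)) ν T X ∧
      Reg (lam ^ (5 / 2 : ℝ)) T X ∧ ∀ n, X n 0 = A * x n) ∧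
    ∃ T₀, T₀ ≤ T ∧
      BlowsUpAt α β (lam ^ (5 / 2 : ℝ)) (lam ^ (2 * s)) ν (fun n => A * x n) T₀

/-- non-existence in the class `Reg` gives blow-up -/
theorem of_nonexist {lam s ν α β : ℝ} (hl : 1 < lam) (hν : 0 ≤ ν) {a b c : ℝ}
    (h : ∀ T : ℝ, 0 < T → ∃ A₀ : ℝ, ∀ A, A₀ ≤ A →
      ¬ ∃ X : ℕ → ℝ → ℝ, IsSol α β (lam ^ (5 / 2 : ℝ)) (lam ^ (2 * s)) ν T X ∧
        Reg (lam ^ (5 / 2 : ℝ)) T X ∧ ∀ n, X n 0 = A * data a b c n) :
    LargeMultiplesBlowUp lam s ν α β (data a b c) := by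
  intro T hT
  obtain ⟨A₀, hA₀⟩ := h T hT
  refine ⟨A₀, fun A hA => ⟨hA₀ A hA, ?_⟩⟩
  have h0 : 0 < lam := by linarith
  have hB : 1 < lam ^ (5 / 2 : ℝ) := Real.one_lt_rpow hl (by norm_num)
  rcases dichotomy α β (D := lam ^ (2 * s)) (by linarith : 0 < lam ^ (5 / 2 : ℝ))
    (Real.rpow_pos_of_pos h0 _).le hν (data_fast A a b c) with ⟨X, hX, hs⟩ | ⟨T₀, hbl⟩
  · exact absurd ⟨X, (hs T hT.le).1, rapid_reg hB (hs T hT.le).2, hX⟩ (hA₀ A hA)
  · refine ⟨T₀, ?_, hbl⟩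
    obtain ⟨hT₀, X, hX, hs, hunb⟩ := hbl
    by_contra hlt
    push Not at hlt
    obtain ⟨a', b', -⟩ := hs T hT.le hlt
    exact hA₀ A hA ⟨X, a', rapid_reg hB b', hX⟩

theorem ratioLarge {lam s ν α β : ℝ} (hl : 16 ≤ lam) (hs : lam ^ (2 * s - 5 / 2) ≤ 7 / 10)
    (hν : 0 ≤ ν) (hβ : 0 < β) (h1 : Real.exp (-(2 * lam ^ (5 / 2 : ℝ))) * β ≤ α)
    (h2 : α ≤ Real.exp (-(lam ^ (5 / 2 : ℝ))) * β) :
    LargeMultiplesBlowUp lam s ν α β (data 1 (lam ^ (-5 : ℝ)) 0) := by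
  have h0 : 0 < lam := by linarith
  refine of_nonexist (by linarith) hν fun T hT => ?_
  obtain ⟨A₀, -, h⟩ := blowup α β (lam ^ (5 / 2 : ℝ)) (lam ^ (2 * s)) ν T (by
    have : (16 : ℝ) ^ (5 / 2 : ℝ) = 1024 := by
      rw [show (16 : ℝ) = 4 ^ (2 : ℝ) by norm_num, ← Real.rpow_mul (by norm_num),
        show (2 : ℝ) * (5 / 2) = ((5 : ℕ) : ℝ) by norm_num, Real.rpow_natCast]
      norm_num
    rw [← this]
    exact Real.rpow_le_rpow (by norm_num) hl (by norm_num)) (Real.rpow_pos_of_pos h0 _) (by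
    rw [Real.rpow_sub h0, div_le_iff₀ (Real.rpow_pos_of_pos h0 _)] at hs
    exact hs) hβ h1 h2 hν hT
  refine ⟨A₀, fun A hA => ?_⟩
  rintro ⟨X, h1, h2, h3⟩
  refine h A hA ⟨X, isSol_iff'.mp h1, h2, ?_, ?_, fun n hn => ?_⟩
  · rw [h3 0]
    simp [data]
  · rw [h3 1]
    simp only [data]
    rw [← Real.rpow_natCast (lam ^ (5 / 2 : ℝ)) 2, ← Real.rpow_mul h0.le,
      show (5 / 2 : ℝ) * ((2 : ℕ) : ℝ) = 5 by norm_num, Real.rpow_neg h0.le, div_eq_mul_inv]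
  · rw [h3 n]
    obtain ⟨m, rfl⟩ := Nat.exists_eq_add_of_le' hn
    cases m with
    | zero => simp [data]
    | succ m => simp [data]

theorem ratioTwo {s ν α β : ℝ} (hs0 : 0 ≤ s) (hs : s ≤ 26 / 25) (hν : 0 ≤ ν) (hβ : 0 < β)
    (h1 : β / 2200 ≤ α) (h2 : α ≤ β / 2100) :
    LargeMultiplesBlowUp 2 s ν α β (data 0 1 (2 ^ (-(5 / 2) : ℝ))) := by
  refine of_nonexist (by norm_num) hν fun T hT => ?_
  obtain ⟨A₀, -, h⟩ := Pool.Agent.H42.Two.blowup α β (2 ^ (5 / 2 : ℝ)) (2 ^ (2 * s)) ν T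
    (by positivity) (by
      rw [← Real.rpow_natCast (2 ^ (5 / 2 : ℝ)) 2, ← Real.rpow_mul (by norm_num),
        show (5 / 2 : ℝ) * ((2 : ℕ) : ℝ) = ((5 : ℕ) : ℝ) by norm_num, Real.rpow_natCast]
      norm_num) (Real.one_le_rpow (by norm_num) (by linarith)) (by
      calc (2 : ℝ) ^ (2 * s) ≤ 2 ^ (2 + 2 / 25 : ℝ) :=
            Real.rpow_le_rpow_of_exponent_le (by norm_num) (by linarith)
        _ = 4 * 2 ^ (2 / 25 : ℝ) := by
            rw [Real.rpow_add (by norm_num)]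
            norm_num
        _ ≤ 4 * (106 / 100) := by
            gcongr
            have h : ((2 : ℝ) ^ (2 / 25 : ℝ)) ^ 25 ≤ (106 / 100) ^ 25 := by
              rw [← Real.rpow_natCast (2 ^ (2 / 25 : ℝ)) 25, ← Real.rpow_mul (by norm_num),
                show (2 / 25 : ℝ) * ((25 : ℕ) : ℝ) = ((2 : ℕ) : ℝ) by norm_num, Real.rpow_natCast]
              norm_num
            exact le_of_pow_le_pow_left₀ (by norm_num) (by norm_num) h
        _ ≤ 424 / 100 := by norm_num) hβ h1 h2 hν hT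
  refine ⟨A₀, fun A hA => ?_⟩
  rintro ⟨X, h1, h2, h3⟩
  refine h A hA ⟨X, isSol_iff'.mp h1, h2, ?_, ?_, ?_, fun n hn => ?_⟩
  · rw [h3 0]
    simp [data]
  · rw [h3 1]
    simp [data]
  · rw [h3 2]
    simp only [data]
    rw [Real.rpow_neg (by norm_num)]
    exact (div_eq_mul_inv _ _).symm
  · rw [h3 n]
    obtain ⟨m, rfl⟩ := Nat.exists_eq_add_of_le' hn
    simp [data]

end Pool.Agent.H42.Flag2
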