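import Pool.Agent.H42.Mix.Basic

/-!
Constants and windows for one stage of the cascade at the shell ratio 2.
-/

open Set Filter Topology

namespace Pool.Agent.H42.Two

open Pool.Agent.H42.Mix (RD mono_of_rd lip_of_rd)

lemma mono' {f f' : ℝ → ℝ} {a c : ℝ} (hf : ContinuousOn f (Ico a c))
    (hd : ∀ s ∈ Ico a c, RD f (f' s) s) (h : ∀ s ∈ Ico a c, 0 ≤ f' s) :
    ∀ s ∈ Ico a c, f a ≤ f s := by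
  intro s hs
  exact mono_of_rd (a := a) (b := s) (hf.mono (Icc_subset_Ico_right hs.2))
    (fun r hr => hd r ⟨hr.1, hr.2.trans hs.2⟩) (fun r hr => h r ⟨hr.1, hr.2.trans hs.2⟩) s
    ⟨hs.1, le_rfl⟩

lemma barrier {f f' : ℝ → ℝ} {a c : ℝ} (hf : ContinuousOn f (Ico a c))
    (hd : ∀ s ∈ Ico a c, RD f (f' s) s) (h0 : 0 ≤ f a)
    (h : ∀ s ∈ Ico a c, f s = 0 → 0 < f' s) : ∀ s ∈ Ico a c, 0 ≤ f s := by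
  intro s hs
  have h1 := image_le_of_deriv_right_lt_deriv_boundary' (f := fun x => -f x)
    (f' := fun x => -f' x) (a := a) (b := s) (hf.mono (Icc_subset_Ico_right hs.2)).neg
    (fun r hr => (hd r ⟨hr.1, hr.2.trans hs.2⟩).fun_neg) (B := fun _ => 0) (B' := fun _ => 0)
    (by simpa using h0) continuousOn_const (fun r _ => hasDerivWithinAt_const _ _ _)
    (fun r hr hr0 => by
      have := h r ⟨hr.1, hr.2.trans hs.2⟩ (by simpa using hr0)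
      linarith) ⟨hs.1, le_rfl⟩
  simpa using h1

/-- passing to the right end point -/
lemma closure_le {f g : ℝ → ℝ} {c : ℝ} (hc : 0 < c) (hf : ContinuousWithinAt f (Ico 0 c) c)
    (hg : ContinuousWithinAt g (Ico 0 c) c) (h : ∀ s ∈ Ico 0 c, f s ≤ g s) : f c ≤ g c := by
  have hne : (𝓝[Ico 0 c] c).NeBot := by
    apply mem_closure_iff_nhdsWithin_neBot.1
    rw [closure_Ico hc.ne]
    exact ⟨hc.le, le_rfl⟩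
  exact le_of_tendsto_of_tendsto hf hg (eventually_nhdsWithin_of_forall h)

/-- the basic constants -/
structure Bs (B t ε : ℝ) : Prop where
  B0 : 0 < B
  B2 : B ^ 2 = 32
  tB : t * B = 1
  e1 : 1 / 2200 ≤ ε
  e2 : ε ≤ 1 / 2100

namespace Bs

variable {B t ε : ℝ}

lemma t_eq (h : Bs B t ε) : t = B / 32 := by
  have h1 := h.tB
  have h2 := h.B2
  have : t * B ^ 2 = B := by rw [pow_two, ← mul_assoc, h1, one_mul]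
  rw [h2] at this
  linarith

lemma t2 (h : Bs B t ε) : t ^ 2 = 1 / 32 := by
  rw [h.t_eq, div_pow, h.B2]
  norm_num

lemma Bl (h : Bs B t ε) : 565685 / 100000 ≤ B := by
  have h2 := h.B2
  have h0 := h.B0
  by_contra hc
  push Not at hc
  nlinarith

lemma Bu (h : Bs B t ε) : B ≤ 565686 / 100000 := by
  have h2 := h.B2
  have h0 := h.B0
  by_contra hc
  push Not at hc
  nlinarith

lemma tl (h : Bs B t ε) : 176776 / 1000000 ≤ t := by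
  rw [h.t_eq]; linarith [h.Bl]

lemma tu (h : Bs B t ε) : t ≤ 176777 / 1000000 := by
  rw [h.t_eq]; linarith [h.Bu]

lemma t0 (h : Bs B t ε) : 0 < t := by linarith [h.tl]

lemma e0 (h : Bs B t ε) : 0 < ε := by linarith [h.e1]

lemma eu (h : Bs B t ε) : ε ≤ 4762 / 10000000 := by linarith [h.e2]

lemma el (h : Bs B t ε) : 4545 / 10000000 ≤ ε := by linarith [h.e1]

end Bs

/-- the numerical constants of a case -/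
structure Cs where
  (pa pb Pw kq g X a1 a2 m R2 PH ymin dy psi1 A0 Jup zh Kh yhl ymid Gam om Jlow r2 ycap ys : ℝ)

/-- the functions in a stage -/
structure Fn where
  (p x y z w φ ψ κ Γ ep ev : ℝ → ℝ)
  (m0 m1 m2 c p0 : ℝ)

/-- a window -/
structure W (B t ε : ℝ) (K : Cs) (F : Fn) : Prop where
  bs : Bs B t ε
  hc : 0 < F.c
  hc' : F.c ≤ 17 / 5
  m0n : 0 ≤ F.m0
  m0s : F.m0 ≤ 1 / 10 ^ 12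
  m1n : 0 ≤ F.m1
  m1s : F.m1 ≤ 1 / 10 ^ 12
  m2n : 0 ≤ F.m2
  m2s : F.m2 ≤ 1 / 10 ^ 12
  cp : ContinuousOn F.p (Icc 0 F.c)
  cx : ContinuousOn F.x (Icc 0 F.c)
  cy : ContinuousOn F.y (Icc 0 F.c)
  cz : ContinuousOn F.z (Icc 0 F.c)
  cw : ContinuousOn F.w (Icc 0 F.c)
  cφ : ContinuousOn F.φ (Icc 0 F.c)
  cψ : ContinuousOn F.ψ (Icc 0 F.c)
  cκ : ContinuousOn F.κ (Icc 0 F.c)
  cΓ : ContinuousOn F.Γ (Icc 0 F.c)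
  dp : ∀ s ∈ Ico 0 F.c, RD F.p (F.ep s - t * F.x s * (ε * F.p s + F.x s)) s
  dx : ∀ s ∈ Ico 0 F.c, RD F.x (t * F.p s * (ε * F.p s + F.x s) - F.m0 * F.x s
    - F.y s * (ε * F.x s + F.y s)) s
  dy : ∀ s ∈ Ico 0 F.c, RD F.y (F.x s * (ε * F.x s + F.y s) - F.m1 * F.y s
    - B * F.z s * (ε * F.y s + F.z s)) s
  dz : ∀ s ∈ Ico 0 F.c, RD F.z (B * F.y s * (ε * F.y s + F.z s) - F.m2 * F.z s
    - 32 * F.w s * (ε * F.z s + F.w s)) s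
  dw : ∀ s ∈ Ico 0 F.c, RD F.w (32 * F.z s * (ε * F.z s + F.w s) - F.ev s) s
  dφ : ∀ s ∈ Ico 0 F.c, RD F.φ (F.y s) s
  dψ : ∀ s ∈ Ico 0 F.c, RD F.ψ (F.x s) s
  dκ : ∀ s ∈ Ico 0 F.c, RD F.κ (B * F.z s ^ 2) s
  dΓ : ∀ s ∈ Ico 0 F.c, RD F.Γ (32 * F.z s) s
  φ0 : F.φ 0 = 0
  ψ0 : F.ψ 0 = 0
  κ0 : F.κ 0 = 0
  Γ0 : F.Γ 0 = 0
  x0 : F.x 0 = 1
  y0 : F.y 0 = t
  p00 : F.p 0 = F.p0
  pa : K.pa ≤ F.p0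
  pb : F.p0 ≤ K.pb
  z0l : -ε ^ 2 ≤ F.z 0
  z0u : F.z 0 ≤ 33 / 20 * (ε * t)
  w0 : |F.w 0| ≤ 13 / 20 * ε ^ 2
  hx : ∀ s ∈ Ico 0 F.c, 0 < F.x s
  hx2 : ∀ s ∈ Ico 0 F.c, F.x s < 2
  hy : ∀ s ∈ Ico 0 F.c, 0 < F.y s
  hy2 : ∀ s ∈ Ico 0 F.c, F.y s < 2
  hz : ∀ s ∈ Ico 0 F.c, |F.z s| < t * F.y s
  hφ : ∀ s ∈ Ico 0 F.c, F.φ s < K.PH
  hw : ∀ s ∈ Ico 0 F.c, |F.w s| < ε / 2
  hp : ∀ s ∈ Ico 0 F.c, |F.p s| < K.Pw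
  hep : ∀ s ∈ Ico 0 F.c, |F.ep s| ≤ K.kq
  hev : ∀ s ∈ Ico 0 F.c, |F.ev s| ≤ ε ^ 3 / 5

/-- the numerical conditions of a case -/
structure Ok (B t ε : ℝ) (K : Cs) : Prop where
  pa0 : 0 ≤ K.pa
  pab : K.pa ≤ K.pb
  pb1 : K.pb ≤ 6 / 10
  Pw1 : K.Pw ≤ 7 / 10
  Pw0 : 1 / 2 ≤ K.Pw
  PH1 : 1 ≤ K.PH
  PH2 : K.PH ≤ 132 / 100
  kq0 : 0 ≤ K.kq
  kqd : 1 / 32 * (17 / 20 * (17 / 20 * ε + K.Pw)) + 1 / 10 ^ 9 ≤ K.kq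
  g : 17 / 5 * (2 * K.Pw * K.kq + 1 / 10 ^ 5) ≤ K.g
  X0 : 1 ≤ K.X
  X2 : K.X ≤ 122 / 100
  X : 1 + 1 / 32 + K.pb ^ 2 + K.g + 1 / 10 ^ 6 ≤ K.X ^ 2
  a1 : 17 / 5 * (K.kq + t * ε * K.X * K.Pw) ≤ K.a1
  a2 : t * K.X * (Real.log (B * K.X) + (t + ε) * K.PH + 1 / 10 ^ 9) + K.a1 ≤ K.a2
  m1 : 2 * K.pb * K.a1 + K.a1 ^ 2 ≤ K.m
  m2 : K.a2 ^ 2 - 2 * K.a2 * K.pa ≤ K.m
  R2 : K.R2 ≤ 1 + 1 / 32 - K.g - K.m - K.X ^ 2 / 32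
  R20 : 3 / 4 ≤ K.R2
  Pl : K.pb + K.a1 < K.Pw
  Pl2 : K.a2 - K.pa < K.Pw
  Pl0 : 0 ≤ K.a2 - K.pa
  ymin : 33 * K.ymin ^ 2 ≤ K.R2
  ymin0 : 15 / 100 ≤ K.ymin
  dy : (ε * K.X ^ 2 + 1 / 10 ^ 8) * (17 / 5) ≤ K.dy
  dy1 : K.dy ≤ 1 / 100
  psi1 : Real.log (B * (t + K.X / 2 + K.dy)) + (t + ε) / 2 + 1 / 10 ^ 9 ≤ K.psi1
  A0 : K.A0 ≤ 1 - t * (K.a2 - K.pa) * K.psi1 - 1 / 10 ^ 9
  A00 : 0 ≤ K.A0
  Jup : 33 / 20 + 1 + B * K.dy + K.X + 1 / 10 ^ 3 ≤ K.Jup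
  Jup4 : K.Jup ≤ 4
  zh : K.Jup * ε * t * Real.exp (B / 2) ≤ K.zh
  zh1 : K.zh ≤ 6 / 1000
  Kh : K.zh ^ 2 / K.ymin + 42 / 10 ^ 7 ≤ K.Kh
  yhl : K.yhl ≤ t - K.Kh - B * ε * K.zh / 2 + K.A0 / 2 - (t + K.dy + ε * K.X) / 8 - K.X / 48
  ymid : (1 + 1 / 32) * K.ymid ≤ K.yhl - 5 / 10 ^ 6 - 2 * ε * (K.PH - 1 / 2)
  ymid0 : 1 / 2 ≤ K.ymid
  wb : 32 * K.X ^ 2 ≤ 153 * K.ymid ^ 2
  Gam : K.Jup * ε * Real.exp (B / 2) / K.ymin + K.X / K.ymid + 1 / 10 ^ 4 ≤ K.Gam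
  om : 76 / 100 * Real.exp K.Gam ≤ K.om
  om1 : 31 / 20 * t * K.X + K.om * ε ≤ 34 / 100
  om2 : K.om * ε ≤ (33 / 20 - 31 / 20) * t * (3 / 4)
  Jlow0 : 0 ≤ K.Jlow
  Jlow1 : K.Jlow ≤ K.Jup
  Jlow : t * K.Jlow ≤ (t - K.Kh - B * ε * K.zh / 2) + t * K.A0 - t ^ 2 * (t + K.dy + ε * K.X)
    - t ^ 3 * K.X - Real.exp (-(B / 2)) * ((t - K.Kh - B * ε * K.zh / 2) + K.A0 / 2
    - (t + K.dy + ε * K.X) / 8 - K.X / 48 + t * (K.A0 - (t + K.dy + ε * K.X) / 2 - K.X / 8)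
    - t ^ 2 * ((t + K.dy + ε * K.X) + K.X / 2) - t ^ 3 * K.X) - 101 / 100 * ε
  C2 : K.X < ε * K.Jlow * Real.exp (B * K.PH)
  C1 : 1 / 1000 ≤ Real.pi / 2 - t - K.PH - ε * (Real.log (B * K.X) + (t + ε) * K.PH + 1 / 10 ^ 9)
    - t * (K.a2 - K.pa) / K.R2 * (K.X * (1 + 1 / 32) - t + 5 / 10 ^ 6 + ε * K.X * K.PH)
    - 1 / 10 ^ 6
  r20 : 8 / 10 ≤ K.r2
  r2 : K.r2 ^ 2 ≤ K.R2
  T : Real.arsinh B + K.Kh / K.ymin + (K.X / 32 + 5 / 10 ^ 6) / K.ymid <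
    (K.r2 - t * (K.pb + K.a1) - 13 / 10 ^ 4) * (17 / 5)
  T0 : 0 < K.r2 - t * (K.pb + K.a1) - 13 / 10 ^ 4
  ycap : K.X ^ 2 ≤ 136 / 100 * K.ycap ^ 2
  ycap0 : 0 ≤ K.ycap
  fin : Real.arctan B - t * Real.log (K.r2 / (K.Jup * ε)) + t * (K.pb + K.a1) / K.R2 *
    (K.ycap * (1 + 1 / 32) - t + 5 / 10 ^ 6 + ε * K.X * K.PH) + K.X / K.R2 *
    (K.ycap / 32 + 5 / 10 ^ 6) + 5 / 10 ^ 4 <
    Real.arctan (3 / 5) - t / 2 * Real.log (1 + (3 / 5) ^ 2)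
  ys0 : 3 / 4 ≤ K.ys
  ys : 136 / 100 * K.ys ^ 2 ≤ K.R2
  q1 : K.pb + (K.kq + 7 / 10 ^ 4 + t * (45 / 100) ^ 2) * (17 / 5) -
    2 * t * (45 / 100) * Real.log (B * K.ys) ≤ 18 / 25 * K.ys
  q2 : K.a2 - K.pa ≤ 18 / 25 * K.ys

end Pool.Agent.H42.Two
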