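import Pool.Agent.H42.Two.Num

/-!
The numerical conditions of the three cases.
-/

open Set

namespace Pool.Agent.H42.Two

variable {B t ε : ℝ}

/-- constants of case A -/
noncomputable def caseA : Cs :=
  ⟨0, 3 / 20, 1 / 2, 133 / 10000, 453 / 10000, 2621 / 2500, 91 / 2000, 4179 / 10000, 1747 / 10000, 971 / 1250, 323 / 250, 1533 / 10000, 179 / 100000, 14689 / 10000, 4457 / 5000, 4637 / 1250, 1321 / 250000, 187 / 1000000, 289 / 500, 5597 / 10000, 2069 / 1000, 301 / 50, 1999 / 1250, 8813 / 10000, 8991 / 10000, 7557 / 10000⟩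

set_option maxHeartbeats 4000000 in
theorem okA (hb : Bs B t ε) : Ok B t ε caseA := by
  have hBl := hb.Bl
  have hBu := hb.Bu
  have hB0 := hb.B0
  have htl := hb.tl
  have htu := hb.tu
  have ht0 := hb.t0
  have he0 := hb.e0
  have heu := hb.eu
  have he1 := hb.e1
  have hel := hb.el
  have ht2 := hb.t2
  have hte := hb.te_le
  have hte0 : 0 < t * ε := mul_pos ht0 he0
  have hBe := hb.Be_le
  have hBe0 : 0 < B * ε := mul_pos hB0 he0
  have hE := hb.exp_half_le
  have hE0 := Real.exp_pos (B / 2)
  have hEn := hb.exp_neg_half_le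
  have hEn0 := Real.exp_pos (-(B / 2))
  have ht3 : t ^ 3 = t / 32 := by
    have : t ^ 3 = t ^ 2 * t := by ring
    rw [this, ht2]
    ring
  have f1 : (5930653 / 1000000 : ℝ) ≤ Real.exp (35603 / 20000) := by
    have := exp_ge (n := 1) (r := 15603 / 20000) (y := 5930653 / 1000000) (by norm_num) (by norm_num)
      (by norm_num [Tl])
    norm_num at this ⊢
    exact this
  have g1 : Real.log (B * (2621 / 2500)) ≤ 35603 / 20000 := by
    rw [Real.log_le_iff_le_exp (by positivity)]
    refine le_trans ?_ f1
    nlinarith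
  have f2 : (993863 / 250000 : ℝ) ≤ Real.exp (27603 / 20000) := by
    have := exp_ge (n := 1) (r := 7603 / 20000) (y := 993863 / 250000) (by norm_num) (by norm_num)
      (by norm_num [Tl])
    norm_num at this ⊢
    exact this
  have g2 : Real.log (B * (t + (2621 / 2500) / 2 + (179 / 100000))) ≤ 27603 / 20000 := by
    rw [Real.log_le_iff_le_exp (by positivity)]
    refine le_trans ?_ f2
    have e : B * (t + (2621 / 2500) / 2 + (179 / 100000)) = 1 + B * ((2621 / 2500) / 2 + (179 / 100000)) := by
      have := hb.tB
      linear_combination this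
    rw [e]
    nlinarith
  have f3 : Real.exp (2069 / 1000) ≤ (7917 / 1000 : ℝ) := by
    have := exp_le (n := 2) (r := 69 / 1000) (y := 7917 / 1000) (by norm_num) (by norm_num)
      (by norm_num [Tl])
    norm_num at this ⊢
    exact this
  have f4 : (29863 / 20 : ℝ) ≤ Real.exp (146173 / 20000) := by
    have := exp_ge (n := 7) (r := 6173 / 20000) (y := 29863 / 20) (by norm_num) (by norm_num)
      (by norm_num [Tl])
    norm_num at this ⊢
    exact this
  have g4 : (29863 / 20 : ℝ) ≤ Real.exp (B * (323 / 250)) := by
    refine f4.trans (Real.exp_le_exp.2 ?_)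
    nlinarith
  have f5 : Real.exp (15531 / 2500) ≤ (1247257 / 2500 : ℝ) := by
    have := exp_le (n := 6) (r := 531 / 2500) (y := 1247257 / 2500) (by norm_num) (by norm_num)
      (by norm_num [Tl])
    norm_num at this ⊢
    exact this
  have g5 : (15531 / 2500 : ℝ) ≤ Real.log ((8813 / 10000) / ((4637 / 1250) * ε)) := by
    rw [Real.le_log_iff_exp_le (by positivity)]
    refine f5.trans ?_
    rw [le_div_iff₀ (by positivity)]
    have he2 := hb.e2
    nlinarith
  have f6 : Real.exp (72637 / 50000) ≤ (13359 / 3125 : ℝ) := by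
    have := exp_le (n := 1) (r := 22637 / 50000) (y := 13359 / 3125) (by norm_num) (by norm_num)
      (by norm_num [Tl])
    norm_num at this ⊢
    exact this
  have g6 : (72637 / 50000 : ℝ) ≤ Real.log (B * (7557 / 10000)) := by
    rw [Real.le_log_iff_exp_le (by positivity)]
    refine f6.trans ?_
    nlinarith
  constructor
  · norm_num [caseA]
  · norm_num [caseA]
  · norm_num [caseA]
  · norm_num [caseA]
  · norm_num [caseA]
  · norm_num [caseA]
  · norm_num [caseA]
  · norm_num [caseA]
  · simp only [caseA]
    linarith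
  · norm_num [caseA]
  · norm_num [caseA]
  · norm_num [caseA]
  · norm_num [caseA]
  · simp only [caseA]
    linarith
  · simp only [caseA]
    have h1 : t * Real.log (B * (2621 / 2500)) ≤ 176777 / 1000000 * (35603 / 20000) := by
      calc t * Real.log (B * (2621 / 2500)) ≤ t * (35603 / 20000) := by gcongr
        _ ≤ _ := by gcongr
    linarith
  · norm_num [caseA]
  · norm_num [caseA]
  · norm_num [caseA]
  · norm_num [caseA]
  · norm_num [caseA]
  · norm_num [caseA]
  · norm_num [caseA]
  · norm_num [caseA]
  · norm_num [caseA]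
  · simp only [caseA]
    linarith
  · norm_num [caseA]
  · simp only [caseA]
    linarith
  · simp only [caseA]
    linarith
  · norm_num [caseA]
  · simp only [caseA]
    linarith
  · norm_num [caseA]
  · simp only [caseA]
    calc (4637 / 1250) * ε * t * Real.exp (B / 2) = (4637 / 1250) * ((t * ε) * Real.exp (B / 2)) := by ring
      _ ≤ (4637 / 1250) * ((8418121 / 10 ^ 11) * (16919 / 10 ^ 3)) := by gcongr
      _ ≤ _ := by norm_num
  · norm_num [caseA]
  · norm_num [caseA]
  · simp only [caseA]
    linarith
  · simp only [caseA]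
    linarith
  · norm_num [caseA]
  · norm_num [caseA]
  · simp only [caseA]
    have h1 : (4637 / 1250) * ε * Real.exp (B / 2) ≤ (4637 / 1250) * (4762 / 10000000) * (16919 / 10 ^ 3) := by
      gcongr
    have h2 : (4637 / 1250) * ε * Real.exp (B / 2) / (1533 / 10000) ≤
        (4637 / 1250) * (4762 / 10000000) * (16919 / 10 ^ 3) / (1533 / 10000) := by gcongr
    linarith
  · simp only [caseA]
    linarith
  · simp only [caseA]
    linarith
  · simp only [caseA]
    linarith
  · norm_num [caseA]
  · norm_num [caseA]
  · simp only [caseA]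
    rw [ht3, ht2]
    have hS : (t - (187 / 1000000) - B * ε * (1321 / 250000) / 2) + (4457 / 5000) / 2
        - (t + (179 / 100000) + ε * (2621 / 2500)) / 8 - (2621 / 2500) / 48
        + t * ((4457 / 5000) - (t + (179 / 100000) + ε * (2621 / 2500)) / 2 - (2621 / 2500) / 8)
        - 1 / 32 * ((t + (179 / 100000) + ε * (2621 / 2500)) + (2621 / 2500) / 2) - t / 32 * (2621 / 2500) ≤ 66899 / 100000 := by
      linarith
    have h1 := mul_le_mul_of_nonneg_left hS hEn0.le
    have h2 : Real.exp (-(B / 2)) * (66899 / 100000) ≤ (59109 / 10 ^ 6) * (66899 / 100000) := by gcongr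
    linarith
  · simp only [caseA]
    calc (2621 / 2500 : ℝ) < (1 / 2200) * (1999 / 1250) * (29863 / 20) := by norm_num
      _ ≤ ε * (1999 / 1250) * Real.exp (B * (323 / 250)) := by gcongr
  · simp only [caseA]
    have hpi := Real.pi_gt_d6
    have h1 : ε * Real.log (B * (2621 / 2500)) ≤ 4762 / 10000000 * (35603 / 20000) := by
      calc ε * Real.log (B * (2621 / 2500)) ≤ ε * (35603 / 20000) := by gcongr
        _ ≤ _ := by gcongr
    have h2 : ε * ε ≤ 4762 / 10000000 * (4762 / 10000000) := by gcongr
    linarith
  · norm_num [caseA]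
  · norm_num [caseA]
  · simp only [caseA]
    have h1 := hb.arsinh_le
    linarith
  · simp only [caseA]
    linarith
  · norm_num [caseA]
  · norm_num [caseA]
  · simp only [caseA]
    have h1 := hb.arctanB_le
    have h2 := arctan_three_fifths
    have h3 := log_136
    have hpi := Real.pi_lt_d6
    have h4 : 176776 / 1000000 * (15531 / 2500) ≤ t * Real.log ((8813 / 10000) / ((4637 / 1250) * ε)) := by
      calc 176776 / 1000000 * (15531 / 2500) ≤ t * (15531 / 2500) := by gcongr
        _ ≤ _ := by gcongr
    have h5 : t / 2 * Real.log (1 + (3 / 5) ^ 2) ≤ 176777 / 1000000 / 2 * (3076 / 10000) := by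
      have h0 : 0 ≤ Real.log (1 + (3 / 5) ^ 2) := Real.log_nonneg (by norm_num)
      gcongr
    linarith
  · norm_num [caseA]
  · norm_num [caseA]
  · simp only [caseA]
    have h4 : 176776 / 1000000 * (72637 / 50000) ≤ t * Real.log (B * (7557 / 10000)) := by
      calc 176776 / 1000000 * (72637 / 50000) ≤ t * (72637 / 50000) := by gcongr
        _ ≤ _ := by gcongr
    linarith
  · norm_num [caseA]

/-- constants of case B -/
noncomputable def caseB : Cs :=
  ⟨3 / 20, 3 / 10, 1 / 2, 133 / 10000, 453 / 10000, 10801 / 10000, 91 / 2000, 87 / 200, 147 / 2500, 4453 / 5000, 259 / 200, 821 / 5000, 19 / 10000, 14913 / 10000, 578 / 625, 37419 / 10000, 533 / 100000, 89 / 500000, 297 / 500, 719 / 1250, 1031 / 500, 299 / 50, 2031 / 1250, 2359 / 2500, 9263 / 10000, 8091 / 10000⟩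

set_option maxHeartbeats 4000000 in
theorem okB (hb : Bs B t ε) : Ok B t ε caseB := by
  have hBl := hb.Bl
  have hBu := hb.Bu
  have hB0 := hb.B0
  have htl := hb.tl
  have htu := hb.tu
  have ht0 := hb.t0
  have he0 := hb.e0
  have heu := hb.eu
  have he1 := hb.e1
  have hel := hb.el
  have ht2 := hb.t2
  have hte := hb.te_le
  have hte0 : 0 < t * ε := mul_pos ht0 he0
  have hBe := hb.Be_le
  have hBe0 : 0 < B * ε := mul_pos hB0 he0
  have hE := hb.exp_half_le
  have hE0 := Real.exp_pos (B / 2)
  have hEn := hb.exp_neg_half_le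
  have hEn0 := Real.exp_pos (-(B / 2))
  have ht3 : t ^ 3 = t / 32 := by
    have : t ^ 3 = t ^ 2 * t := by ring
    rw [this, ht2]
    ring
  have f1 : (244399 / 40000 : ℝ) ≤ Real.exp (90497 / 50000) := by
    have := exp_ge (n := 1) (r := 40497 / 50000) (y := 244399 / 40000) (by norm_num) (by norm_num)
      (by norm_num [Tl])
    norm_num at this ⊢
    exact this
  have g1 : Real.log (B * (10801 / 10000)) ≤ 90497 / 50000 := by
    rw [Real.log_le_iff_le_exp (by positivity)]
    refine le_trans ?_ f1
    nlinarith
  have f2 : (508217 / 125000 : ℝ) ≤ Real.exp (140261 / 100000) := by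
    have := exp_ge (n := 1) (r := 40261 / 100000) (y := 508217 / 125000) (by norm_num) (by norm_num)
      (by norm_num [Tl])
    norm_num at this ⊢
    exact this
  have g2 : Real.log (B * (t + (10801 / 10000) / 2 + (19 / 10000))) ≤ 140261 / 100000 := by
    rw [Real.log_le_iff_le_exp (by positivity)]
    refine le_trans ?_ f2
    have e : B * (t + (10801 / 10000) / 2 + (19 / 10000)) = 1 + B * ((10801 / 10000) / 2 + (19 / 10000)) := by
      have := hb.tB
      linear_combination this
    rw [e]
    nlinarith
  have f3 : Real.exp (1031 / 500) ≤ (78617 / 10000 : ℝ) := by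
    have := exp_le (n := 2) (r := 31 / 500) (y := 78617 / 10000) (by norm_num) (by norm_num)
      (by norm_num [Tl])
    norm_num at this ⊢
    exact this
  have f4 : (151871 / 100 : ℝ) ≤ Real.exp (366281 / 50000) := by
    have := exp_ge (n := 7) (r := 16281 / 50000) (y := 151871 / 100) (by norm_num) (by norm_num)
      (by norm_num [Tl])
    norm_num at this ⊢
    exact this
  have g4 : (151871 / 100 : ℝ) ≤ Real.exp (B * (259 / 200)) := by
    refine f4.trans (Real.exp_le_exp.2 ?_)
    nlinarith
  have f5 : Real.exp (627203 / 100000) ≤ (2647799 / 5000 : ℝ) := by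
    have := exp_le (n := 6) (r := 27203 / 100000) (y := 2647799 / 5000) (by norm_num) (by norm_num)
      (by norm_num [Tl])
    norm_num at this ⊢
    exact this
  have g5 : (627203 / 100000 : ℝ) ≤ Real.log ((2359 / 2500) / ((37419 / 10000) * ε)) := by
    rw [Real.le_log_iff_exp_le (by positivity)]
    refine f5.trans ?_
    rw [le_div_iff₀ (by positivity)]
    have he2 := hb.e2
    nlinarith
  have f6 : Real.exp (76051 / 50000) ≤ (91539 / 20000 : ℝ) := by
    have := exp_le (n := 1) (r := 26051 / 50000) (y := 91539 / 20000) (by norm_num) (by norm_num)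
      (by norm_num [Tl])
    norm_num at this ⊢
    exact this
  have g6 : (76051 / 50000 : ℝ) ≤ Real.log (B * (8091 / 10000)) := by
    rw [Real.le_log_iff_exp_le (by positivity)]
    refine f6.trans ?_
    nlinarith
  constructor
  · norm_num [caseB]
  · norm_num [caseB]
  · norm_num [caseB]
  · norm_num [caseB]
  · norm_num [caseB]
  · norm_num [caseB]
  · norm_num [caseB]
  · norm_num [caseB]
  · simp only [caseB]
    linarith
  · norm_num [caseB]
  · norm_num [caseB]
  · norm_num [caseB]
  · norm_num [caseB]
  · simp only [caseB]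
    linarith
  · simp only [caseB]
    have h1 : t * Real.log (B * (10801 / 10000)) ≤ 176777 / 1000000 * (90497 / 50000) := by
      calc t * Real.log (B * (10801 / 10000)) ≤ t * (90497 / 50000) := by gcongr
        _ ≤ _ := by gcongr
    linarith
  · norm_num [caseB]
  · norm_num [caseB]
  · norm_num [caseB]
  · norm_num [caseB]
  · norm_num [caseB]
  · norm_num [caseB]
  · norm_num [caseB]
  · norm_num [caseB]
  · norm_num [caseB]
  · simp only [caseB]
    linarith
  · norm_num [caseB]
  · simp only [caseB]
    linarith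
  · simp only [caseB]
    linarith
  · norm_num [caseB]
  · simp only [caseB]
    linarith
  · norm_num [caseB]
  · simp only [caseB]
    calc (37419 / 10000) * ε * t * Real.exp (B / 2) = (37419 / 10000) * ((t * ε) * Real.exp (B / 2)) := by ring
      _ ≤ (37419 / 10000) * ((8418121 / 10 ^ 11) * (16919 / 10 ^ 3)) := by gcongr
      _ ≤ _ := by norm_num
  · norm_num [caseB]
  · norm_num [caseB]
  · simp only [caseB]
    linarith
  · simp only [caseB]
    linarith
  · norm_num [caseB]
  · norm_num [caseB]
  · simp only [caseB]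
    have h1 : (37419 / 10000) * ε * Real.exp (B / 2) ≤ (37419 / 10000) * (4762 / 10000000) * (16919 / 10 ^ 3) := by
      gcongr
    have h2 : (37419 / 10000) * ε * Real.exp (B / 2) / (821 / 5000) ≤
        (37419 / 10000) * (4762 / 10000000) * (16919 / 10 ^ 3) / (821 / 5000) := by gcongr
    linarith
  · simp only [caseB]
    linarith
  · simp only [caseB]
    linarith
  · simp only [caseB]
    linarith
  · norm_num [caseB]
  · norm_num [caseB]
  · simp only [caseB]
    rw [ht3, ht2]
    have hS : (t - (89 / 500000) - B * ε * (533 / 100000) / 2) + (578 / 625) / 2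
        - (t + (19 / 10000) + ε * (10801 / 10000)) / 8 - (10801 / 10000) / 48
        + t * ((578 / 625) - (t + (19 / 10000) + ε * (10801 / 10000)) / 2 - (10801 / 10000) / 8)
        - 1 / 32 * ((t + (19 / 10000) + ε * (10801 / 10000)) + (10801 / 10000) / 2) - t / 32 * (10801 / 10000) ≤ 34477 / 50000 := by
      linarith
    have h1 := mul_le_mul_of_nonneg_left hS hEn0.le
    have h2 : Real.exp (-(B / 2)) * (34477 / 50000) ≤ (59109 / 10 ^ 6) * (34477 / 50000) := by gcongr
    linarith
  · simp only [caseB]
    calc (10801 / 10000 : ℝ) < (1 / 2200) * (2031 / 1250) * (151871 / 100) := by norm_num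
      _ ≤ ε * (2031 / 1250) * Real.exp (B * (259 / 200)) := by gcongr
  · simp only [caseB]
    have hpi := Real.pi_gt_d6
    have h1 : ε * Real.log (B * (10801 / 10000)) ≤ 4762 / 10000000 * (90497 / 50000) := by
      calc ε * Real.log (B * (10801 / 10000)) ≤ ε * (90497 / 50000) := by gcongr
        _ ≤ _ := by gcongr
    have h2 : ε * ε ≤ 4762 / 10000000 * (4762 / 10000000) := by gcongr
    linarith
  · norm_num [caseB]
  · norm_num [caseB]
  · simp only [caseB]
    have h1 := hb.arsinh_le
    linarith
  · simp only [caseB]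
    linarith
  · norm_num [caseB]
  · norm_num [caseB]
  · simp only [caseB]
    have h1 := hb.arctanB_le
    have h2 := arctan_three_fifths
    have h3 := log_136
    have hpi := Real.pi_lt_d6
    have h4 : 176776 / 1000000 * (627203 / 100000) ≤ t * Real.log ((2359 / 2500) / ((37419 / 10000) * ε)) := by
      calc 176776 / 1000000 * (627203 / 100000) ≤ t * (627203 / 100000) := by gcongr
        _ ≤ _ := by gcongr
    have h5 : t / 2 * Real.log (1 + (3 / 5) ^ 2) ≤ 176777 / 1000000 / 2 * (3076 / 10000) := by
      have h0 : 0 ≤ Real.log (1 + (3 / 5) ^ 2) := Real.log_nonneg (by norm_num)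
      gcongr
    linarith
  · norm_num [caseB]
  · norm_num [caseB]
  · simp only [caseB]
    have h4 : 176776 / 1000000 * (76051 / 50000) ≤ t * Real.log (B * (8091 / 10000)) := by
      calc 176776 / 1000000 * (76051 / 50000) ≤ t * (76051 / 50000) := by gcongr
        _ ≤ _ := by gcongr
    linarith
  · norm_num [caseB]

/-- constants of case C -/
noncomputable def caseC : Cs :=
  ⟨3 / 10, 3 / 5, 7 / 10, 1861 / 100000, 887 / 10000, 6083 / 5000, 159 / 2500, 1057 / 2000, 201 / 2500, 4079 / 5000, 2623 / 2000, 1571 / 10000, 3 / 1250, 15827 / 10000, 117 / 125, 38813 / 10000, 5529 / 1000000, 1 / 5000, 5967 / 10000, 2889 / 5000, 1153 / 500, 763 / 100, 204 / 125, 9031 / 10000, 10433 / 10000, 484 / 625⟩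

set_option maxHeartbeats 4000000 in
theorem okC (hb : Bs B t ε) : Ok B t ε caseC := by
  have hBl := hb.Bl
  have hBu := hb.Bu
  have hB0 := hb.B0
  have htl := hb.tl
  have htu := hb.tu
  have ht0 := hb.t0
  have he0 := hb.e0
  have heu := hb.eu
  have he1 := hb.e1
  have hel := hb.el
  have ht2 := hb.t2
  have hte := hb.te_le
  have hte0 : 0 < t * ε := mul_pos ht0 he0
  have hBe := hb.Be_le
  have hBe0 : 0 < B * ε := mul_pos hB0 he0
  have hE := hb.exp_half_le
  have hE0 := Real.exp_pos (B / 2)
  have hEn := hb.exp_neg_half_le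
  have hEn0 := Real.exp_pos (-(B / 2))
  have ht3 : t ^ 3 = t / 32 := by
    have : t ^ 3 = t ^ 2 * t := by ring
    rw [this, ht2]
    ring
  have f1 : (860267 / 125000 : ℝ) ≤ Real.exp (96447 / 50000) := by
    have := exp_ge (n := 1) (r := 46447 / 50000) (y := 860267 / 125000) (by norm_num) (by norm_num)
      (by norm_num [Tl])
    norm_num at this ⊢
    exact this
  have g1 : Real.log (B * (6083 / 5000)) ≤ 96447 / 50000 := by
    rw [Real.log_le_iff_le_exp (by positivity)]
    refine le_trans ?_ f1
    nlinarith
  have f2 : (890929 / 200000 : ℝ) ≤ Real.exp (37349 / 25000) := by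
    have := exp_ge (n := 1) (r := 12349 / 25000) (y := 890929 / 200000) (by norm_num) (by norm_num)
      (by norm_num [Tl])
    norm_num at this ⊢
    exact this
  have g2 : Real.log (B * (t + (6083 / 5000) / 2 + (3 / 1250))) ≤ 37349 / 25000 := by
    rw [Real.log_le_iff_le_exp (by positivity)]
    refine le_trans ?_ f2
    have e : B * (t + (6083 / 5000) / 2 + (3 / 1250)) = 1 + B * ((6083 / 5000) / 2 + (3 / 1250)) := by
      have := hb.tB
      linear_combination this
    rw [e]
    nlinarith
  have f3 : Real.exp (1153 / 500) ≤ (100343 / 10000 : ℝ) := by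
    have := exp_le (n := 2) (r := 153 / 500) (y := 100343 / 10000) (by norm_num) (by norm_num)
      (by norm_num [Tl])
    norm_num at this ⊢
    exact this
  have f4 : (166727 / 100 : ℝ) ≤ Real.exp (148379 / 20000) := by
    have := exp_ge (n := 7) (r := 8379 / 20000) (y := 166727 / 100) (by norm_num) (by norm_num)
      (by norm_num [Tl])
    norm_num at this ⊢
    exact this
  have g4 : (166727 / 100 : ℝ) ≤ Real.exp (B * (2623 / 2000)) := by
    refine f4.trans (Real.exp_le_exp.2 ?_)
    nlinarith
  have f5 : Real.exp (619159 / 100000) ≤ (195451 / 400 : ℝ) := by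
    have := exp_le (n := 6) (r := 19159 / 100000) (y := 195451 / 400) (by norm_num) (by norm_num)
      (by norm_num [Tl])
    norm_num at this ⊢
    exact this
  have g5 : (619159 / 100000 : ℝ) ≤ Real.log ((9031 / 10000) / ((38813 / 10000) * ε)) := by
    rw [Real.le_log_iff_exp_le (by positivity)]
    refine f5.trans ?_
    rw [le_div_iff₀ (by positivity)]
    have he2 := hb.e2
    nlinarith
  have f6 : Real.exp (147719 / 100000) ≤ (219033 / 50000 : ℝ) := by
    have := exp_le (n := 1) (r := 47719 / 100000) (y := 219033 / 50000) (by norm_num) (by norm_num)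
      (by norm_num [Tl])
    norm_num at this ⊢
    exact this
  have g6 : (147719 / 100000 : ℝ) ≤ Real.log (B * (484 / 625)) := by
    rw [Real.le_log_iff_exp_le (by positivity)]
    refine f6.trans ?_
    nlinarith
  constructor
  · norm_num [caseC]
  · norm_num [caseC]
  · norm_num [caseC]
  · norm_num [caseC]
  · norm_num [caseC]
  · norm_num [caseC]
  · norm_num [caseC]
  · norm_num [caseC]
  · simp only [caseC]
    linarith
  · norm_num [caseC]
  · norm_num [caseC]
  · norm_num [caseC]
  · norm_num [caseC]
  · simp only [caseC]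
    linarith
  · simp only [caseC]
    have h1 : t * Real.log (B * (6083 / 5000)) ≤ 176777 / 1000000 * (96447 / 50000) := by
      calc t * Real.log (B * (6083 / 5000)) ≤ t * (96447 / 50000) := by gcongr
        _ ≤ _ := by gcongr
    linarith
  · norm_num [caseC]
  · norm_num [caseC]
  · norm_num [caseC]
  · norm_num [caseC]
  · norm_num [caseC]
  · norm_num [caseC]
  · norm_num [caseC]
  · norm_num [caseC]
  · norm_num [caseC]
  · simp only [caseC]
    linarith
  · norm_num [caseC]
  · simp only [caseC]
    linarith
  · simp only [caseC]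
    linarith
  · norm_num [caseC]
  · simp only [caseC]
    linarith
  · norm_num [caseC]
  · simp only [caseC]
    calc (38813 / 10000) * ε * t * Real.exp (B / 2) = (38813 / 10000) * ((t * ε) * Real.exp (B / 2)) := by ring
      _ ≤ (38813 / 10000) * ((8418121 / 10 ^ 11) * (16919 / 10 ^ 3)) := by gcongr
      _ ≤ _ := by norm_num
  · norm_num [caseC]
  · norm_num [caseC]
  · simp only [caseC]
    linarith
  · simp only [caseC]
    linarith
  · norm_num [caseC]
  · norm_num [caseC]
  · simp only [caseC]
    have h1 : (38813 / 10000) * ε * Real.exp (B / 2) ≤ (38813 / 10000) * (4762 / 10000000) * (16919 / 10 ^ 3) := by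
      gcongr
    have h2 : (38813 / 10000) * ε * Real.exp (B / 2) / (1571 / 10000) ≤
        (38813 / 10000) * (4762 / 10000000) * (16919 / 10 ^ 3) / (1571 / 10000) := by gcongr
    linarith
  · simp only [caseC]
    linarith
  · simp only [caseC]
    linarith
  · simp only [caseC]
    linarith
  · norm_num [caseC]
  · norm_num [caseC]
  · simp only [caseC]
    rw [ht3, ht2]
    have hS : (t - (1 / 5000) - B * ε * (5529 / 1000000) / 2) + (117 / 125) / 2
        - (t + (3 / 1250) + ε * (6083 / 5000)) / 8 - (6083 / 5000) / 48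
        + t * ((117 / 125) - (t + (3 / 1250) + ε * (6083 / 5000)) / 2 - (6083 / 5000) / 8)
        - 1 / 32 * ((t + (3 / 1250) + ε * (6083 / 5000)) + (6083 / 5000) / 2) - t / 32 * (6083 / 5000) ≤ 68821 / 100000 := by
      linarith
    have h1 := mul_le_mul_of_nonneg_left hS hEn0.le
    have h2 : Real.exp (-(B / 2)) * (68821 / 100000) ≤ (59109 / 10 ^ 6) * (68821 / 100000) := by gcongr
    linarith
  · simp only [caseC]
    calc (6083 / 5000 : ℝ) < (1 / 2200) * (204 / 125) * (166727 / 100) := by norm_num
      _ ≤ ε * (204 / 125) * Real.exp (B * (2623 / 2000)) := by gcongr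
  · simp only [caseC]
    have hpi := Real.pi_gt_d6
    have h1 : ε * Real.log (B * (6083 / 5000)) ≤ 4762 / 10000000 * (96447 / 50000) := by
      calc ε * Real.log (B * (6083 / 5000)) ≤ ε * (96447 / 50000) := by gcongr
        _ ≤ _ := by gcongr
    have h2 : ε * ε ≤ 4762 / 10000000 * (4762 / 10000000) := by gcongr
    linarith
  · norm_num [caseC]
  · norm_num [caseC]
  · simp only [caseC]
    have h1 := hb.arsinh_le
    linarith
  · simp only [caseC]
    linarith
  · norm_num [caseC]
  · norm_num [caseC]
  · simp only [caseC]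
    have h1 := hb.arctanB_le
    have h2 := arctan_three_fifths
    have h3 := log_136
    have hpi := Real.pi_lt_d6
    have h4 : 176776 / 1000000 * (619159 / 100000) ≤ t * Real.log ((9031 / 10000) / ((38813 / 10000) * ε)) := by
      calc 176776 / 1000000 * (619159 / 100000) ≤ t * (619159 / 100000) := by gcongr
        _ ≤ _ := by gcongr
    have h5 : t / 2 * Real.log (1 + (3 / 5) ^ 2) ≤ 176777 / 1000000 / 2 * (3076 / 10000) := by
      have h0 : 0 ≤ Real.log (1 + (3 / 5) ^ 2) := Real.log_nonneg (by norm_num)
      gcongr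
    linarith
  · norm_num [caseC]
  · norm_num [caseC]
  · simp only [caseC]
    have h4 : 176776 / 1000000 * (147719 / 100000) ≤ t * Real.log (B * (484 / 625)) := by
      calc 176776 / 1000000 * (147719 / 100000) ≤ t * (147719 / 100000) := by gcongr
        _ ≤ _ := by gcongr
    linarith
  · norm_num [caseC]

end Pool.Agent.H42.Two
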