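import Pool.Agent.H42.Two.Est6

/-!
The state at the end of a window.
-/

open Set Filter Topology

namespace Pool.Agent.H42.Two

open Pool.Agent.H42.Mix (RD mono_of_rd lip_of_rd)

variable {B t ε : ℝ} {K : Cs} {F : Fn}

lemma cl {f g : ℝ → ℝ} {c : ℝ} (hc : 0 < c) (hf : ContinuousOn f (Icc 0 c))
    (hg : ContinuousOn g (Icc 0 c)) (h : ∀ s ∈ Ico 0 c, f s ≤ g s) : f c ≤ g c :=
  closure_le hc ((hf c ⟨hc.le, le_rfl⟩).mono Ico_subset_Icc_self)
    ((hg c ⟨hc.le, le_rfl⟩).mono Ico_subset_Icc_self) h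

namespace W

lemma ψmax (h : W B t ε K F) (k : Ok B t ε K) : ∀ s ∈ Ico 0 F.c,
    F.ψ s ≤ Real.log (B * K.X) + (t + ε) * K.PH + 1 / 10 ^ 9 := by
  intro s hs
  have h6 := h.ψup s hs
  have ht := h.bs.t0
  have he := h.bs.e0
  have h7 : Real.log (B * F.y s) ≤ Real.log (B * K.X) := by
    apply Real.log_le_log (mul_pos h.bs.B0 (h.hy s hs))
    exact mul_le_mul_of_nonneg_left (h.yX k s hs) h.bs.B0.le
  have h8 : (t + ε) * F.φ s ≤ (t + ε) * K.PH :=
    mul_le_mul_of_nonneg_left (h.hφ s hs).le (by positivity)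
  have : (1 / 10 ^ 12 : ℝ) * s ≤ 1 / 10 ^ 9 := by
    calc (1 / 10 ^ 12 : ℝ) * s ≤ 1 / 10 ^ 12 * (17 / 5) := by
          gcongr
          exact hs.2.le.trans h.hc'
      _ ≤ _ := by norm_num
  linarith

lemma κmax (h : W B t ε K F) (k : Ok B t ε K) : ∀ s ∈ Ico 0 F.c,
    F.κ s ≤ F.y s / 32 + 5 / 10 ^ 6 := by
  intro s hs
  have h1 := h.κup k s hs
  have h2 := h.z2y s hs
  have : (42 / 10 ^ 7 : ℝ) ≤ 5 / 10 ^ 6 := by norm_num
  linarith

lemma xpos (h : W B t ε K F) (k : Ok B t ε K) : ∀ s ∈ Ico 0 F.c, 15 / 10 ^ 5 ≤ F.x s := by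
  intro s hs
  have h1 := h.Atlow k s hs
  have hy := h.hy s hs
  have hy15 := h.y15 k s hs
  have hx := h.hx s hs
  have h2 := arctan_le (u := F.x s / F.y s) (by positivity)
  have h3 := k.C1
  have h4 := (h.hφ s hs).le
  have h5 := h.ψmax k s hs
  have h6 := h.κmax k s hs
  have h7 := h.yX k s hs
  have ht := h.bs.t0
  have he := h.bs.e0
  have hX := k.X0
  have hpl := k.Pl0
  have hR20 : 0 < K.R2 := by linarith [k.R20]
  have hB : Real.arctan B = Real.pi / 2 - Real.arctan t := by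
    rw [B_inv h.bs, Real.arctan_inv_of_pos ht]
  have h8 := arctan_le ht.le
  have h9 : ε * F.ψ s ≤ ε * (Real.log (B * K.X) + (t + ε) * K.PH + 1 / 10 ^ 9) := by gcongr
  have h10 : t * (K.a2 - K.pa) / K.R2 * (F.y s - t + F.κ s + ε * K.X * F.φ s) ≤
      t * (K.a2 - K.pa) / K.R2 * (K.X * (1 + 1 / 32) - t + 5 / 10 ^ 6 + ε * K.X * K.PH) := by
    apply mul_le_mul_of_nonneg_left _ (by positivity)
    have : ε * K.X * F.φ s ≤ ε * K.X * K.PH := by gcongr
    linarith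
  have h11 : (1 / 10 ^ 7 : ℝ) * s ≤ 1 / 10 ^ 6 := by
    calc (1 / 10 ^ 7 : ℝ) * s ≤ 1 / 10 ^ 7 * (17 / 5) := by
          gcongr
          exact hs.2.le.trans h.hc'
      _ ≤ _ := by norm_num
  have h12 : 1 / 1000 ≤ F.x s / F.y s := by linarith
  rw [le_div_iff₀ hy] at h12
  have : (15 / 10 ^ 5 : ℝ) = 1 / 1000 * (15 / 100) := by norm_num
  rw [this]
  linarith

lemma cI0 (h : W B t ε K F) : F.c ∈ Icc 0 F.c := ⟨h.hc.le, le_rfl⟩

set_option maxHeartbeats 4000000 in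
/-- **The end of a window.** -/
theorem core (h : W B t ε K F) (k : Ok B t ε K) :
    0 < F.x F.c ∧ F.x F.c < 2 ∧ 0 < F.y F.c ∧ F.y F.c < 2 ∧ F.φ F.c < K.PH ∧
    |F.w F.c| ≤ 34 / 100 * ε ∧ |F.p F.c| < K.Pw ∧ F.c < 17 / 5 ∧ -(t * F.y F.c) < F.z F.c ∧
    (F.z F.c = t * F.y F.c → 3 / 4 ≤ F.y F.c ∧ F.x F.c ≤ 3 / 5 * F.y F.c ∧
      |F.p F.c| ≤ 18 / 25 * F.y F.c ∧ -ε ^ 2 * F.y F.c ≤ F.w F.c ∧
      F.w F.c ≤ 33 / 20 * (ε * t) * F.y F.c) := by
  have hc := h.hc
  have ht := h.bs.t0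
  have htl := h.bs.tl
  have he := h.bs.e0
  have heu := h.bs.eu
  have hB0 := h.bs.B0
  have hX0 := k.X0
  have hX2 := k.X2
  have hR20 : 0 < K.R2 := by linarith [k.R20]
  have hP0 := h.P0 k
  have cc : ∀ a : ℝ, ContinuousOn (fun _ : ℝ => a) (Icc 0 F.c) := fun a => continuousOn_const
  have e1 : 15 / 10 ^ 5 ≤ F.x F.c := cl hc (cc _) h.cx (h.xpos k)
  have e2 : F.x F.c ≤ K.X := cl hc h.cx (cc _) (h.xX k)
  have e3 : 15 / 100 ≤ F.y F.c := cl hc (cc _) h.cy (h.y15 k)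
  have e4 : F.y F.c ≤ K.X := cl hc h.cy (cc _) (h.yX k)
  have hx0 : 0 < F.x F.c := lt_of_lt_of_le (by norm_num) e1
  have hy0 : 0 < F.y F.c := by linarith
  have e5 : ε * K.Jlow * Real.exp (B * F.φ F.c) ≤ K.X := by
    refine cl (f := fun s => ε * K.Jlow * Real.exp (B * F.φ s)) hc ?_ (cc _) (h.C2 k)
    exact continuousOn_const.mul (ContinuousOn.rexp (continuousOn_const.mul h.cφ))
  have e6 : F.φ F.c ≤ K.PH := cl hc h.cφ (cc _) (fun s hs => (h.hφ s hs).le)
  have e7 : F.φ F.c < K.PH := by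
    rcases e6.eq_or_lt with h1 | h1
    · rw [h1] at e5
      exact absurd k.C2 (not_lt.2 e5)
    · exact h1
  have e8 : |F.w F.c| ≤ 34 / 100 * ε := cl (f := fun s => |F.w s|) hc h.cw.abs (cc _) (h.w34 k)
  have e9 : F.p F.c ≤ K.pb + K.a1 := cl hc h.cp (cc _) (h.pP k)
  have e10 : -(K.a2 - K.pa) ≤ F.p F.c := cl hc (cc _) h.cp (h.pl k)
  have e11 : |F.p F.c| < K.Pw := by
    rw [abs_lt]
    constructor
    · linarith [k.Pl2]
    · linarith [k.Pl]
  have e12 := cl (f := fun s => (K.r2 - t * (K.pb + K.a1) - 13 / 10 ^ 4) * s) hc (by fun_prop)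
    (cc _) (h.Tle k)
  have e13 : F.c < 17 / 5 := by
    have := lt_of_le_of_lt e12 k.T
    exact lt_of_mul_lt_mul_left this k.T0.le
  have e14 : -ε ^ 2 ≤ F.z F.c := cl hc (cc _) h.cz (h.zlow k)
  have e15 : -(t * F.y F.c) < F.z F.c := by
    have a1 : (176776 / 1000000) * (15 / 100) ≤ t * F.y F.c := by gcongr
    have a2 : ε ^ 2 ≤ (4762 / 10000000) ^ 2 := by gcongr
    norm_num at a1 a2
    linarith
  refine ⟨hx0, by linarith, hy0, by linarith, e7, e8, e11, e13, e15, fun hz => ?_⟩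
  -- the angle at the end
  have e16 : F.z F.c ≤ K.Jup * ε * t * Real.exp (B * F.φ F.c) := by
    refine cl (g := fun s => K.Jup * ε * t * Real.exp (B * F.φ s)) hc h.cz ?_ (h.zup k)
    exact continuousOn_const.mul (ContinuousOn.rexp (continuousOn_const.mul h.cφ))
  have hJ := k.J1 h.bs
  have hJε : 0 < K.Jup * ε := by positivity
  have e17 : F.y F.c ≤ K.Jup * ε * Real.exp (B * F.φ F.c) := by
    rw [hz] at e16
    have : t * F.y F.c ≤ t * (K.Jup * ε * Real.exp (B * F.φ F.c)) := by linarith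
    exact le_of_mul_le_mul_left this ht
  have e18 : Real.log (F.y F.c) ≤ Real.log (K.Jup * ε) + B * F.φ F.c := by
    have := Real.log_le_log hy0 e17
    rwa [Real.log_mul hJε.ne' (Real.exp_pos _).ne', Real.log_exp] at this
  have e19 : t * (Real.log (F.y F.c) - Real.log (K.Jup * ε)) ≤ F.φ F.c := by
    have : t * (Real.log (F.y F.c) - Real.log (K.Jup * ε)) ≤ t * (B * F.φ F.c) := by
      apply mul_le_mul_of_nonneg_left _ ht.le
      linarith
    rwa [← mul_assoc, h.bs.tB, one_mul] at this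
  have e20 : F.κ F.c ≤ F.y F.c / 32 + 5 / 10 ^ 6 :=
    cl (g := fun s => F.y s / 32 + 5 / 10 ^ 6) hc h.cκ
      ((h.cy.div_const 32).add continuousOn_const) (h.κmax k)
  have e21 : F.x F.c ^ 2 + F.y F.c ^ 2 ≤ K.X ^ 2 :=
    cl (f := fun s => F.x s ^ 2 + F.y s ^ 2) hc ((h.cx.pow 2).add (h.cy.pow 2)) (cc _) (h.r2X k)
  have e22 : K.R2 ≤ F.x F.c ^ 2 + F.y F.c ^ 2 :=
    cl (g := fun s => F.x s ^ 2 + F.y s ^ 2) hc (cc _) ((h.cx.pow 2).add (h.cy.pow 2)) (h.r2l k)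
  have e23 : F.x F.c ≤ B * F.y F.c :=
    cl (g := fun s => B * F.y s) hc h.cx (continuousOn_const.mul h.cy) (h.xBy k)
  have hyne : ∀ s ∈ Icc 0 F.c, F.y s ≠ 0 := by
    intro s hs
    rcases hs.2.eq_or_lt with h1 | h1
    · rw [h1]; exact hy0.ne'
    · exact (h.hy s ⟨hs.1, h1⟩).ne'
  have e24 : Real.arctan (F.x F.c / F.y F.c) ≤ Real.arctan B - F.φ F.c + t * (K.pb + K.a1) / K.R2 *
      (F.y F.c - t + F.κ F.c + ε * K.X * F.φ F.c) + K.X / K.R2 * F.κ F.c + 13 / 10 ^ 5 * F.c := by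
    refine cl (f := fun s => Real.arctan (F.x s / F.y s)) (g := fun s => Real.arctan B - F.φ s +
      t * (K.pb + K.a1) / K.R2 * (F.y s - t + F.κ s + ε * K.X * F.φ s) + K.X / K.R2 * F.κ s +
      13 / 10 ^ 5 * s) hc ?_ ?_ (h.Atup k)
    · exact Real.continuous_arctan.comp_continuousOn (h.cx.div h.cy hyne)
    · have := h.cφ
      have := h.cy
      have := h.cκ
      fun_prop
  have e25 : F.x F.c ≤ 3 / 5 * F.y F.c := by
    by_contra hcon
    push Not at hcon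
    set u := F.x F.c / F.y F.c with hu
    have hu1 : 3 / 5 ≤ u := by
      rw [hu, le_div_iff₀ hy0]
      exact hcon.le
    have hxu : F.x F.c = u * F.y F.c := by rw [hu]; field_simp
    have hu2 : t * u ≤ 1 := by
      have : t * F.x F.c ≤ F.y F.c := by
        calc t * F.x F.c ≤ t * (B * F.y F.c) := by gcongr
          _ = (t * B) * F.y F.c := by ring
          _ = _ := by rw [h.bs.tB, one_mul]
      rw [hu, mul_div_assoc', div_le_one hy0]
      exact this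
    have h1 := hmono (t := t) ht.le hu1 hu2
    have h2 := k.fin
    have h3 : F.y F.c ≤ K.ycap := by
      apply le_of_sq_le_sq _ k.ycap0
      have := k.ycap
      have : (3 / 5 * F.y F.c) ^ 2 ≤ F.x F.c ^ 2 := pow_le_pow_left₀ (by positivity) hcon.le 2
      nlinarith
    have h4 : Real.log K.r2 ≤ Real.log (F.y F.c) + 1 / 2 * Real.log (1 + u ^ 2) := by
      have hr20 : 0 < K.r2 := by linarith [k.r20]
      have a1 : K.r2 ^ 2 ≤ F.y F.c ^ 2 * (1 + u ^ 2) := by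
        have := k.r2
        have e : F.y F.c ^ 2 * (1 + u ^ 2) = F.x F.c ^ 2 + F.y F.c ^ 2 := by rw [hxu]; ring
        rw [e]
        linarith
      have a2 := Real.log_le_log (by positivity) a1
      rw [Real.log_mul (by positivity) (by positivity), Real.log_pow, Real.log_pow] at a2
      push_cast at a2
      linarith
    have h5 : Real.log (K.r2 / (K.Jup * ε)) = Real.log K.r2 - Real.log (K.Jup * ε) :=
      Real.log_div (by linarith [k.r20]) hJε.ne'
    rw [h5] at h2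
    have h6 : t * (K.pb + K.a1) / K.R2 * (F.y F.c - t + F.κ F.c + ε * K.X * F.φ F.c) ≤
        t * (K.pb + K.a1) / K.R2 * (K.ycap * (1 + 1 / 32) - t + 5 / 10 ^ 6 + ε * K.X * K.PH) := by
      apply mul_le_mul_of_nonneg_left _ (by positivity)
      have : ε * K.X * F.φ F.c ≤ ε * K.X * K.PH := by gcongr
      linarith
    have h7 : K.X / K.R2 * F.κ F.c ≤ K.X / K.R2 * (K.ycap / 32 + 5 / 10 ^ 6) := by
      apply mul_le_mul_of_nonneg_left _ (by positivity)
      linarith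
    have h8 : (13 / 10 ^ 5 : ℝ) * F.c ≤ 5 / 10 ^ 4 := by
      calc (13 / 10 ^ 5 : ℝ) * F.c ≤ 13 / 10 ^ 5 * (17 / 5) := by
            gcongr
        _ ≤ _ := by norm_num
    have h9 : t * (Real.log K.r2 - Real.log (K.Jup * ε)) ≤
        t * (Real.log (F.y F.c) - Real.log (K.Jup * ε)) + t / 2 * Real.log (1 + u ^ 2) := by
      have := mul_le_mul_of_nonneg_left h4 ht.le
      linarith
    linarith
  have e26 : K.ys ≤ F.y F.c := by
    apply le_of_sq_le_sq _ hy0.le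
    have := k.ys
    have : F.x F.c ^ 2 ≤ (3 / 5 * F.y F.c) ^ 2 := pow_le_pow_left₀ hx0.le e25 2
    nlinarith
  have e27 : 3 / 4 ≤ F.y F.c := k.ys0.trans e26
  have hys : 0 < K.ys := by linarith [k.ys0]
  have e28 : F.p F.c ≤ 18 / 25 * F.y F.c := by
    have h1 := cl (f := F.p) (g := fun s => K.pb + (K.kq + 7 / 10 ^ 4 + t * (45 / 100) ^ 2) * s -
      2 * t * (45 / 100) * Real.log (B * F.y s)) hc h.cp
      ((ContinuousOn.sub (by fun_prop) (continuousOn_const.mul ((continuousOn_const.mul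
      h.cy).log (fun s hs => mul_ne_zero hB0.ne' (hyne s hs)))))) (h.pend k)
    have h2 := k.q1
    have h3 : (K.kq + 7 / 10 ^ 4 + t * (45 / 100) ^ 2) * F.c ≤
        (K.kq + 7 / 10 ^ 4 + t * (45 / 100) ^ 2) * (17 / 5) := by
      apply mul_le_mul_of_nonneg_left h.hc'
      have := k.kq0
      positivity
    have h4 : Real.log (B * K.ys) ≤ Real.log (B * F.y F.c) := by
      apply Real.log_le_log (by positivity)
      gcongr
    have h5 : 2 * t * (45 / 100) * Real.log (B * K.ys) ≤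
        2 * t * (45 / 100) * Real.log (B * F.y F.c) := by gcongr
    linarith
  have e29 : -(18 / 25 * F.y F.c) ≤ F.p F.c := by
    have := k.q2
    linarith
  have e30 := cl (f := F.w) (g := fun s => 31 / 20 * (ε * t) * F.y s + K.om * ε ^ 2) hc h.cw
    ((continuousOn_const.mul h.cy).add continuousOn_const) (h.wup k)
  have e31 : -(7 / 10) * ε ^ 2 ≤ F.w F.c := cl hc (cc _) h.cw h.wlow
  refine ⟨e27, e25, abs_le.2 ⟨e29, e28⟩, ?_, ?_⟩
  · nlinarith [sq_nonneg ε]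
  · have h1 := k.om2
    have h2 : K.om * ε ^ 2 ≤ (33 / 20 - 31 / 20) * (ε * t) * F.y F.c := by
      calc K.om * ε ^ 2 = (K.om * ε) * ε := by ring
        _ ≤ ((33 / 20 - 31 / 20) * t * (3 / 4)) * ε := by gcongr
        _ = (33 / 20 - 31 / 20) * (ε * t) * (3 / 4) := by ring
        _ ≤ _ := by
          apply mul_le_mul_of_nonneg_left e27
          positivity
    linarith

end W

end Pool.Agent.H42.Two
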