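import Pool.Agent.H42.Two.Base

/-!
First estimates inside a window.
-/

open Set Filter Topology

namespace Pool.Agent.H42.Two

open Pool.Agent.H42.Mix (RD mono_of_rd lip_of_rd)

variable {B t ε : ℝ} {K : Cs} {F : Fn}

namespace W

lemma ico (_ : W B t ε K F) {s : ℝ} (hs : s ∈ Ico 0 F.c) : s ∈ Icc 0 F.c := ⟨hs.1, hs.2.le⟩

/-- crude pointwise bounds -/
lemma zb (h : W B t ε K F) : ∀ s ∈ Ico 0 F.c, |F.z s| ≤ 36 / 100 := by
  intro s hs
  have h1 := (h.hz s hs).le
  have h2 := (h.hy2 s hs).le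
  have h3 := h.bs.tu
  have h4 := h.bs.t0
  have h5 : t * F.y s ≤ (176777 / 1000000) * 2 := mul_le_mul h3 h2 (h.hy s hs).le (by norm_num)
  linarith

lemma wb' (h : W B t ε K F) : ∀ s ∈ Ico 0 F.c, |F.w s| ≤ 2381 / 10000000 := by
  intro s hs
  have h1 := (h.hw s hs).le
  have h2 := h.bs.eu
  linarith

lemma zw (h : W B t ε K F) : ∀ s ∈ Ico 0 F.c, |ε * F.z s + F.w s| ≤ 86 / 100 * ε := by
  intro s hs
  have h1 := (h.hw s hs).le
  have h2 := h.zb s hs
  have h3 := h.bs.e0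
  refine (abs_add_le _ _).trans ?_
  rw [abs_mul, abs_of_pos h3]
  have : ε * |F.z s| ≤ ε * (36 / 100) := mul_le_mul_of_nonneg_left h2 h3.le
  linarith

lemma zww (h : W B t ε K F) : ∀ s ∈ Ico 0 F.c,
    |32 * F.w s * (ε * F.z s + F.w s)| ≤ 14 * ε ^ 2 := by
  intro s hs
  have h1 := (h.hw s hs).le
  have h2 := h.zw s hs
  have h3 := h.bs.e0
  rw [abs_mul, abs_mul]
  have : |(32 : ℝ)| = 32 := by norm_num
  rw [this]
  calc 32 * |F.w s| * |ε * F.z s + F.w s| ≤ 32 * (ε / 2) * (86 / 100 * ε) := by gcongr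
    _ ≤ 14 * ε ^ 2 := by nlinarith [sq_nonneg ε]

/-- the energy of the four leading modes -/
lemma energy (h : W B t ε K F) : ∀ s ∈ Ico 0 F.c,
    |(F.p s ^ 2 + F.x s ^ 2 + F.y s ^ 2 + F.z s ^ 2) -
      (F.p0 ^ 2 + 1 + t ^ 2 + F.z 0 ^ 2)| ≤ (2 * K.Pw * K.kq + 1 / 10 ^ 5) * s := by
  intro s hs
  have e0 : F.p 0 ^ 2 + F.x 0 ^ 2 + F.y 0 ^ 2 + F.z 0 ^ 2 = F.p0 ^ 2 + 1 + t ^ 2 + F.z 0 ^ 2 := by
    rw [h.p00, h.x0, h.y0]; ring
  rw [← e0]
  have h1 := lip_of_rd (f := fun s => F.p s ^ 2 + F.x s ^ 2 + F.y s ^ 2 + F.z s ^ 2)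
    (f' := fun s => 2 * (F.p s * F.ep s) - 2 * (F.m0 * F.x s ^ 2) - 2 * (F.m1 * F.y s ^ 2)
      - 2 * (F.m2 * F.z s ^ 2) - 2 * (F.z s * (32 * F.w s * (ε * F.z s + F.w s))))
    (a := 0) (b := F.c) (c := 2 * K.Pw * K.kq + 1 / 10 ^ 5)
    ((((h.cp.pow 2).add (h.cx.pow 2)).add (h.cy.pow 2)).add (h.cz.pow 2))
    (fun r hr => by
      have := ((((h.dp r hr).fun_pow 2).fun_add ((h.dx r hr).fun_pow 2)).fun_add
        ((h.dy r hr).fun_pow 2)).fun_add ((h.dz r hr).fun_pow 2)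
      refine this.congr_deriv ?_
      push_cast
      ring)
    (fun r hr => by
      have a1 : |F.p r * F.ep r| ≤ K.Pw * K.kq := by
        rw [abs_mul]
        exact mul_le_mul (h.hp r hr).le (h.hep r hr) (abs_nonneg _)
          ((abs_nonneg _).trans (h.hp r hr).le)
      have a2 : |F.z r * (32 * F.w r * (ε * F.z r + F.w r))| ≤ 36 / 100 * (14 * ε ^ 2) := by
        rw [abs_mul]
        exact mul_le_mul (h.zb r hr) (h.zww r hr) (abs_nonneg _) (by norm_num)
      have a3 : ε ^ 2 ≤ 1 / 10 ^ 6 / 4 := by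
        have := h.bs.eu
        have := h.bs.e0
        nlinarith
      have hx := h.hx r hr
      have hx2 := h.hx2 r hr
      have hy := h.hy r hr
      have hy2 := h.hy2 r hr
      have hzb := h.zb r hr
      have b1 : F.x r ^ 2 ≤ 4 := by nlinarith
      have b2 : F.y r ^ 2 ≤ 4 := by nlinarith
      have b3 : F.z r ^ 2 ≤ 1 := by
        rw [← sq_abs]
        have := abs_nonneg (F.z r)
        nlinarith
      have c1 : 0 ≤ F.m0 * F.x r ^ 2 := mul_nonneg h.m0n (sq_nonneg _)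
      have c2 : 0 ≤ F.m1 * F.y r ^ 2 := mul_nonneg h.m1n (sq_nonneg _)
      have c3 : 0 ≤ F.m2 * F.z r ^ 2 := mul_nonneg h.m2n (sq_nonneg _)
      have d1 : F.m0 * F.x r ^ 2 ≤ 1 / 10 ^ 12 * 4 :=
        mul_le_mul h.m0s b1 (sq_nonneg _) (by norm_num)
      have d2 : F.m1 * F.y r ^ 2 ≤ 1 / 10 ^ 12 * 4 :=
        mul_le_mul h.m1s b2 (sq_nonneg _) (by norm_num)
      have d3 : F.m2 * F.z r ^ 2 ≤ 1 / 10 ^ 12 * 1 :=
        mul_le_mul h.m2s b3 (sq_nonneg _) (by norm_num)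
      have a1' := abs_le.1 a1
      have a2' := abs_le.1 a2
      rw [abs_le]
      constructor <;> linarith [a1'.1, a1'.2, a2'.1, a2'.2]) s (h.ico hs)
  simpa using h1

lemma energy' (h : W B t ε K F) (k : Ok B t ε K) : ∀ s ∈ Ico 0 F.c,
    |(F.p s ^ 2 + F.x s ^ 2 + F.y s ^ 2 + F.z s ^ 2) -
      (F.p0 ^ 2 + 1 + t ^ 2 + F.z 0 ^ 2)| ≤ K.g := by
  intro s hs
  refine (h.energy s hs).trans (le_trans ?_ k.g)
  have h1 : s ≤ 17 / 5 := hs.2.le.trans h.hc'
  have h2 : 0 ≤ 2 * K.Pw * K.kq + 1 / 10 ^ 5 := by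
    have := k.Pw0
    have := k.kq0
    positivity
  rw [mul_comm]
  gcongr

lemma z02 (h : W B t ε K F) : F.z 0 ^ 2 ≤ 1 / 10 ^ 6 := by
  have h1 := h.z0l
  have h2 := h.z0u
  have h3 := h.bs.eu
  have h4 := h.bs.e0
  have h5 := h.bs.tu
  have h6 : ε * t ≤ (4762 / 10000000) * (176777 / 1000000) :=
    mul_le_mul h3 h5 h.bs.t0.le (by norm_num)
  have h7 : |F.z 0| ≤ 1 / 1000 := by
    rw [abs_le]
    constructor
    · nlinarith
    · linarith
  rw [← sq_abs]
  calc |F.z 0| ^ 2 ≤ (1 / 1000) ^ 2 := pow_le_pow_left₀ (abs_nonneg _) h7 2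
    _ = 1 / 10 ^ 6 := by norm_num

lemma r2X (h : W B t ε K F) (k : Ok B t ε K) : ∀ s ∈ Ico 0 F.c,
    F.x s ^ 2 + F.y s ^ 2 ≤ K.X ^ 2 := by
  intro s hs
  have h1 := (abs_le.1 (h.energy' k s hs)).2
  have h2 := h.z02
  have h3 := k.X
  have h4 := h.bs.t2
  have h5 : F.p0 ^ 2 ≤ K.pb ^ 2 := pow_le_pow_left₀ (k.pa0.trans h.pa) h.pb 2
  nlinarith [sq_nonneg (F.p s), sq_nonneg (F.z s)]

lemma xX (h : W B t ε K F) (k : Ok B t ε K) : ∀ s ∈ Ico 0 F.c, F.x s ≤ K.X := by
  intro s hs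
  have h1 := h.r2X k s hs
  apply le_of_sq_le_sq _ (by linarith [k.X0])
  nlinarith [sq_nonneg (F.y s)]

lemma yX (h : W B t ε K F) (k : Ok B t ε K) : ∀ s ∈ Ico 0 F.c, F.y s ≤ K.X := by
  intro s hs
  have h1 := h.r2X k s hs
  apply le_of_sq_le_sq _ (by linarith [k.X0])
  nlinarith [sq_nonneg (F.x s)]

/-- upper bound of `p` -/
lemma pup (h : W B t ε K F) (k : Ok B t ε K) : ∀ s ∈ Ico 0 F.c, F.p s ≤ F.p0 + K.a1 := by
  have h1 := mono' (f := fun s => (K.kq + t * ε * K.X * K.Pw) * s - F.p s)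
    (f' := fun s => (K.kq + t * ε * K.X * K.Pw) - (F.ep s - t * F.x s * (ε * F.p s + F.x s)))
    (a := 0) (c := F.c)
    (ContinuousOn.sub (by fun_prop) (h.cp.mono Ico_subset_Icc_self))
    (fun r hr => by
      have := ((hasDerivAt_id' r).const_mul
        (K.kq + t * ε * K.X * K.Pw)).hasDerivWithinAt.fun_sub (h.dp r hr)
      simpa using this)
    (fun r hr => by
      have a1 := (abs_le.1 (h.hep r hr)).2
      have a2 := (abs_le.1 (h.hp r hr).le).1
      have hx := h.hx r hr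
      have hxX := h.xX k r hr
      have ht := h.bs.t0
      have he := h.bs.e0
      have b1 : 0 ≤ t * F.x r * F.x r := by positivity
      have hP : 0 ≤ K.Pw := by linarith [k.Pw0]
      have b2 : t * ε * F.x r * (-F.p r) ≤ t * ε * K.X * K.Pw := by
        calc t * ε * F.x r * (-F.p r) ≤ t * ε * F.x r * K.Pw := by
              apply mul_le_mul_of_nonneg_left (by linarith) (by positivity)
          _ ≤ _ := by gcongr
      nlinarith)
  intro s hs
  have h2 := h1 s hs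
  have h3 := k.a1
  have h4 : s ≤ 17 / 5 := hs.2.le.trans h.hc'
  have h5 : (K.kq + t * ε * K.X * K.Pw) * s ≤ (K.kq + t * ε * K.X * K.Pw) * (17 / 5) := by
    apply mul_le_mul_of_nonneg_left h4
    have := h.bs.t0
    have := h.bs.e0
    have := k.kq0
    have := k.X0
    have := k.Pw0
    positivity
  simp only [mul_zero, h.p00] at h2
  linarith

/-- `B |z| < y` -/
lemma Bz (h : W B t ε K F) : ∀ s ∈ Ico 0 F.c, B * |F.z s| ≤ F.y s := by
  intro s hs
  have h1 := (h.hz s hs).le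
  calc B * |F.z s| ≤ B * (t * F.y s) := mul_le_mul_of_nonneg_left h1 h.bs.B0.le
    _ = (t * B) * F.y s := by ring
    _ = F.y s := by rw [h.bs.tB, one_mul]

/-- the logarithm of `y` controls the integral of `x` -/
lemma ψup (h : W B t ε K F) : ∀ s ∈ Ico 0 F.c,
    F.ψ s ≤ Real.log (B * F.y s) + (t + ε) * F.φ s + 1 / 10 ^ 12 * s := by
  have h1 := mono' (f := fun s => Real.log (F.y s) + (t + ε) * F.φ s + 1 / 10 ^ 12 * s - F.ψ s)
    (f' := fun s => (F.x s * (ε * F.x s + F.y s) - F.m1 * F.y s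
      - B * F.z s * (ε * F.y s + F.z s)) / F.y s + (t + ε) * F.y s + 1 / 10 ^ 12 - F.x s)
    (a := 0) (c := F.c)
    ((((h.cy.mono Ico_subset_Icc_self).log (fun r hr => (h.hy r hr).ne')).add
      (continuousOn_const.mul (h.cφ.mono Ico_subset_Icc_self))).add (by fun_prop) |>.sub
      (h.cψ.mono Ico_subset_Icc_self))
    (fun r hr => by
      have := ((((h.dy r hr).log (h.hy r hr).ne').fun_add
        ((h.dφ r hr).const_mul (t + ε))).fun_add
        ((hasDerivAt_id' r).const_mul (1 / 10 ^ 12 : ℝ)).hasDerivWithinAt).fun_sub (h.dψ r hr)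
      refine this.congr_deriv ?_
      ring)
    (fun r hr => by
      have hx := h.hx r hr
      have hy := h.hy r hr
      have he := h.bs.e0
      have ht := h.bs.t0
      have hB := h.bs.B0
      have hBz := h.Bz r hr
      have hz := (h.hz r hr).le
      have h2 : B * F.z r * (ε * F.y r + F.z r) ≤ F.y r * ((t + ε) * F.y r) := by
        calc B * F.z r * (ε * F.y r + F.z r) ≤ |B * F.z r * (ε * F.y r + F.z r)| := le_abs_self _
          _ = (B * |F.z r|) * |ε * F.y r + F.z r| := by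
            rw [abs_mul, abs_mul, abs_of_pos hB]
          _ ≤ F.y r * ((t + ε) * F.y r) := by
            apply mul_le_mul hBz _ (abs_nonneg _) hy.le
            refine (abs_add_le _ _).trans ?_
            rw [abs_mul, abs_of_pos he, abs_of_pos hy]
            linarith
      have e : (F.x r * (ε * F.x r + F.y r) - F.m1 * F.y r
          - B * F.z r * (ε * F.y r + F.z r)) / F.y r + (t + ε) * F.y r + 1 / 10 ^ 12 - F.x r =
          (ε * F.x r ^ 2 + (1 / 10 ^ 12 - F.m1) * F.y r + (F.y r * ((t + ε) * F.y r) -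
          B * F.z r * (ε * F.y r + F.z r))) / F.y r := by
        field_simp
        ring
      rw [e]
      apply div_nonneg _ hy.le
      have := mul_nonneg (sub_nonneg.2 h.m1s) hy.le
      have : 0 ≤ ε * F.x r ^ 2 := by positivity
      linarith)
  intro s hs
  have h2 := h1 s hs
  simp only [h.y0, h.φ0, h.ψ0, mul_zero, add_zero, sub_zero] at h2
  have h3 : Real.log (B * F.y s) = Real.log B + Real.log (F.y s) :=
    Real.log_mul h.bs.B0.ne' (h.hy s hs).ne'
  have h4 : Real.log t + Real.log B = 0 := by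
    rw [← Real.log_mul h.bs.t0.ne' h.bs.B0.ne', h.bs.tB, Real.log_one]
  linarith

lemma φn (h : W B t ε K F) : ∀ s ∈ Ico 0 F.c, 0 ≤ F.φ s := by
  intro s hs
  have := mono' (f := F.φ) (f' := F.y) (a := 0) (c := F.c) (h.cφ.mono Ico_subset_Icc_self)
    h.dφ (fun r hr => (h.hy r hr).le) s hs
  rwa [h.φ0] at this

/-- lower bound of `p` -/
lemma plow (h : W B t ε K F) (k : Ok B t ε K) : ∀ s ∈ Ico 0 F.c, F.p0 - K.a2 ≤ F.p s := by
  have h1 := mono' (f := fun s => F.p s + (K.kq + t * ε * K.X * K.Pw) * s + t * K.X * F.ψ s)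
    (f' := fun s => (F.ep s - t * F.x s * (ε * F.p s + F.x s)) + (K.kq + t * ε * K.X * K.Pw)
      + t * K.X * F.x s)
    (a := 0) (c := F.c)
    (((h.cp.mono Ico_subset_Icc_self).add (by fun_prop)).add
      (continuousOn_const.mul (h.cψ.mono Ico_subset_Icc_self)))
    (fun r hr => by
      have := ((h.dp r hr).fun_add ((hasDerivAt_id' r).const_mul
        (K.kq + t * ε * K.X * K.Pw)).hasDerivWithinAt).fun_add ((h.dψ r hr).const_mul (t * K.X))
      refine this.congr_deriv ?_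
      ring)
    (fun r hr => by
      have a1 := (abs_le.1 (h.hep r hr)).1
      have a2 := (abs_le.1 (h.hp r hr).le).2
      have hx := h.hx r hr
      have hxX := h.xX k r hr
      have ht := h.bs.t0
      have he := h.bs.e0
      have hP : 0 ≤ K.Pw := by linarith [k.Pw0]
      have b1 : t * F.x r * F.x r ≤ t * K.X * F.x r := by gcongr
      have b2 : t * ε * F.x r * F.p r ≤ t * ε * K.X * K.Pw := by
        calc t * ε * F.x r * F.p r ≤ t * ε * F.x r * K.Pw := by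
              apply mul_le_mul_of_nonneg_left (by linarith) (by positivity)
          _ ≤ _ := by gcongr
      nlinarith)
  intro s hs
  have h2 := h1 s hs
  have h3 := k.a1
  have h4 : s ≤ 17 / 5 := hs.2.le.trans h.hc'
  have ht := h.bs.t0
  have he := h.bs.e0
  have hkq := k.kq0
  have hX0 := k.X0
  have hPw := k.Pw0
  have h5 : (K.kq + t * ε * K.X * K.Pw) * s ≤ (K.kq + t * ε * K.X * K.Pw) * (17 / 5) := by
    apply mul_le_mul_of_nonneg_left h4
    positivity
  have h6 := h.ψup s hs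
  have h7 : Real.log (B * F.y s) ≤ Real.log (B * K.X) := by
    apply Real.log_le_log (mul_pos h.bs.B0 (h.hy s hs))
    exact mul_le_mul_of_nonneg_left (h.yX k s hs) h.bs.B0.le
  have h8 : (t + ε) * F.φ s ≤ (t + ε) * K.PH :=
    mul_le_mul_of_nonneg_left (h.hφ s hs).le (by positivity)
  have h9 : F.ψ s ≤ Real.log (B * K.X) + (t + ε) * K.PH + 1 / 10 ^ 9 := by
    have : (1 / 10 ^ 12 : ℝ) * s ≤ 1 / 10 ^ 9 := by
      calc (1 / 10 ^ 12 : ℝ) * s ≤ 1 / 10 ^ 12 * (17 / 5) := by gcongr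
        _ ≤ _ := by norm_num
    linarith
  have h10 : t * K.X * F.ψ s ≤
      t * K.X * (Real.log (B * K.X) + (t + ε) * K.PH + 1 / 10 ^ 9) := by gcongr
  have h11 := k.a2
  simp only [mul_zero, h.p00, h.ψ0, add_zero] at h2
  linarith

lemma pl (h : W B t ε K F) (k : Ok B t ε K) : ∀ s ∈ Ico 0 F.c, -(K.a2 - K.pa) ≤ F.p s := by
  intro s hs
  have h1 := h.plow k s hs
  have h2 := h.pa
  linarith

lemma pP (h : W B t ε K F) (k : Ok B t ε K) : ∀ s ∈ Ico 0 F.c, F.p s ≤ K.pb + K.a1 := by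
  intro s hs
  have h1 := h.pup k s hs
  have h2 := h.pb
  linarith

/-- lower bound of `x² + y²` -/
lemma r2l (h : W B t ε K F) (k : Ok B t ε K) : ∀ s ∈ Ico 0 F.c,
    K.R2 ≤ F.x s ^ 2 + F.y s ^ 2 := by
  intro s hs
  have h1 := (abs_le.1 (h.energy' k s hs)).1
  have h2 := h.pup k s hs
  have h3 := h.plow k s hs
  have h4 := h.pa
  have h5 := h.pb
  have h6 := k.pa0
  have h7 := k.R2
  have h8 := h.bs.t2
  have hy := h.hy s hs
  have hyX := h.yX k s hs
  have hz : F.z s ^ 2 ≤ K.X ^ 2 / 32 := by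
    have a1 := (h.hz s hs).le
    have a2 : F.z s ^ 2 ≤ (t * F.y s) ^ 2 := by
      rw [← sq_abs]
      exact pow_le_pow_left₀ (abs_nonneg _) a1 2
    have a3 : F.y s ^ 2 ≤ K.X ^ 2 := pow_le_pow_left₀ hy.le hyX 2
    rw [mul_pow, h8] at a2
    linarith
  have hp : F.p s ^ 2 ≤ F.p0 ^ 2 + K.m := by
    rcases le_total 0 (F.p s) with hc | hc
    · have b1 := k.m1
      have b2 : F.p s ^ 2 ≤ (F.p0 + K.a1) ^ 2 := pow_le_pow_left₀ hc h2 2
      have b3 : 0 ≤ K.a1 := by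
        refine le_trans ?_ k.a1
        have := h.bs.t0
        have := h.bs.e0
        have := k.kq0
        have := k.X0
        have := k.Pw0
        positivity
      have b4 : F.p0 * K.a1 ≤ K.pb * K.a1 := by gcongr
      nlinarith
    · have b1 := k.m2
      have b2 : F.p s ^ 2 ≤ (K.a2 - F.p0) ^ 2 := by
        rw [← neg_sq (F.p s)]
        exact pow_le_pow_left₀ (by linarith) (by linarith) 2
      have b3 : 0 ≤ K.a2 := by linarith [k.Pl0]
      have b4 : K.a2 * K.pa ≤ K.a2 * F.p0 := by gcongr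
      nlinarith
  have h9 := sq_nonneg (F.z 0)
  linarith

end W

end Pool.Agent.H42.Two
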