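import Pool.Agent.H42.Two.Est1

/-!
Barriers, growth of `y` and `z`.
-/

open Set Filter Topology

namespace Pool.Agent.H42.Two

open Pool.Agent.H42.Mix (RD mono_of_rd lip_of_rd)

variable {B t ε : ℝ} {K : Cs} {F : Fn}

namespace W

/-- `x ≤ B y` -/
lemma xBy (h : W B t ε K F) (k : Ok B t ε K) : ∀ s ∈ Ico 0 F.c, F.x s ≤ B * F.y s := by
  have h1 := barrier (f := fun s => B * F.y s - F.x s)
    (f' := fun s => B * (F.x s * (ε * F.x s + F.y s) - F.m1 * F.y s
      - B * F.z s * (ε * F.y s + F.z s)) - (t * F.p s * (ε * F.p s + F.x s) - F.m0 * F.x s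
      - F.y s * (ε * F.x s + F.y s))) (a := 0) (c := F.c)
    ((continuousOn_const.mul (h.cy.mono Ico_subset_Icc_self)).sub
      (h.cx.mono Ico_subset_Icc_self))
    (fun r hr => ((h.dy r hr).const_mul B).fun_sub (h.dx r hr))
    (by rw [h.x0, h.y0, mul_comm, h.bs.tB, sub_self])
    (fun r hr hr0 => by
      have hx0 := h.hx r hr
      have hy0 := h.hy r hr
      have hy2 := h.hy2 r hr
      have hx2 := h.hx2 r hr
      have hR := h.r2l k r hr
      have hR0 := k.R20
      have hB := h.bs.B0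
      have hB2 := h.bs.B2
      have hBu := h.bs.Bu
      have htB := h.bs.tB
      have ht := h.bs.t0
      have htu := h.bs.tu
      have he := h.bs.e0
      have heu := h.bs.eu
      have hp := (h.hp r hr).le
      have hPw := k.Pw1
      have hz := (h.hz r hr).le
      have hxe : F.x r = B * F.y r := by linarith
      have e1 : F.x r ^ 2 = 32 * F.y r ^ 2 := by rw [hxe, mul_pow, hB2]
      have hy15 : 15 / 100 ≤ F.y r := by
        by_contra hc
        push Not at hc
        nlinarith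
      have e2 : B * (F.x r * F.y r) = 32 * F.y r ^ 2 := by
        rw [hxe]
        calc B * (B * F.y r * F.y r) = B ^ 2 * F.y r ^ 2 := by ring
          _ = _ := by rw [hB2]
      have e3 : t * F.p r * F.x r = F.p r * F.y r := by
        rw [hxe]
        calc t * F.p r * (B * F.y r) = (t * B) * (F.p r * F.y r) := by ring
          _ = _ := by rw [htB, one_mul]
      have b1 : F.p r * F.y r ≤ 7 / 10 * F.y r := by
        apply mul_le_mul_of_nonneg_right _ hy0.le
        linarith [(abs_le.1 hp).2]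
      have b2 : F.z r * (ε * F.y r + F.z r) ≤ (t * F.y r) * ((ε + t) * F.y r) := by
        calc F.z r * (ε * F.y r + F.z r) ≤ |F.z r * (ε * F.y r + F.z r)| := le_abs_self _
          _ = |F.z r| * |ε * F.y r + F.z r| := abs_mul _ _
          _ ≤ (t * F.y r) * ((ε + t) * F.y r) := by
            apply mul_le_mul hz _ (abs_nonneg _) (by positivity)
            refine (abs_add_le _ _).trans ?_
            rw [abs_mul, abs_of_pos he, abs_of_pos hy0]
            linarith
      have b3 : 32 * ((t * F.y r) * ((ε + t) * F.y r)) ≤ 1003 / 1000 * F.y r ^ 2 := by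
        have e5 : 32 * ((t * F.y r) * ((ε + t) * F.y r)) =
          (32 * t * ε + 32 * t ^ 2) * F.y r ^ 2 := by ring
        rw [e5, h.bs.t2]
        apply mul_le_mul_of_nonneg_right _ (sq_nonneg _)
        have : t * ε ≤ (176777 / 1000000) * (4762 / 10000000) :=
          mul_le_mul htu heu he.le (by norm_num)
        linarith
      have b4 : t * (ε * F.p r ^ 2) ≤ 1 / 10000 := by
        have b5 : F.p r ^ 2 ≤ (7 / 10) ^ 2 := by
          rw [← sq_abs]
          exact pow_le_pow_left₀ (abs_nonneg _) (hp.trans hPw) 2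
        calc t * (ε * F.p r ^ 2) ≤ (176777 / 1000000) * ((4762 / 10000000) * (7 / 10) ^ 2) := by
              gcongr
          _ ≤ _ := by norm_num
      have b6 : B * (F.m1 * F.y r) ≤ 1 / 10000 := by
        calc B * (F.m1 * F.y r) ≤ (565686 / 100000) * (1 / 10 ^ 12 * 2) := by
              have := h.m1s
              have := h.m1n
              gcongr
          _ ≤ _ := by norm_num
      have b7 : 0 ≤ F.m0 * F.x r := mul_nonneg h.m0n hx0.le
      have b8 : 0 ≤ B * (ε * F.x r ^ 2) := by positivity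
      have b9 : 0 ≤ ε * (F.x r * F.y r) := by positivity
      have e6 : B * (F.x r * (ε * F.x r + F.y r) - F.m1 * F.y r
          - B * F.z r * (ε * F.y r + F.z r)) - (t * F.p r * (ε * F.p r + F.x r) - F.m0 * F.x r
          - F.y r * (ε * F.x r + F.y r)) = B * (ε * F.x r ^ 2) + B * (F.x r * F.y r)
          - B * (F.m1 * F.y r) - B ^ 2 * (F.z r * (ε * F.y r + F.z r)) - t * (ε * F.p r ^ 2)
          - t * F.p r * F.x r + F.m0 * F.x r + ε * (F.x r * F.y r) + F.y r ^ 2 := by ring
      rw [e6, e2, e3, hB2]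
      nlinarith)
  intro s hs
  have := h1 s hs
  linarith

lemma ylow (h : W B t ε K F) (k : Ok B t ε K) : ∀ s ∈ Ico 0 F.c, K.ymin ≤ F.y s := by
  intro s hs
  have h1 := h.xBy k s hs
  have h2 := h.r2l k s hs
  have h3 := k.ymin
  have hx0 := h.hx s hs
  have hy0 := h.hy s hs
  have h4 : F.x s ^ 2 ≤ 32 * F.y s ^ 2 := by
    rw [← h.bs.B2, ← mul_pow]
    exact pow_le_pow_left₀ hx0.le h1 2
  apply le_of_sq_le_sq _ hy0.le
  linarith

lemma y15 (h : W B t ε K F) (k : Ok B t ε K) : ∀ s ∈ Ico 0 F.c, 15 / 100 ≤ F.y s :=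
  fun s hs => k.ymin0.trans (h.ylow k s hs)

/-- `z` does not become very negative -/
lemma zlow (h : W B t ε K F) (k : Ok B t ε K) : ∀ s ∈ Ico 0 F.c, -ε ^ 2 ≤ F.z s := by
  have h1 := barrier (f := fun s => F.z s + ε ^ 2)
    (f' := fun s => B * F.y s * (ε * F.y s + F.z s) - F.m2 * F.z s
      - 32 * F.w s * (ε * F.z s + F.w s)) (a := 0) (c := F.c)
    ((h.cz.mono Ico_subset_Icc_self).add continuousOn_const)
    (fun r hr => (h.dz r hr).add_const _)
    (by linarith [h.z0l])
    (fun r hr hr0 => by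
      have hy := h.y15 k r hr
      have he := h.bs.e0
      have heu := h.bs.eu
      have hBl := h.bs.Bl
      have hz : F.z r = -ε ^ 2 := by linarith
      have hE := (abs_le.1 (h.zww r hr)).2
      have b1 : 12 / 100 * ε ≤ B * F.y r * (ε * F.y r + F.z r) := by
        rw [hz]
        have e1 : B * F.y r * (ε * F.y r + -ε ^ 2) = B * F.y r * (F.y r - ε) * ε := by ring
        rw [e1]
        apply mul_le_mul_of_nonneg_right _ he.le
        calc (12 / 100 : ℝ) ≤ (565685 / 100000) * (15 / 100) * (145 / 1000) := by norm_num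
          _ ≤ B * F.y r * (F.y r - ε) := by
            gcongr
            linarith
      have b2 : F.m2 * F.z r ≤ 0 := by
        rw [hz]
        have : 0 ≤ F.m2 * ε ^ 2 := mul_nonneg h.m2n (sq_nonneg _)
        linarith
      have b3 : 14 * ε ^ 2 ≤ 1 / 100 * ε := by nlinarith
      linarith)
  intro s hs
  have := h1 s hs
  linarith

/-- `w` does not become very negative -/
lemma wlow (h : W B t ε K F) : ∀ s ∈ Ico 0 F.c, -(7 / 10) * ε ^ 2 ≤ F.w s := by
  have h1 := barrier (f := fun s => F.w s + ε ^ 2 * (66 / 100 + 1 / 100 * s))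
    (f' := fun s => 32 * F.z s * (ε * F.z s + F.w s) - F.ev s + ε ^ 2 * (1 / 100))
    (a := 0) (c := F.c)
    ((h.cw.mono Ico_subset_Icc_self).add (by fun_prop))
    (fun r hr => by
      have := (h.dw r hr).fun_add ((((hasDerivAt_id' r).const_mul (1 / 100 : ℝ)).const_add
        (66 / 100 : ℝ)).const_mul (ε ^ 2)).hasDerivWithinAt
      refine this.congr_deriv ?_
      ring)
    (by
      have := (abs_le.1 h.w0).1
      have : 0 ≤ ε ^ 2 := sq_nonneg _
      linarith)
    (fun r hr hr0 => by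
      have he := h.bs.e0
      have heu := h.bs.eu
      have hr1 : r ≤ 17 / 5 := hr.2.le.trans h.hc'
      have hr2 := hr.1
      set q := 66 / 100 + 1 / 100 * r with hq
      have hq1 : q ≤ 7 / 10 := by linarith
      have hq0 : 0 ≤ q := by linarith
      have hw : F.w r = -(ε ^ 2 * q) := by linarith
      have hev := (abs_le.1 (h.hev r hr)).2
      rw [hw]
      have e1 : 32 * F.z r * (ε * F.z r + -(ε ^ 2 * q)) =
        32 * ε * (F.z r - ε * q / 2) ^ 2 - 8 * ε * (ε * q) ^ 2 := by ring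
      have b1 : 8 * ε * (ε * q) ^ 2 ≤ 4 * ε ^ 3 := by
        have : q ^ 2 ≤ (7 / 10) ^ 2 := pow_le_pow_left₀ hq0 hq1 2
        have : 8 * ε * (ε * q) ^ 2 = 8 * ε ^ 3 * q ^ 2 := by ring
        rw [this]
        have : 0 < ε ^ 3 := by positivity
        nlinarith
      have b2 : 0 ≤ 32 * ε * (F.z r - ε * q / 2) ^ 2 := by positivity
      have b3 : 5 * ε ^ 3 < ε ^ 2 * (1 / 100) := by
        have : 0 < ε ^ 2 := by positivity
        nlinarith
      rw [e1]
      have : 0 < ε ^ 3 := by positivity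
      linarith)
  intro s hs
  have h2 := h1 s hs
  have h3 : s ≤ 17 / 5 := hs.2.le.trans h.hc'
  have h4 : 0 ≤ ε ^ 2 := sq_nonneg _
  nlinarith

/-- `z (ε y + z)` is almost nonnegative -/
lemma zz (h : W B t ε K F) (k : Ok B t ε K) : ∀ s ∈ Ico 0 F.c,
    -(1 / 10 ^ 9) ≤ F.z s * (ε * F.y s + F.z s) := by
  intro s hs
  have hz := h.zlow k s hs
  have hy := h.y15 k s hs
  have hy2 := h.hy2 s hs
  have he := h.bs.e0
  have heu := h.bs.eu
  rcases le_total 0 (F.z s) with hc | hc
  · have : 0 ≤ F.z s * (ε * F.y s + F.z s) := by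
      have : 0 < F.y s := by linarith
      positivity
    linarith
  · have b1 : 0 ≤ ε * F.y s + F.z s := by nlinarith
    have b2 : ε * F.y s + F.z s ≤ 2 * ε := by nlinarith
    have b3 : -ε ^ 2 * (2 * ε) ≤ F.z s * (ε * F.y s + F.z s) := by
      have : (-F.z s) * (ε * F.y s + F.z s) ≤ ε ^ 2 * (2 * ε) :=
        mul_le_mul (by linarith) b2 b1 (sq_nonneg _)
      linarith
    have b4 : ε ^ 2 * (2 * ε) ≤ 1 / 10 ^ 9 := by
      calc ε ^ 2 * (2 * ε) ≤ (4762 / 10000000) ^ 2 * (2 * (4762 / 10000000)) := by gcongr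
        _ ≤ _ := by norm_num
    linarith

/-- `w (ε z + w)` is almost nonnegative -/
lemma ww (h : W B t ε K F) (k : Ok B t ε K) : ∀ s ∈ Ico 0 F.c,
    -20 * ε ^ 3 ≤ 32 * F.w s * (ε * F.z s + F.w s) := by
  intro s hs
  have hw := h.wlow s hs
  have hz := h.zlow k s hs
  have hzw := h.zw s hs
  have he := h.bs.e0
  have heu := h.bs.eu
  have he3 : 0 < ε ^ 3 := by positivity
  rcases le_total 0 (F.w s) with hc | hc
  · rcases le_total 0 (ε * F.z s + F.w s) with hd | hd
    · have : 0 ≤ 32 * F.w s * (ε * F.z s + F.w s) := by positivity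
      linarith
    · have b1 : F.w s ≤ ε ^ 3 := by nlinarith
      have b2 : -(ε * F.z s + F.w s) ≤ ε ^ 3 := by nlinarith
      have b3 : F.w s * (-(ε * F.z s + F.w s)) ≤ ε ^ 3 * ε ^ 3 :=
        mul_le_mul b1 b2 (by linarith) he3.le
      have b4 : ε ^ 3 ≤ 1 / 100 := by
        calc ε ^ 3 ≤ (4762 / 10000000) ^ 3 := by gcongr
          _ ≤ _ := by norm_num
      nlinarith
  · have b1 : |F.w s| ≤ 7 / 10 * ε ^ 2 := by
      rw [abs_of_nonpos hc]; linarith
    have b2 : |32 * F.w s * (ε * F.z s + F.w s)| ≤ 20 * ε ^ 3 := by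
      rw [abs_mul, abs_mul]
      have : |(32 : ℝ)| = 32 := by norm_num
      rw [this]
      calc 32 * |F.w s| * |ε * F.z s + F.w s| ≤ 32 * (7 / 10 * ε ^ 2) * (86 / 100 * ε) := by
            gcongr
        _ ≤ 20 * ε ^ 3 := by nlinarith
    linarith [(abs_le.1 b2).1]

/-- upper bound of `y` in terms of the angle -/
lemma yup (h : W B t ε K F) (k : Ok B t ε K) : ∀ s ∈ Ico 0 F.c,
    F.y s ≤ t + K.X * F.φ s + K.dy := by
  have h1 := mono' (f := fun s => K.X * F.φ s + (ε * K.X ^ 2 + 1 / 10 ^ 8) * s - F.y s)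
    (f' := fun s => K.X * F.y s + (ε * K.X ^ 2 + 1 / 10 ^ 8) - (F.x s * (ε * F.x s + F.y s)
      - F.m1 * F.y s - B * F.z s * (ε * F.y s + F.z s)))
    (a := 0) (c := F.c)
    (((continuousOn_const.mul (h.cφ.mono Ico_subset_Icc_self)).add (by fun_prop)).sub
      (h.cy.mono Ico_subset_Icc_self))
    (fun r hr => by
      have := (((h.dφ r hr).const_mul K.X).fun_add ((hasDerivAt_id' r).const_mul
        (ε * K.X ^ 2 + 1 / 10 ^ 8)).hasDerivWithinAt).fun_sub (h.dy r hr)
      refine this.congr_deriv ?_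
      ring)
    (fun r hr => by
      have hx0 := h.hx r hr
      have hy0 := h.hy r hr
      have hxX := h.xX k r hr
      have he := h.bs.e0
      have hzz := h.zz k r hr
      have hBu := h.bs.Bu
      have hB0 := h.bs.B0
      have b1 : F.x r * F.y r ≤ K.X * F.y r := by gcongr
      have b2 : F.x r * (ε * F.x r) ≤ ε * K.X ^ 2 := by
        calc F.x r * (ε * F.x r) = ε * F.x r ^ 2 := by ring
          _ ≤ _ := by gcongr
      have b3 : -(1 / 10 ^ 8) ≤ B * F.z r * (ε * F.y r + F.z r) := by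
        have : B * (F.z r * (ε * F.y r + F.z r)) ≥ B * (-(1 / 10 ^ 9)) :=
          mul_le_mul_of_nonneg_left hzz hB0.le
        have e : B * F.z r * (ε * F.y r + F.z r) = B * (F.z r * (ε * F.y r + F.z r)) := by ring
        rw [e]
        linarith
      have b4 : 0 ≤ F.m1 * F.y r := mul_nonneg h.m1n hy0.le
      nlinarith)
  intro s hs
  have h2 := h1 s hs
  simp only [h.y0, h.φ0, mul_zero, add_zero, zero_sub] at h2
  have h3 := k.dy
  have h4 : s ≤ 17 / 5 := hs.2.le.trans h.hc'
  have h5 : (ε * K.X ^ 2 + 1 / 10 ^ 8) * s ≤ (ε * K.X ^ 2 + 1 / 10 ^ 8) * (17 / 5) := by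
    apply mul_le_mul_of_nonneg_left h4
    have := h.bs.e0
    positivity
  linarith

/-- lower bound of `x` in terms of the angle -/
lemma xlow' (h : W B t ε K F) (k : Ok B t ε K) : ∀ s ∈ Ico 0 F.c,
    1 - (t + K.dy + ε * K.X) * F.φ s - K.X * F.φ s ^ 2 / 2 - t * (K.a2 - K.pa) * F.ψ s
      - 1 / 10 ^ 11 * s ≤ F.x s := by
  have h1 := mono' (f := fun s => F.x s + (t + K.dy + ε * K.X) * F.φ s +
      K.X / 2 * F.φ s ^ 2 + t * (K.a2 - K.pa) * F.ψ s + 1 / 10 ^ 11 * s)
    (f' := fun s => (t * F.p s * (ε * F.p s + F.x s) - F.m0 * F.x s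
      - F.y s * (ε * F.x s + F.y s)) + (t + K.dy + ε * K.X) * F.y s + K.X * F.φ s * F.y s +
      t * (K.a2 - K.pa) * F.x s + 1 / 10 ^ 11)
    (a := 0) (c := F.c)
    (((((h.cx.mono Ico_subset_Icc_self).add (continuousOn_const.mul
      (h.cφ.mono Ico_subset_Icc_self))).add (continuousOn_const.mul
      ((h.cφ.mono Ico_subset_Icc_self).pow 2))).add (continuousOn_const.mul
      (h.cψ.mono Ico_subset_Icc_self))).add (by fun_prop))
    (fun r hr => by
      have := ((((h.dx r hr).fun_add ((h.dφ r hr).const_mul (t + K.dy + ε * K.X))).fun_add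
        (((h.dφ r hr).fun_pow 2).const_mul (K.X / 2))).fun_add
        ((h.dψ r hr).const_mul (t * (K.a2 - K.pa)))).fun_add
        ((hasDerivAt_id' r).const_mul (1 / 10 ^ 11 : ℝ)).hasDerivWithinAt
      refine this.congr_deriv ?_
      push_cast
      ring)
    (fun r hr => by
      have hx0 := h.hx r hr
      have hx2 := h.hx2 r hr
      have hy0 := h.hy r hr
      have hxX := h.xX k r hr
      have he := h.bs.e0
      have ht := h.bs.t0
      have hyu := h.yup k r hr
      have hpl := h.pl k r hr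
      have b1 : 0 ≤ t * (F.p r + (K.a2 - K.pa)) * F.x r :=
        mul_nonneg (mul_nonneg ht.le (by linarith)) hx0.le
      have b2 : 0 ≤ t * ε * F.p r ^ 2 := by positivity
      have b3 : 0 ≤ ε * (K.X - F.x r) * F.y r :=
        mul_nonneg (mul_nonneg he.le (by linarith)) hy0.le
      have b4 : 0 ≤ F.y r * (t + K.X * F.φ r + K.dy - F.y r) :=
        mul_nonneg hy0.le (by linarith)
      have b5 : F.m0 * F.x r ≤ 1 / 10 ^ 12 * 2 :=
        mul_le_mul h.m0s hx2.le hx0.le (by norm_num)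
      have b6 : (1 / 10 ^ 12 : ℝ) * 2 ≤ 1 / 10 ^ 11 := by norm_num
      nlinarith)
  intro s hs
  have h2 := h1 s hs
  simp only [h.x0, h.φ0, h.ψ0, mul_zero, add_zero] at h2
  norm_num at h2 ⊢
  linarith

lemma xlow (h : W B t ε K F) (k : Ok B t ε K) : ∀ s ∈ Ico 0 F.c, F.φ s ≤ 1 / 2 →
    K.A0 - (t + K.dy + ε * K.X) * F.φ s - K.X * F.φ s ^ 2 / 2 + 1 / 10 ^ 10 ≤ F.x s := by
  intro s hs hφ
  have h1 := h.xlow' k s hs
  have h2 := h.ψup s hs
  have ht := h.bs.t0
  have he := h.bs.e0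
  have h3 : Real.log (B * F.y s) ≤ Real.log (B * (t + K.X / 2 + K.dy)) := by
    apply Real.log_le_log (mul_pos h.bs.B0 (h.hy s hs))
    apply mul_le_mul_of_nonneg_left _ h.bs.B0.le
    have := h.yup k s hs
    have := k.X0
    nlinarith
  have h4 : (t + ε) * F.φ s ≤ (t + ε) * (1 / 2) := by gcongr
  have h5 : (1 / 10 ^ 12 : ℝ) * s ≤ 1 / 10 ^ 9 := by
    calc (1 / 10 ^ 12 : ℝ) * s ≤ 1 / 10 ^ 12 * (17 / 5) := by
          gcongr
          exact hs.2.le.trans h.hc'
      _ ≤ _ := by norm_num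
  have h6 : (1 / 10 ^ 11 : ℝ) * s ≤ 9 / 10 ^ 10 := by
    calc (1 / 10 ^ 11 : ℝ) * s ≤ 1 / 10 ^ 11 * (17 / 5) := by
          gcongr
          exact hs.2.le.trans h.hc'
      _ ≤ _ := by norm_num
  have h7 : F.ψ s ≤ K.psi1 := by
    refine le_trans ?_ k.psi1
    linarith
  have h8 : t * (K.a2 - K.pa) * F.ψ s ≤ t * (K.a2 - K.pa) * K.psi1 := by
    apply mul_le_mul_of_nonneg_left h7
    exact mul_nonneg ht.le k.Pl0
  have h9 := k.A0
  norm_num at h6 h9 ⊢
  linarith

end W

end Pool.Agent.H42.Two
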