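import Pool.Agent.H42.Two.Est2

/-!
The integral of `z²`, upper bound of `z`, lower bound of `y`, bounds of `w`.
-/

open Set Filter Topology

namespace Pool.Agent.H42.Two

open Pool.Agent.H42.Mix (RD mono_of_rd lip_of_rd)

variable {B t ε : ℝ} {K : Cs} {F : Fn}

set_option maxHeartbeats 2000000 in
lemma algA (hb : Bs B t ε) {x y r E m1 m2 : ℝ} (hy : 15 / 100 ≤ y) (hy2 : y < 2) (hx : 0 < x)
    (hx2 : x < 2) (hxB : x ≤ B * y) (hr : |r| ≤ t) (hzl : -ε ^ 2 ≤ r * y) (hE : |E| ≤ 14 * ε ^ 2)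
    (hm1 : 0 ≤ m1) (hm2 : 0 ≤ m2) (hm2' : m2 ≤ 1 / 10 ^ 12) :
    2 * B * (r * y) ^ 2 - (r * y) ^ 2 / y * x - 123 / 10 ^ 8 ≤
      (2 * (r * y) * (B * y * (ε * y + r * y) - m2 * (r * y) - E) * y - (r * y) ^ 2 *
        (x * (ε * x + y) - m1 * y - B * (r * y) * (ε * y + r * y))) / y ^ 2 := by
  have hB0 := hb.B0
  have hBu := hb.Bu
  have he := hb.e0
  have heu := hb.eu
  have ht := hb.t0
  have htu := hb.tu
  have hy0 : 0 < y := by linarith
  have e : (2 * (r * y) * (B * y * (ε * y + r * y) - m2 * (r * y) - E) * y - (r * y) ^ 2 *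
        (x * (ε * x + y) - m1 * y - B * (r * y) * (ε * y + r * y))) / y ^ 2 =
      2 * B * (r * y) ^ 2 - (r * y) ^ 2 / y * x + ε * (r * (2 * B * y ^ 2 - r * x ^ 2))
        - 2 * (m2 * (r ^ 2 * y)) - 2 * (r * E) + m1 * (r ^ 2 * y) +
        B * y ^ 2 * (r ^ 3 * (ε + r)) := by
    field_simp
    ring
  rw [e]
  have hr2 : r ^ 2 ≤ 4 / 100 := by
    rw [← sq_abs]
    have := abs_nonneg r
    nlinarith
  have c2 : m2 * (r ^ 2 * y) ≤ 1 / 10 ^ 12 * (4 / 100 * 2) := by gcongr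
  have c3 : r * E ≤ 562 / 10 ^ 9 := by
    calc r * E ≤ |r * E| := le_abs_self _
      _ = |r| * |E| := abs_mul _ _
      _ ≤ t * (14 * ε ^ 2) := mul_le_mul hr hE (abs_nonneg _) ht.le
      _ ≤ (176777 / 1000000) * (14 * (4762 / 10000000) ^ 2) := by gcongr
      _ ≤ _ := by norm_num
  have c4 : 0 ≤ m1 * (r ^ 2 * y) := by positivity
  have c1 : -(6 / 10 ^ 8) ≤ ε * (r * (2 * B * y ^ 2 - r * x ^ 2)) := by
    rcases le_total 0 r with hc | hc
    · have b1 : r * x ^ 2 ≤ B * y ^ 2 := by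
        have a1 : r ≤ t := (le_abs_self r).trans hr
        have a2 : x ^ 2 ≤ (B * y) ^ 2 := pow_le_pow_left₀ hx.le hxB 2
        calc r * x ^ 2 ≤ t * (B * y) ^ 2 := mul_le_mul a1 a2 (sq_nonneg _) ht.le
          _ = (t * B) * (B * y ^ 2) := by ring
          _ = _ := by rw [hb.tB, one_mul]
      have b2 : 0 ≤ B * y ^ 2 := by positivity
      have b3 : 0 ≤ ε * (r * (2 * B * y ^ 2 - r * x ^ 2)) := by
        apply mul_nonneg he.le (mul_nonneg hc _)
        linarith
      linarith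
    · have b1 : -r ≤ ε ^ 2 / (15 / 100) := by
        rw [le_div_iff₀ (by norm_num)]
        nlinarith
      have b2 : 2 * B * y ^ 2 - r * x ^ 2 ≤ 47 := by
        have a1 : y ^ 2 ≤ 4 := by nlinarith
        have a2 : x ^ 2 ≤ 4 := by nlinarith
        have a3 : -r ≤ 4 / 10 := by
          have := abs_nonneg r
          have := neg_abs_le r
          linarith
        have a4 : (-r) * x ^ 2 ≤ 4 / 10 * 4 := mul_le_mul a3 a2 (sq_nonneg _) (by norm_num)
        have a5 : B * y ^ 2 ≤ (565686 / 100000) * 4 := mul_le_mul hBu a1 (sq_nonneg _) (by norm_num)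
        linarith
      have b2' : 0 ≤ 2 * B * y ^ 2 - r * x ^ 2 := by
        have : 0 ≤ (-r) * x ^ 2 := mul_nonneg (by linarith) (sq_nonneg _)
        have : 0 ≤ B * y ^ 2 := by positivity
        linarith
      have b3 : (-r) * (2 * B * y ^ 2 - r * x ^ 2) ≤ ε ^ 2 / (15 / 100) * 47 :=
        mul_le_mul b1 b2 b2' (by positivity)
      have b4 : ε * ((-r) * (2 * B * y ^ 2 - r * x ^ 2)) ≤ 6 / 10 ^ 8 := by
        calc ε * ((-r) * (2 * B * y ^ 2 - r * x ^ 2)) ≤ ε * (ε ^ 2 / (15 / 100) * 47) := by gcongr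
          _ ≤ (4762 / 10000000) * ((4762 / 10000000) ^ 2 / (15 / 100) * 47) := by gcongr
          _ ≤ _ := by norm_num
      linarith
  have c5 : -(1 / 10 ^ 9) ≤ B * y ^ 2 * (r ^ 3 * (ε + r)) := by
    rcases le_total 0 r with hc | hc
    · have : 0 ≤ B * y ^ 2 * (r ^ 3 * (ε + r)) := by positivity
      linarith
    · have b1 : -r ≤ 16 / 10 ^ 7 := by
        have : -r ≤ ε ^ 2 / (15 / 100) := by
          rw [le_div_iff₀ (by norm_num)]
          nlinarith
        refine this.trans ?_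
        calc ε ^ 2 / (15 / 100) ≤ (4762 / 10000000) ^ 2 / (15 / 100) := by gcongr
          _ ≤ _ := by norm_num
      have hel := hb.el
      have b2 : 0 ≤ ε + r := by linarith
      have b3 : ε + r ≤ 1 := by linarith
      have b4 : (-r) ^ 3 ≤ 1 / 10 ^ 12 := by
        calc (-r) ^ 3 ≤ (16 / 10 ^ 7) ^ 3 := pow_le_pow_left₀ (by linarith) b1 3
          _ ≤ _ := by norm_num
      have b5 : (-r) ^ 3 * (ε + r) ≤ 1 / 10 ^ 12 * 1 :=
        mul_le_mul b4 b3 b2 (by norm_num)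
      have b6 : B * y ^ 2 ≤ (565686 / 100000) * 4 := by
        apply mul_le_mul hBu _ (sq_nonneg _) (by norm_num)
        nlinarith
      have b7 : 0 ≤ (-r) ^ 3 * (ε + r) := mul_nonneg (pow_nonneg (by linarith) 3) b2
      have b8 : B * y ^ 2 * ((-r) ^ 3 * (ε + r)) ≤ (565686 / 100000) * 4 * (1 / 10 ^ 12 * 1) :=
        mul_le_mul b6 b5 b7 (by norm_num)
      have e1 : B * y ^ 2 * (r ^ 3 * (ε + r)) = -(B * y ^ 2 * ((-r) ^ 3 * (ε + r))) := by ring
      rw [e1]
      have : (565686 / 100000 : ℝ) * 4 * (1 / 10 ^ 12 * 1) ≤ 1 / 10 ^ 9 := by norm_num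
      linarith
  norm_num at c1 c2 c3 c5 ⊢
  linarith

namespace W

/-- derivative of `z² / y` -/
lemma dzy (h : W B t ε K F) (k : Ok B t ε K) : ∀ s ∈ Ico 0 F.c, ∃ v : ℝ,
    RD (fun s => F.z s ^ 2 / F.y s) v s ∧
      2 * B * F.z s ^ 2 - F.z s ^ 2 / F.y s * F.x s - 123 / 10 ^ 8 ≤ v := by
  intro s hs
  have hy := h.hy s hs
  refine ⟨_, ((h.dz s hs).fun_pow 2).fun_div (h.dy s hs) hy.ne', ?_⟩
  have h1 := algA h.bs (x := F.x s) (y := F.y s) (r := F.z s / F.y s)
    (E := 32 * F.w s * (ε * F.z s + F.w s)) (m1 := F.m1) (m2 := F.m2) (h.y15 k s hs)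
    (h.hy2 s hs) (h.hx s hs) (h.hx2 s hs) (h.xBy k s hs)
    (by
      rw [abs_div, abs_of_pos hy, div_le_iff₀ hy]
      exact (h.hz s hs).le)
    (by rw [div_mul_cancel₀ _ hy.ne']; exact h.zlow k s hs)
    (h.zww s hs) h.m1n h.m2n h.m2s
  rw [div_mul_cancel₀ _ hy.ne'] at h1
  refine h1.trans (le_of_eq ?_)
  push_cast
  ring

lemma cI {f : ℝ → ℝ} {c : ℝ} (h : ContinuousOn f (Icc 0 c)) : ContinuousOn f (Ico 0 c) :=
  h.mono Ico_subset_Icc_self

/-- bound of the integral of `B z²` -/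
lemma κup (h : W B t ε K F) (k : Ok B t ε K) : ∀ s ∈ Ico 0 F.c,
    F.κ s ≤ F.z s ^ 2 / F.y s + 42 / 10 ^ 7 := by
  choose! v hv hv' using h.dzy k
  have h1 := mono' (f := fun s => F.z s ^ 2 / F.y s - F.κ s + 123 / 10 ^ 8 * s)
    (f' := fun s => v s - B * F.z s ^ 2 + 123 / 10 ^ 8) (a := 0) (c := F.c)
    (((((cI h.cz).pow 2).div (cI h.cy) (fun r hr => (h.hy r hr).ne')).sub (cI h.cκ)).add
      (by fun_prop))
    (fun r hr => by
      have := ((hv r hr).fun_sub (h.dκ r hr)).fun_add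
        ((hasDerivAt_id' r).const_mul (123 / 10 ^ 8 : ℝ)).hasDerivWithinAt
      simpa using this)
    (fun r hr => by
      have h2 := hv' r hr
      have hy := h.hy r hr
      have hx := h.xBy k r hr
      have h3 : F.z r ^ 2 / F.y r * F.x r ≤ B * F.z r ^ 2 := by
        calc F.z r ^ 2 / F.y r * F.x r ≤ F.z r ^ 2 / F.y r * (B * F.y r) := by gcongr
          _ = _ := by field_simp
      linarith)
  intro s hs
  have h2 := h1 s hs
  have h3 : 0 ≤ F.z 0 ^ 2 / F.y 0 := by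
    rw [h.y0]
    have := h.bs.t0
    positivity
  have h4 : (123 / 10 ^ 8 : ℝ) * s ≤ 42 / 10 ^ 7 := by
    calc (123 / 10 ^ 8 : ℝ) * s ≤ 123 / 10 ^ 8 * (17 / 5) := by
          gcongr
          exact hs.2.le.trans h.hc'
      _ ≤ _ := by norm_num
  simp only [h.κ0, mul_zero, add_zero, sub_zero] at h2
  norm_num at h2 h4 ⊢
  linarith

lemma κn (h : W B t ε K F) : ∀ s ∈ Ico 0 F.c, 0 ≤ F.κ s := by
  intro s hs
  have := mono' (f := F.κ) (f' := fun s => B * F.z s ^ 2) (a := 0) (c := F.c) (cI h.cκ)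
    h.dκ (fun r hr => mul_nonneg h.bs.B0.le (sq_nonneg _)) s hs
  rwa [h.κ0] at this

/-- `z² / y ≤ y / 32` -/
lemma z2y (h : W B t ε K F) : ∀ s ∈ Ico 0 F.c, F.z s ^ 2 / F.y s ≤ F.y s / 32 := by
  intro s hs
  have hy := h.hy s hs
  rw [div_le_iff₀ hy]
  have a1 := (h.hz s hs).le
  have a2 : F.z s ^ 2 ≤ (t * F.y s) ^ 2 := by
    rw [← sq_abs]
    exact pow_le_pow_left₀ (abs_nonneg _) a1 2
  rw [mul_pow, h.bs.t2] at a2
  linarith

/-- upper bound of `z` -/
lemma zup (h : W B t ε K F) (k : Ok B t ε K) : ∀ s ∈ Ico 0 F.c,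
    F.z s ≤ K.Jup * ε * t * Real.exp (B * F.φ s) := by
  have h1 := mono' (f := fun s => 21 * ε ^ 3 * s - (F.z s * Real.exp (-(B * F.φ s)) +
      ε * (t + K.dy + K.X * (F.φ s + t)) * Real.exp (-(B * F.φ s))))
    (f' := fun s => 21 * ε ^ 3 - Real.exp (-(B * F.φ s)) * (B * ε * F.y s *
      (F.y s - (t + K.X * F.φ s + K.dy)) - F.m2 * F.z s -
      32 * F.w s * (ε * F.z s + F.w s))) (a := 0) (c := F.c)
    (ContinuousOn.sub (by fun_prop) (((cI h.cz).mul (ContinuousOn.rexp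
      (continuousOn_const.mul (cI h.cφ)).neg)).add ((continuousOn_const.mul
      (continuousOn_const.add (continuousOn_const.mul ((cI h.cφ).add continuousOn_const)))).mul
      (ContinuousOn.rexp (continuousOn_const.mul (cI h.cφ)).neg))))
    (fun r hr => by
      have hE := (((h.dφ r hr).const_mul B).fun_neg).exp
      have a1 := (h.dz r hr).fun_mul hE
      have a2 := ((((h.dφ r hr).add_const t).const_mul K.X).const_add (t + K.dy)).const_mul ε
      have a3 := ((hasDerivAt_id' r).const_mul (21 * ε ^ 3)).hasDerivWithinAt.fun_sub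
        (a1.fun_add (a2.fun_mul hE))
      refine a3.congr_deriv ?_
      have htB := h.bs.tB
      have : (1 : ℝ) - t * B = 0 := by rw [htB, sub_self]
      linear_combination (-ε * K.X * F.y r * Real.exp (-(B * F.φ r))) * this)
    (fun r hr => by
      have hy := h.hy r hr
      have hyu := h.yup k r hr
      have he := h.bs.e0
      have heu := h.bs.eu
      have hz := h.zlow k r hr
      have hw := h.ww k r hr
      have hφ := h.φn r hr
      have hE : Real.exp (-(B * F.φ r)) ≤ 1 := by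
        rw [Real.exp_le_one_iff]
        have := mul_nonneg h.bs.B0.le hφ
        linarith
      have hE0 := Real.exp_pos (-(B * F.φ r))
      have b1 : B * ε * F.y r * (F.y r - (t + K.X * F.φ r + K.dy)) ≤ 0 := by
        apply mul_nonpos_of_nonneg_of_nonpos
        · have := h.bs.B0
          positivity
        · linarith
      have b2 : -(F.m2 * F.z r) ≤ ε ^ 3 := by
        have : F.m2 * (-F.z r) ≤ 1 / 10 ^ 12 * ε ^ 2 := by
          calc F.m2 * (-F.z r) ≤ F.m2 * ε ^ 2 := by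
                apply mul_le_mul_of_nonneg_left _ h.m2n
                linarith
            _ ≤ _ := mul_le_mul_of_nonneg_right h.m2s (sq_nonneg _)
        have b3 : (1 / 10 ^ 12 : ℝ) * ε ^ 2 ≤ ε * ε ^ 2 := by
          apply mul_le_mul_of_nonneg_right _ (sq_nonneg _)
          have := h.bs.el
          norm_num at this ⊢
          linarith
        nlinarith
      have b4 : B * ε * F.y r * (F.y r - (t + K.X * F.φ r + K.dy)) - F.m2 * F.z r -
          32 * F.w r * (ε * F.z r + F.w r) ≤ 21 * ε ^ 3 := by linarith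
      have b5 : Real.exp (-(B * F.φ r)) * (B * ε * F.y r * (F.y r - (t + K.X * F.φ r + K.dy))
          - F.m2 * F.z r - 32 * F.w r * (ε * F.z r + F.w r)) ≤ 21 * ε ^ 3 := by
        calc _ ≤ Real.exp (-(B * F.φ r)) * (21 * ε ^ 3) := by gcongr
          _ ≤ 1 * (21 * ε ^ 3) := by gcongr
          _ = _ := one_mul _
      linarith)
  intro s hs
  have h2 := h1 s hs
  simp only [h.φ0, mul_zero, neg_zero, Real.exp_zero, mul_one, zero_add, zero_sub] at h2
  have he := h.bs.e0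
  have heu := h.bs.eu
  have ht := h.bs.t0
  have htl := h.bs.tl
  have hX := k.X0
  have hφ := h.φn s hs
  have hdy : 0 ≤ K.dy := by
    refine le_trans ?_ k.dy
    positivity
  have hE0 := Real.exp_pos (-(B * F.φ s))
  have c1 : 0 ≤ ε * (t + K.dy + K.X * (F.φ s + t)) * Real.exp (-(B * F.φ s)) := by positivity
  have c2 : 21 * ε ^ 3 * s ≤ 72 * ε ^ 3 := by
    have : s ≤ 17 / 5 := hs.2.le.trans h.hc'
    have : 0 < ε ^ 3 := by positivity
    nlinarith
  have c3 : 72 * ε ^ 3 ≤ 1 / 10 ^ 3 * (ε * t) := by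
    have : 72 * ε ^ 2 ≤ 1 / 10 ^ 3 * t := by
      calc 72 * ε ^ 2 ≤ 72 * (4762 / 10000000) ^ 2 := by gcongr
        _ ≤ 1 / 10 ^ 3 * (176776 / 1000000) := by norm_num
        _ ≤ _ := by gcongr
    nlinarith
  have c4 := h.z0u
  have c5 : F.z s * Real.exp (-(B * F.φ s)) ≤ K.Jup * ε * t := by
    have e1 : ε * (t + K.dy + K.X * t) = (1 + B * K.dy + K.X) * (ε * t) := by
      have : ε * (t + K.dy + K.X * t) = ε * t + ε * K.dy * (t * B) + K.X * (ε * t) := by
        rw [h.bs.tB]; ring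
      rw [this]; ring
    have e2 : K.Jup * ε * t = K.Jup * (ε * t) := by ring
    rw [e2]
    calc F.z s * Real.exp (-(B * F.φ s)) ≤
        (33 / 20 + 1 + B * K.dy + K.X + 1 / 10 ^ 3) * (ε * t) := by linarith
      _ ≤ K.Jup * (ε * t) := mul_le_mul_of_nonneg_right k.Jup (by positivity)
  have c6 : Real.exp (-(B * F.φ s)) * Real.exp (B * F.φ s) = 1 := by
    rw [← Real.exp_add]; simp
  calc F.z s = F.z s * Real.exp (-(B * F.φ s)) * Real.exp (B * F.φ s) := by
        rw [mul_assoc, c6, mul_one]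
    _ ≤ _ := mul_le_mul_of_nonneg_right c5 (Real.exp_pos _).le

lemma zzh (h : W B t ε K F) (k : Ok B t ε K) : ∀ s ∈ Ico 0 F.c, F.φ s ≤ 1 / 2 →
    F.z s ≤ K.zh := by
  intro s hs hφ
  refine (h.zup k s hs).trans (le_trans ?_ k.zh)
  have he := h.bs.e0
  have ht := h.bs.t0
  have hJ : 0 ≤ K.Jup := by
    have := k.Jup
    have := k.X0
    have hdy : 0 ≤ K.dy := by
      refine le_trans ?_ k.dy
      positivity
    have := mul_nonneg h.bs.B0.le hdy
    linarith
  have : Real.exp (B * F.φ s) ≤ Real.exp (B / 2) := by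
    apply Real.exp_le_exp.2
    have := mul_le_mul_of_nonneg_left hφ h.bs.B0.le
    linarith
  gcongr

lemma φmono (h : W B t ε K F) {s r : ℝ} (hs : s ∈ Ico 0 F.c) (hr : r ∈ Ico s F.c) :
    F.φ s ≤ F.φ r := by
  exact mono' (f := F.φ) (f' := F.y) (a := s) (c := F.c)
    (h.cφ.mono (fun q hq => ⟨hs.1.trans hq.1, hq.2.le⟩))
    (fun q hq => h.dφ q ⟨hs.1.trans hq.1, hq.2⟩)
    (fun q hq => (h.hy q ⟨hs.1.trans hq.1, hq.2⟩).le) r hr

lemma κKh (h : W B t ε K F) (k : Ok B t ε K) : ∀ s ∈ Ico 0 F.c, F.φ s ≤ 1 / 2 →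
    F.κ s ≤ K.Kh := by
  intro s hs hφ
  refine (h.κup k s hs).trans (le_trans ?_ k.Kh)
  have h1 := h.zzh k s hs hφ
  have h2 := h.zlow k s hs
  have hy := h.hy s hs
  have hym := h.ylow k s hs
  have hym0 : 0 < K.ymin := by linarith [k.ymin0]
  have he := h.bs.e0
  have heu := h.bs.eu
  have h3 : ε ^ 2 ≤ K.zh := by
    refine le_trans ?_ k.zh
    have hJ : 1 ≤ K.Jup := by
      have := k.Jup
      have := k.X0
      have hdy : 0 ≤ K.dy := by
        refine le_trans ?_ k.dy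
        positivity
      have := mul_nonneg h.bs.B0.le hdy
      linarith
    have hE : 1 ≤ Real.exp (B / 2) := Real.one_le_exp (by have := h.bs.B0; positivity)
    have ht := h.bs.tl
    calc ε ^ 2 = 1 * ε * ε * 1 := by ring
      _ ≤ K.Jup * ε * t * Real.exp (B / 2) := by
        gcongr
        linarith
  have h4 : F.z s ^ 2 ≤ K.zh ^ 2 := by
    apply sq_le_sq'
    · linarith
    · exact h1
  have h5 : F.z s ^ 2 / F.y s ≤ K.zh ^ 2 / K.ymin := by gcongr
  linarith

/-- lower bound of `y` in terms of the angle -/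
lemma yPl (h : W B t ε K F) (k : Ok B t ε K) : ∀ s ∈ Ico 0 F.c, F.φ s ≤ 1 / 2 →
    t - K.Kh - B * ε * K.zh / 2 + K.A0 * F.φ s - (t + K.dy + ε * K.X) * F.φ s ^ 2 / 2
      - K.X * F.φ s ^ 3 / 6 ≤ F.y s := by
  intro s hs hφ
  have h1 := mono_of_rd (f := fun s => F.y s - K.A0 * F.φ s + (t + K.dy + ε * K.X) / 2 *
      F.φ s ^ 2 + K.X / 6 * F.φ s ^ 3 + F.κ s + B * ε * K.zh * F.φ s)
    (f' := fun s => (F.x s * (ε * F.x s + F.y s) - F.m1 * F.y s
      - B * F.z s * (ε * F.y s + F.z s)) - K.A0 * F.y s + (t + K.dy + ε * K.X) * F.φ s * F.y s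
      + K.X / 2 * F.φ s ^ 2 * F.y s + B * F.z s ^ 2 + B * ε * K.zh * F.y s)
    (a := 0) (b := s)
    (by
      have hcφ := h.cφ.mono (Icc_subset_Icc_right hs.2.le)
      have hcy := h.cy.mono (Icc_subset_Icc_right hs.2.le)
      have hcκ := h.cκ.mono (Icc_subset_Icc_right hs.2.le)
      fun_prop)
    (fun r hr => by
      have hr' : r ∈ Ico 0 F.c := ⟨hr.1, hr.2.trans hs.2⟩
      have := (((((h.dy r hr').fun_sub ((h.dφ r hr').const_mul K.A0)).fun_add
        (((h.dφ r hr').fun_pow 2).const_mul ((t + K.dy + ε * K.X) / 2))).fun_add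
        (((h.dφ r hr').fun_pow 3).const_mul (K.X / 6))).fun_add (h.dκ r hr')).fun_add
        ((h.dφ r hr').const_mul (B * ε * K.zh))
      refine this.congr_deriv ?_
      push_cast
      ring)
    (fun r hr => by
      have hr' : r ∈ Ico 0 F.c := ⟨hr.1, hr.2.trans hs.2⟩
      have hφr : F.φ r ≤ 1 / 2 := (h.φmono hr' ⟨hr.2.le, hs.2⟩).trans hφ
      have hx := h.xlow k r hr' hφr
      have hz := h.zzh k r hr' hφr
      have hy := h.hy r hr'
      have he := h.bs.e0
      have hB := h.bs.B0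
      have b1 : 0 ≤ F.y r * (F.x r - (K.A0 - (t + K.dy + ε * K.X) * F.φ r
        - K.X * F.φ r ^ 2 / 2 + 1 / 10 ^ 10)) := mul_nonneg hy.le (by linarith)
      have b2 : 0 ≤ F.y r * (1 / 10 ^ 10 - F.m1) := by
        apply mul_nonneg hy.le
        have := h.m1s
        norm_num at this ⊢
        linarith
      have b3 : 0 ≤ B * ε * F.y r * (K.zh - F.z r) :=
        mul_nonneg (by positivity) (by linarith)
      have b4 : 0 ≤ ε * F.x r ^ 2 := by positivity
      nlinarith) s ⟨hs.1, le_rfl⟩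
  simp only [h.y0, h.φ0, h.κ0, mul_zero, add_zero, sub_zero, ne_eq, OfNat.ofNat_ne_zero,
    not_false_eq_true, zero_pow] at h1
  have h2 := h.κKh k s hs hφ
  have h3 : B * ε * K.zh * F.φ s ≤ B * ε * K.zh * (1 / 2) := by
    apply mul_le_mul_of_nonneg_left hφ
    have he := h.bs.e0
    have hB := h.bs.B0
    have : 0 ≤ K.zh := by
      refine le_trans ?_ k.zh
      have ht := h.bs.t0
      have hJ : 0 ≤ K.Jup := by
        have := k.Jup
        have := k.X0
        have hdy : 0 ≤ K.dy := by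
          refine le_trans ?_ k.dy
          positivity
        have := mul_nonneg h.bs.B0.le hdy
        linarith
      positivity
    positivity
  linarith

/-- the time at which the angle is `1 / 2` -/
lemma half (h : W B t ε K F) : ∀ s ∈ Ico 0 F.c, 1 / 2 ≤ F.φ s →
    ∃ r ∈ Icc 0 s, F.φ r = 1 / 2 := by
  intro s hs hφ
  have := intermediate_value_Icc hs.1 (h.cφ.mono (Icc_subset_Icc_right hs.2.le))
  obtain ⟨r, hr, e⟩ := this (show (1 / 2 : ℝ) ∈ Icc (F.φ 0) (F.φ s) from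
    ⟨by rw [h.φ0]; norm_num, hφ⟩)
  exact ⟨r, hr, e⟩

/-- lower bound of `y` after the angle `1 / 2` -/
lemma ymid (h : W B t ε K F) (k : Ok B t ε K) : ∀ s ∈ Ico 0 F.c, 1 / 2 ≤ F.φ s →
    K.ymid ≤ F.y s := by
  intro s hs hφ
  obtain ⟨r, hr, hrφ⟩ := h.half s hs hφ
  have hr' : r ∈ Ico 0 F.c := ⟨hr.1, hr.2.trans_lt hs.2⟩
  have h1 := mono' (f := fun s => F.y s + F.κ s + 2 * ε * F.φ s)
    (f' := fun s => (F.x s * (ε * F.x s + F.y s) - F.m1 * F.y s
      - B * F.z s * (ε * F.y s + F.z s)) + B * F.z s ^ 2 + 2 * ε * F.y s) (a := r) (c := F.c)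
    (by
      have hsub : Ico r F.c ⊆ Icc 0 F.c := fun q hq => ⟨hr.1.trans hq.1, hq.2.le⟩
      have hcφ := h.cφ.mono hsub
      have hcy := h.cy.mono hsub
      have hcκ := h.cκ.mono hsub
      fun_prop)
    (fun q hq => by
      have hq' : q ∈ Ico 0 F.c := ⟨hr.1.trans hq.1, hq.2⟩
      exact ((h.dy q hq').fun_add (h.dκ q hq')).fun_add ((h.dφ q hq').const_mul (2 * ε)))
    (fun q hq => by
      have hq' : q ∈ Ico 0 F.c := ⟨hr.1.trans hq.1, hq.2⟩
      have hx := h.hx q hq'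
      have hy := h.hy q hq'
      have hyX := h.yX k q hq'
      have hX := k.X2
      have he := h.bs.e0
      have hel := h.bs.el
      have hBz := h.Bz q hq'
      have hm := h.m1s
      have b1 : B * F.z q ≤ F.y q := by
        calc B * F.z q ≤ B * |F.z q| := mul_le_mul_of_nonneg_left (le_abs_self _) h.bs.B0.le
          _ ≤ _ := hBz
      have b2 : 0 ≤ ε * F.y q * (F.y q - B * F.z q) := mul_nonneg (by positivity) (by linarith)
      have b3 : 0 ≤ F.y q * (ε * (122 / 100 - F.y q)) :=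
        mul_nonneg hy.le (mul_nonneg he.le (by linarith))
      have b4 : 0 ≤ F.y q * (78 / 100 * ε - F.m1) := by
        apply mul_nonneg hy.le
        norm_num at hm hel ⊢
        linarith
      have b5 : 0 ≤ F.x q * F.y q := by positivity
      have b6 : 0 ≤ ε * F.x q ^ 2 := by positivity
      nlinarith) s ⟨hr.2, hs.2⟩
  have h2 := h.yPl k r hr' hrφ.le
  have h3 := h.κn r hr'
  have h4 := h.κup k s hs
  have h5 := h.z2y s hs
  have h6 := k.yhl
  have h7 := k.ymid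
  have h8 := (h.hφ s hs).le
  have he := h.bs.e0
  have h9 : 2 * ε * F.φ s ≤ 2 * ε * K.PH := by gcongr
  rw [hrφ] at h1 h2
  norm_num at h2 h4 h6 h7 ⊢
  linarith

end W

end Pool.Agent.H42.Two
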