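import Pool.Agent.H42.Two.Est3

/-!
Bounds of `w`, lower bound of `z`, bound of the angle.
-/

open Set Filter Topology

namespace Pool.Agent.H42.Two

open Pool.Agent.H42.Mix (RD mono_of_rd lip_of_rd)

variable {B t ε : ℝ} {K : Cs} {F : Fn}

lemma Ok.J1 (k : Ok B t ε K) (hb : Bs B t ε) : 1 ≤ K.Jup := by
  have := k.Jup
  have := k.X0
  have hdy : 0 ≤ K.dy := by
    refine le_trans ?_ k.dy
    have := hb.e0
    positivity
  have := mul_nonneg hb.B0.le hdy
  linarith

lemma Ok.ym0 (k : Ok B t ε K) : 0 < K.ymin := by linarith [k.ymin0]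

lemma Bs.t32 (hb : Bs B t ε) : 32 * t = B := by rw [hb.t_eq]; ring

/-- `Jup ε e^(B/2) ≤ B zh` -/
lemma Ok.JB (k : Ok B t ε K) (hb : Bs B t ε) :
    K.Jup * ε * Real.exp (B / 2) ≤ B * K.zh := by
  have h1 := mul_le_mul_of_nonneg_left k.zh hb.B0.le
  have h2 : B * (K.Jup * ε * t * Real.exp (B / 2)) = (t * B) * (K.Jup * ε * Real.exp (B / 2)) := by
    ring
  rwa [h2, hb.tB, one_mul] at h1

namespace W

lemma Γ1 (h : W B t ε K F) (k : Ok B t ε K) : ∀ s ∈ Ico 0 F.c,
    F.Γ s ≤ K.Jup * ε / K.ymin * Real.exp (B * F.φ s) := by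
  have he := h.bs.e0
  have hJ := k.J1 h.bs
  have hym := k.ym0
  have h1 := mono' (f := fun s => K.Jup * ε / K.ymin * Real.exp (B * F.φ s) - F.Γ s)
    (f' := fun s => K.Jup * ε / K.ymin * (Real.exp (B * F.φ s) * (B * F.y s)) - 32 * F.z s)
    (a := 0) (c := F.c)
    ((continuousOn_const.mul (ContinuousOn.rexp (continuousOn_const.mul (cI h.cφ)))).sub
      (cI h.cΓ))
    (fun r hr => ((((h.dφ r hr).const_mul B).exp).const_mul _).fun_sub (h.dΓ r hr))
    (fun r hr => by
      have hz := h.zup k r hr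
      have hy := h.ylow k r hr
      have hE := Real.exp_pos (B * F.φ r)
      have hB := h.bs.B0
      have b1 : 32 * (K.Jup * ε * t * Real.exp (B * F.φ r)) =
        K.Jup * ε * B * Real.exp (B * F.φ r) := by
        rw [← h.bs.t32]; ring
      have b2 : K.Jup * ε * B * Real.exp (B * F.φ r) ≤
          K.Jup * ε / K.ymin * (Real.exp (B * F.φ r) * (B * F.y r)) := by
        have e : K.Jup * ε / K.ymin * (Real.exp (B * F.φ r) * (B * F.y r)) =
          K.Jup * ε * B * Real.exp (B * F.φ r) * (F.y r / K.ymin) := by ring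
        rw [e]
        have : 1 ≤ F.y r / K.ymin := by rwa [one_le_div hym]
        have h0 : 0 ≤ K.Jup * ε * B * Real.exp (B * F.φ r) := by positivity
        nlinarith
      linarith)
  intro s hs
  have h2 := h1 s hs
  simp only [h.φ0, h.Γ0, mul_zero, Real.exp_zero, mul_one, sub_zero] at h2
  have : 0 ≤ K.Jup * ε / K.ymin := by positivity
  linarith

lemma Γlow (h : W B t ε K F) (k : Ok B t ε K) : ∀ s ∈ Ico 0 F.c, -(1 / 10 ^ 4) ≤ F.Γ s := by
  have h1 := mono' (f := fun s => F.Γ s + 32 * ε ^ 2 * s)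
    (f' := fun s => 32 * F.z s + 32 * ε ^ 2) (a := 0) (c := F.c)
    ((cI h.cΓ).add (by fun_prop))
    (fun r hr => by
      have := (h.dΓ r hr).fun_add ((hasDerivAt_id' r).const_mul (32 * ε ^ 2)).hasDerivWithinAt
      simpa using this)
    (fun r hr => by
      have := h.zlow k r hr
      linarith)
  intro s hs
  have h2 := h1 s hs
  simp only [h.Γ0, mul_zero, add_zero] at h2
  have he := h.bs.e0
  have heu := h.bs.eu
  have h3 : 32 * ε ^ 2 * s ≤ 1 / 10 ^ 4 := by
    calc 32 * ε ^ 2 * s ≤ 32 * (4762 / 10000000) ^ 2 * (17 / 5) := by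
          have := hs.1
          have := hs.2.le.trans h.hc'
          gcongr
      _ ≤ _ := by norm_num
  linarith

lemma Γhalf (h : W B t ε K F) (k : Ok B t ε K) : ∀ s ∈ Ico 0 F.c, F.φ s ≤ 1 / 2 →
    F.Γ s ≤ K.Jup * ε * Real.exp (B / 2) / K.ymin := by
  intro s hs hφ
  have h1 := h.Γ1 k s hs
  have he := h.bs.e0
  have hJ := k.J1 h.bs
  have hym := k.ym0
  have h2 : Real.exp (B * F.φ s) ≤ Real.exp (B / 2) := by
    apply Real.exp_le_exp.2
    have := mul_le_mul_of_nonneg_left hφ h.bs.B0.le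
    linarith
  calc F.Γ s ≤ K.Jup * ε / K.ymin * Real.exp (B * F.φ s) := h1
    _ ≤ K.Jup * ε / K.ymin * Real.exp (B / 2) := by gcongr
    _ = _ := by ring

lemma Γquart (h : W B t ε K F) (k : Ok B t ε K) : ∀ s ∈ Ico 0 F.c, F.φ s ≤ 1 / 2 →
    F.Γ s ≤ 1 / 4 := by
  intro s hs hφ
  refine (h.Γhalf k s hs hφ).trans ?_
  have hym := k.ym0
  rw [div_le_iff₀ hym]
  have h1 := k.JB h.bs
  have h2 := h.bs.Bu
  have h3 := k.zh1
  have h4 := k.ymin0
  have h5 : 0 ≤ K.zh := by
    have : 0 ≤ B * K.zh := by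
      refine le_trans ?_ h1
      have := h.bs.e0
      have := k.J1 h.bs
      positivity
    exact (mul_nonneg_iff_of_pos_left h.bs.B0).1 this
  have h6 : B * K.zh ≤ (565686 / 100000) * (6 / 1000) := by gcongr
  linarith

lemma Γup (h : W B t ε K F) (k : Ok B t ε K) : ∀ s ∈ Ico 0 F.c, F.Γ s ≤ K.Gam := by
  intro s hs
  have he := h.bs.e0
  have heu := h.bs.eu
  have hJ := k.J1 h.bs
  have hym := k.ym0
  have hX := k.X0
  have hym0 : 0 < K.ymid := by linarith [k.ymid0]
  have hG := k.Gam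
  rcases le_total (F.φ s) (1 / 2) with hφ | hφ
  · have h1 := h.Γhalf k s hs hφ
    have : 0 ≤ K.X / K.ymid := by positivity
    linarith
  · obtain ⟨r, hr, hrφ⟩ := h.half s hs hφ
    have hr' : r ∈ Ico 0 F.c := ⟨hr.1, hr.2.trans_lt hs.2⟩
    have h1 := mono' (f := fun s => B / K.ymid * F.z s - F.Γ s)
      (f' := fun s => B / K.ymid * (B * F.y s * (ε * F.y s + F.z s) - F.m2 * F.z s
        - 32 * F.w s * (ε * F.z s + F.w s)) - 32 * F.z s) (a := r) (c := F.c)
      (by
        have hsub : Ico r F.c ⊆ Icc 0 F.c := fun q hq => ⟨hr.1.trans hq.1, hq.2.le⟩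
        exact (continuousOn_const.mul (h.cz.mono hsub)).sub (h.cΓ.mono hsub))
      (fun q hq => by
        have hq' : q ∈ Ico 0 F.c := ⟨hr.1.trans hq.1, hq.2⟩
        exact ((h.dz q hq').const_mul _).fun_sub (h.dΓ q hq'))
      (fun q hq => by
        have hq' : q ∈ Ico 0 F.c := ⟨hr.1.trans hq.1, hq.2⟩
        have hφq : 1 / 2 ≤ F.φ q := by
          rw [← hrφ]
          exact h.φmono hr' ⟨hq.1, hq.2⟩
        have hy := h.ymid k q hq' hφq
        have hy2 := h.hy2 q hq'
        have hz := h.zlow k q hq'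
        have hzb := (abs_le.1 (h.zb q hq')).2
        have hE := (abs_le.1 (h.zww q hq')).2
        have hBu := h.bs.Bu
        have hB0 := h.bs.B0
        have e : B / K.ymid * (B * F.y q * (ε * F.y q + F.z q) - F.m2 * F.z q
            - 32 * F.w q * (ε * F.z q + F.w q)) - 32 * F.z q =
            (32 * (ε * F.y q ^ 2 + (F.y q - K.ymid) * F.z q) - B * (F.m2 * F.z q +
              32 * F.w q * (ε * F.z q + F.w q))) / K.ymid := by
          have hB2 := h.bs.B2
          field_simp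
          linear_combination (F.y q * (ε * F.y q + F.z q)) * hB2
        rw [e]
        apply div_nonneg _ hym0.le
        have b1 : ε / 4 ≤ ε * F.y q ^ 2 := by
          have : (1 / 2 : ℝ) ^ 2 ≤ F.y q ^ 2 :=
            pow_le_pow_left₀ (by norm_num) (k.ymid0.trans hy) 2
          nlinarith
        have b2 : -(2 * ε ^ 2) ≤ (F.y q - K.ymid) * F.z q := by
          have a1 : 0 ≤ F.y q - K.ymid := by linarith
          have a2 : F.y q - K.ymid ≤ 2 := by linarith
          have a3 : (F.y q - K.ymid) * (-F.z q) ≤ 2 * ε ^ 2 := by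
            calc (F.y q - K.ymid) * (-F.z q) ≤ (F.y q - K.ymid) * ε ^ 2 := by
                  apply mul_le_mul_of_nonneg_left _ a1
                  linarith
              _ ≤ _ := mul_le_mul_of_nonneg_right a2 (sq_nonneg _)
          linarith
        have b3 : F.m2 * F.z q ≤ ε ^ 2 := by
          have hel := h.bs.el
          calc F.m2 * F.z q ≤ F.m2 * (36 / 100) := mul_le_mul_of_nonneg_left hzb h.m2n
            _ ≤ 1 / 10 ^ 12 * (36 / 100) := mul_le_mul_of_nonneg_right h.m2s (by norm_num)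
            _ ≤ (4545 / 10000000) ^ 2 := by norm_num
            _ ≤ ε ^ 2 := by gcongr
        have b4 : B * (F.m2 * F.z q + 32 * F.w q * (ε * F.z q + F.w q)) ≤ 6 * (15 * ε ^ 2) := by
          calc B * (F.m2 * F.z q + 32 * F.w q * (ε * F.z q + F.w q)) ≤ B * (15 * ε ^ 2) := by
                apply mul_le_mul_of_nonneg_left _ hB0.le
                linarith
            _ ≤ _ := by
                apply mul_le_mul_of_nonneg_right _ (by positivity)
                linarith
        nlinarith) s ⟨hr.2, hs.2⟩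
    have h2 := h.Γhalf k r hr' hrφ.le
    have h3 := h.zlow k r hr'
    have h4 := (le_abs_self _).trans (h.hz s hs).le
    have h5 := h.yX k s hs
    have hB0 := h.bs.B0
    have ht := h.bs.t0
    have h6 : B / K.ymid * F.z s ≤ K.X / K.ymid := by
      calc B / K.ymid * F.z s ≤ B / K.ymid * (t * K.X) := by
            apply mul_le_mul_of_nonneg_left _ (by positivity)
            exact h4.trans (by gcongr)
        _ = (t * B) * (K.X / K.ymid) := by ring
        _ = _ := by rw [h.bs.tB, one_mul]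
    have h7 : -(1 / 10 ^ 5) ≤ B / K.ymid * F.z r := by
      have a1 : B / K.ymid ≤ 12 := by
        rw [div_le_iff₀ hym0]
        have := k.ymid0
        have := h.bs.Bu
        linarith
      have a2 : B / K.ymid * (-F.z r) ≤ 12 * ε ^ 2 := by
        calc B / K.ymid * (-F.z r) ≤ B / K.ymid * ε ^ 2 := by
              apply mul_le_mul_of_nonneg_left _ (by positivity)
              linarith
          _ ≤ _ := mul_le_mul_of_nonneg_right a1 (sq_nonneg _)
      have a3 : 12 * ε ^ 2 ≤ 1 / 10 ^ 5 := by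
        calc 12 * ε ^ 2 ≤ 12 * (4762 / 10000000) ^ 2 := by gcongr
          _ ≤ _ := by norm_num
      linarith
    norm_num at h7 hG ⊢
    linarith

/-- the quotient condition in the barrier for `w` -/
lemma quot (h : W B t ε K F) (k : Ok B t ε K) : ∀ s ∈ Ico 0 F.c,
    32 * F.y s ≤ 31 / 20 * (64 * F.y s - B * F.x s - 32 * (B * F.z s)) := by
  intro s hs
  have hy := h.hy s hs
  have hy15 := h.y15 k s hs
  have hx := h.hx s hs
  have hB0 := h.bs.B0
  rcases le_total (F.φ s) (1 / 2) with hφ | hφ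
  · have h1 := h.xBy k s hs
    have h2 := h.zzh k s hs hφ
    have h3 : B * F.x s ≤ 32 * F.y s := by
      calc B * F.x s ≤ B * (B * F.y s) := by gcongr
        _ = B ^ 2 * F.y s := by ring
        _ = _ := by rw [h.bs.B2]
    have h4 : B * F.z s ≤ (565686 / 100000) * (6 / 1000) := by
      have := h.bs.Bu
      calc B * F.z s ≤ B * (6 / 1000) := by
            apply mul_le_mul_of_nonneg_left _ hB0.le
            linarith [k.zh1]
        _ ≤ _ := by gcongr
    linarith
  · have h1 := h.ymid k s hs hφ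
    have h2 := h.r2X k s hs
    have h3 : B * F.x s ≤ 11 * F.y s := by
      apply le_of_sq_le_sq _ (by positivity)
      rw [mul_pow, h.bs.B2, mul_pow]
      have h4 := k.wb
      have h5 : K.ymid ^ 2 ≤ F.y s ^ 2 := pow_le_pow_left₀ (by linarith [k.ymid0]) h1 2
      linarith
    have h4 : B * F.z s ≤ F.y s := by
      calc B * F.z s ≤ B * |F.z s| := mul_le_mul_of_nonneg_left (le_abs_self _) hB0.le
        _ ≤ _ := h.Bz s hs
    linarith

/-- upper bound of `w` -/
lemma wV (h : W B t ε K F) (k : Ok B t ε K) : ∀ s ∈ Ico 0 F.c,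
    F.w s ≤ 31 / 20 * (ε * B) * (F.z s ^ 2 / F.y s) +
      76 / 100 * ε ^ 2 * Real.exp (F.Γ s) := by
  have he := h.bs.e0
  have heu := h.bs.eu
  have hel := h.bs.el
  have hB0 := h.bs.B0
  have hBu := h.bs.Bu
  choose! v hv hv' using h.dzy k
  have h1 := mono' (f := fun s => 301 / 10 ^ 4 * ε ^ 2 * s -
      (F.w s - 31 / 20 * (ε * B) * (F.z s ^ 2 / F.y s)) * Real.exp (-F.Γ s))
    (f' := fun s => 301 / 10 ^ 4 * ε ^ 2 - Real.exp (-F.Γ s) * (32 * ε * F.z s ^ 2 - F.ev s
      - 31 / 20 * (ε * B) * v s + 32 * (31 / 20) * (ε * B) * F.z s * (F.z s ^ 2 / F.y s)))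
    (a := 0) (c := F.c)
    (ContinuousOn.sub (by fun_prop) (((cI h.cw).sub (continuousOn_const.mul
      (((cI h.cz).pow 2).div (cI h.cy) (fun r hr => (h.hy r hr).ne')))).mul
      (ContinuousOn.rexp (cI h.cΓ).neg)))
    (fun r hr => by
      have := ((hasDerivAt_id' r).const_mul (301 / 10 ^ 4 * ε ^ 2)).hasDerivWithinAt.fun_sub
        (((h.dw r hr).fun_sub ((hv r hr).const_mul (31 / 20 * (ε * B)))).fun_mul
        ((h.dΓ r hr).fun_neg).exp)
      refine this.congr_deriv ?_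
      ring)
    (fun r hr => by
      have h2 := hv' r hr
      have hy := h.hy r hr
      have hev := (abs_le.1 (h.hev r hr)).1
      have hq := h.quot k r hr
      have hΓ := h.Γlow k r hr
      set q := F.z r ^ 2 / F.y r with hqd
      have hq0 : 0 ≤ q := by positivity
      have hzq : F.z r ^ 2 = q * F.y r := by rw [hqd]; field_simp
      have hE0 := Real.exp_pos (-F.Γ r)
      have hE : Real.exp (-F.Γ r) ≤ 1001 / 1000 := by
        calc Real.exp (-F.Γ r) ≤ Real.exp (1 / 10 ^ 4) := by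
              apply Real.exp_le_exp.2
              linarith
          _ ≤ 1 / (1 - 1 / 10 ^ 4) := by
              apply Real.exp_bound_div_one_sub_of_interval (by norm_num) (by norm_num)
          _ ≤ _ := by norm_num
      have b1 : 31 / 20 * (ε * B) * (2 * B * F.z r ^ 2 - q * F.x r - 123 / 10 ^ 8) ≤
          31 / 20 * (ε * B) * v r := by
        apply mul_le_mul_of_nonneg_left h2 (by positivity)
      have b2 : 31 / 20 * (ε * B) * (123 / 10 ^ 8) ≤ 24 / 1000 * ε ^ 2 := by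
        have : 31 / 20 * B * (123 / 10 ^ 8) ≤ 24 / 1000 * ε := by
          calc 31 / 20 * B * (123 / 10 ^ 8) ≤ 31 / 20 * (565686 / 100000) * (123 / 10 ^ 8) := by
                gcongr
            _ ≤ 24 / 1000 * (4545 / 10000000) := by norm_num
            _ ≤ _ := by gcongr
        nlinarith
      have b3 : ε ^ 3 / 5 ≤ 1 / 1000 * ε ^ 2 := by
        have : 0 < ε ^ 2 := by positivity
        nlinarith
      have b4 : ε * q * (32 * F.y r - 31 / 20 * (64 * F.y r - B * F.x r - 32 * (B * F.z r))) ≤ 0 := by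
        apply mul_nonpos_of_nonneg_of_nonpos (by positivity)
        linarith
      have e1 : 31 / 20 * (ε * B) * (2 * B * F.z r ^ 2) = 31 / 20 * 64 * (ε * q * F.y r) := by
        rw [hzq]
        calc 31 / 20 * (ε * B) * (2 * B * (q * F.y r)) =
            31 / 20 * 2 * B ^ 2 * (ε * q * F.y r) := by ring
          _ = _ := by rw [h.bs.B2]; ring
      have b5 : 32 * ε * F.z r ^ 2 - F.ev r - 31 / 20 * (ε * B) * v r
          + 32 * (31 / 20) * (ε * B) * F.z r * q ≤ 30 / 1000 * ε ^ 2 := by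
        have e2 : 32 * ε * F.z r ^ 2 = 32 * (ε * q * F.y r) := by rw [hzq]; ring
        rw [e2]
        have : 0 < ε ^ 2 := by positivity
        nlinarith
      have b6 : Real.exp (-F.Γ r) * (32 * ε * F.z r ^ 2 - F.ev r - 31 / 20 * (ε * B) * v r
          + 32 * (31 / 20) * (ε * B) * F.z r * q) ≤ 301 / 10 ^ 4 * ε ^ 2 := by
        calc _ ≤ Real.exp (-F.Γ r) * (30 / 1000 * ε ^ 2) := by gcongr
          _ ≤ (1001 / 1000) * (30 / 1000 * ε ^ 2) := by gcongr
          _ ≤ _ := by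
            have : 0 < ε ^ 2 := by positivity
            nlinarith
      linarith)
  intro s hs
  have h2 := h1 s hs
  simp only [h.Γ0, h.y0, neg_zero, Real.exp_zero, mul_one, mul_zero, zero_sub] at h2
  have h3 := (abs_le.1 h.w0).2
  have h4 : 0 ≤ 31 / 20 * (ε * B) * (F.z 0 ^ 2 / t) := by
    have := h.bs.t0
    positivity
  have h5 : 301 / 10 ^ 4 * ε ^ 2 * s ≤ 11 / 100 * ε ^ 2 := by
    have a1 : s ≤ 17 / 5 := hs.2.le.trans h.hc'
    have a2 : 0 < ε ^ 2 := by positivity
    have : 301 / 10 ^ 4 * ε ^ 2 * s ≤ 301 / 10 ^ 4 * ε ^ 2 * (17 / 5) := by gcongr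
    norm_num at this ⊢
    linarith
  have h6 : (F.w s - 31 / 20 * (ε * B) * (F.z s ^ 2 / F.y s)) * Real.exp (-F.Γ s) ≤
      76 / 100 * ε ^ 2 := by linarith
  have c6 : Real.exp (-F.Γ s) * Real.exp (F.Γ s) = 1 := by
    rw [← Real.exp_add]; simp
  have h7 := mul_le_mul_of_nonneg_right h6 (Real.exp_pos (F.Γ s)).le
  rw [mul_assoc, c6, mul_one] at h7
  linarith

lemma wup (h : W B t ε K F) (k : Ok B t ε K) : ∀ s ∈ Ico 0 F.c,
    F.w s ≤ 31 / 20 * (ε * t) * F.y s + K.om * ε ^ 2 := by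
  intro s hs
  have h1 := h.wV k s hs
  have h2 := h.z2y s hs
  have h3 := h.Γup k s hs
  have he := h.bs.e0
  have hB0 := h.bs.B0
  have h4 : 31 / 20 * (ε * B) * (F.z s ^ 2 / F.y s) ≤ 31 / 20 * (ε * t) * F.y s := by
    calc 31 / 20 * (ε * B) * (F.z s ^ 2 / F.y s) ≤ 31 / 20 * (ε * B) * (F.y s / 32) := by gcongr
      _ = _ := by rw [h.bs.t_eq]; ring
  have h5 : 76 / 100 * ε ^ 2 * Real.exp (F.Γ s) ≤ K.om * ε ^ 2 := by
    calc 76 / 100 * ε ^ 2 * Real.exp (F.Γ s) ≤ 76 / 100 * ε ^ 2 * Real.exp K.Gam := by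
          gcongr
      _ = (76 / 100 * Real.exp K.Gam) * ε ^ 2 := by ring
      _ ≤ _ := mul_le_mul_of_nonneg_right k.om (sq_nonneg _)
  linarith

lemma w34 (h : W B t ε K F) (k : Ok B t ε K) : ∀ s ∈ Ico 0 F.c, |F.w s| ≤ 34 / 100 * ε := by
  intro s hs
  have h1 := h.wup k s hs
  have h2 := h.wlow s hs
  have h3 := k.om1
  have he := h.bs.e0
  have heu := h.bs.eu
  have ht := h.bs.t0
  rw [abs_le]
  constructor
  · nlinarith
  · have h4 := h.yX k s hs
    calc F.w s ≤ 31 / 20 * (ε * t) * K.X + K.om * ε ^ 2 := by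
          refine h1.trans ?_
          gcongr
      _ = (31 / 20 * t * K.X + K.om * ε) * ε := by ring
      _ ≤ _ := mul_le_mul_of_nonneg_right h3 he.le

lemma wearly (h : W B t ε K F) (k : Ok B t ε K) : ∀ s ∈ Ico 0 F.c, F.φ s ≤ 1 / 2 →
    |F.w s| ≤ 3 / 1000 * ε := by
  intro s hs hφ
  have h1 := h.wV k s hs
  have h2 := h.wlow s hs
  have h3 := h.Γquart k s hs hφ
  have he := h.bs.e0
  have heu := h.bs.eu
  have hB0 := h.bs.B0
  have hBu := h.bs.Bu
  have hz := h.zzh k s hs hφ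
  have hzl := h.zlow k s hs
  have hz1 := k.zh1
  have hy := h.hy s hs
  have hy15 := h.y15 k s hs
  rw [abs_le]
  constructor
  · nlinarith
  · have h4 : F.z s ^ 2 ≤ (6 / 1000) ^ 2 := by
      apply sq_le_sq'
      · nlinarith
      · linarith
    have h5 : F.z s ^ 2 / F.y s ≤ (6 / 1000) ^ 2 / (15 / 100) := by gcongr
    have h6 : 31 / 20 * (ε * B) * (F.z s ^ 2 / F.y s) ≤
        31 / 20 * (ε * (565686 / 100000)) * ((6 / 1000) ^ 2 / (15 / 100)) := by gcongr
    have h7 : Real.exp (F.Γ s) ≤ 4 / 3 := by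
      calc Real.exp (F.Γ s) ≤ Real.exp (1 / 4) := Real.exp_le_exp.2 h3
        _ ≤ 1 / (1 - 1 / 4) := by
            apply Real.exp_bound_div_one_sub_of_interval (by norm_num) (by norm_num)
        _ = _ := by norm_num
    have h8 : 76 / 100 * ε ^ 2 * Real.exp (F.Γ s) ≤ 76 / 100 * ε ^ 2 * (4 / 3) := by gcongr
    nlinarith

set_option maxHeartbeats 4000000 in
/-- lower bound of `z` -/
lemma zJ (h : W B t ε K F) (k : Ok B t ε K) : ∀ s ∈ Ico 0 F.c, 1 / 2 ≤ F.φ s →
    ε * t * K.Jlow ≤ F.z s * Real.exp (-(B * F.φ s)) := by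
  intro s hs hφ
  obtain ⟨r, hr, hrφ⟩ := h.half s hs hφ
  have hr' : r ∈ Ico 0 F.c := ⟨hr.1, hr.2.trans_lt hs.2⟩
  have he := h.bs.e0
  have heu := h.bs.eu
  have hel := h.bs.el
  have hB0 := h.bs.B0
  have ht := h.bs.t0
  set d0 := t - K.Kh - B * ε * K.zh / 2 with hd0
  set A1 := t + K.dy + ε * K.X with hA1
  let P : ℝ → ℝ := fun q => d0 + K.A0 * q - A1 * q ^ 2 / 2 - K.X * q ^ 3 / 6
  let Q : ℝ → ℝ := fun q => d0 + K.A0 * q - A1 * q ^ 2 / 2 - K.X * q ^ 3 / 6 +
    t * (K.A0 - A1 * q - K.X * q ^ 2 / 2) + t ^ 2 * (-A1 - K.X * q) - t ^ 3 * K.X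
  have hQ : ∀ s ∈ Ico 0 F.c, RD (fun s => Q (F.φ s)) ((K.A0 - A1 * F.φ s - K.X * F.φ s ^ 2 / 2 +
      t * (-A1 - K.X * F.φ s) - t ^ 2 * K.X) * F.y s) s := by
    intro q hq
    have d1 := h.dφ q hq
    have := (((((d1.const_mul K.A0).const_add d0).fun_sub ((d1.fun_pow 2).const_mul (A1 / 2))).fun_sub
      ((d1.fun_pow 3).const_mul (K.X / 6))).fun_add ((((d1.const_mul A1).const_sub K.A0).fun_sub
      ((d1.fun_pow 2).const_mul (K.X / 2))).const_mul t)).fun_add
      (((d1.const_mul K.X).const_sub (-A1)).const_mul (t ^ 2)) |>.sub_const (t ^ 3 * K.X)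
    refine (this.congr_of_eventuallyEq ?_ ?_).congr_deriv ?_
    · filter_upwards with x
      simp only [Q]
      ring
    · simp only [Q]
      ring
    · push_cast
      ring
  have hE1 : ∀ q ∈ Ico 0 F.c, F.φ q ≤ 1 / 2 →
      F.m2 * F.z q + 32 * F.w q * (ε * F.z q + F.w q) ≤ 11 / 10 ^ 4 * ε ^ 2 := by
    intro q hq hφq
    have a1 := h.wearly k q hq hφq
    have a2 : |F.z q| ≤ 6 / 1000 := by
      rw [abs_le]
      constructor
      · have := h.zlow k q hq
        nlinarith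
      · exact (h.zzh k q hq hφq).trans k.zh1
    have a3 : |32 * F.w q * (ε * F.z q + F.w q)| ≤ 32 * (3 / 1000 * ε) * (9 / 1000 * ε) := by
      rw [abs_mul, abs_mul]
      have e32 : |(32 : ℝ)| = 32 := by norm_num
      rw [e32]
      have : |ε * F.z q + F.w q| ≤ 9 / 1000 * ε := by
        refine (abs_add_le _ _).trans ?_
        rw [abs_mul, abs_of_pos he]
        have : ε * |F.z q| ≤ ε * (6 / 1000) := by gcongr
        linarith
      gcongr
    have a4 := (abs_le.1 a3).2
    have a5 : F.m2 * F.z q ≤ 1 / 10 ^ 4 * ε ^ 2 := by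
      calc F.m2 * F.z q ≤ F.m2 * (6 / 1000) :=
            mul_le_mul_of_nonneg_left ((le_abs_self _).trans a2) h.m2n
        _ ≤ 1 / 10 ^ 12 * (6 / 1000) := mul_le_mul_of_nonneg_right h.m2s (by norm_num)
        _ ≤ 1 / 10 ^ 4 * (4545 / 10000000) ^ 2 := by norm_num
        _ ≤ _ := by gcongr
    have a6 : 0 < ε ^ 2 := by positivity
    nlinarith
  have h1 := mono_of_rd (f := fun s => F.z s * Real.exp (-(B * F.φ s)) +
      ε * Q (F.φ s) * Real.exp (-(B * F.φ s)) + 11 / 10 ^ 4 * ε ^ 2 * s)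
    (f' := fun s => Real.exp (-(B * F.φ s)) * (B * ε * F.y s * (F.y s - P (F.φ s)) -
      (F.m2 * F.z s + 32 * F.w s * (ε * F.z s + F.w s))) + 11 / 10 ^ 4 * ε ^ 2)
    (a := 0) (b := r)
    (by
      have hcφ := h.cφ.mono (Icc_subset_Icc_right hr'.2.le)
      have hcz := h.cz.mono (Icc_subset_Icc_right hr'.2.le)
      simp only [Q]
      fun_prop)
    (fun q hq => by
      have hq' : q ∈ Ico 0 F.c := ⟨hq.1, hq.2.trans hr'.2⟩
      have hE := (((h.dφ q hq').const_mul B).fun_neg).exp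
      have := (((h.dz q hq').fun_mul hE).fun_add (((hQ q hq').const_mul ε).fun_mul hE)).fun_add
        ((hasDerivAt_id' q).const_mul (11 / 10 ^ 4 * ε ^ 2)).hasDerivWithinAt
      refine this.congr_deriv ?_
      have htB : t * B = 1 := h.bs.tB
      simp only [P, Q]
      have e1 : t * B - 1 = 0 := by rw [htB, sub_self]
      linear_combination (-(ε * F.y q * Real.exp (-(B * F.φ q))) * ((K.A0 - A1 * F.φ q -
        K.X * F.φ q ^ 2 / 2) + t * (-A1 - K.X * F.φ q) - t ^ 2 * K.X)) * e1)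
    (fun q hq => by
      have hq' : q ∈ Ico 0 F.c := ⟨hq.1, hq.2.trans hr'.2⟩
      have hφq : F.φ q ≤ 1 / 2 := by
        rw [← hrφ]
        exact h.φmono hq' ⟨hq.2.le, hr'.2⟩
      have a1 := hE1 q hq' hφq
      have a2 := h.yPl k q hq' hφq
      have hy := h.hy q hq'
      have a3 : 0 ≤ B * ε * F.y q * (F.y q - P (F.φ q)) := by
        apply mul_nonneg (by positivity)
        simp only [P]
        linarith
      have hE0 := Real.exp_pos (-(B * F.φ q))
      have hE : Real.exp (-(B * F.φ q)) ≤ 1 := by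
        rw [Real.exp_le_one_iff]
        have := mul_nonneg h.bs.B0.le (h.φn q hq')
        linarith
      have a4 : Real.exp (-(B * F.φ q)) * (F.m2 * F.z q + 32 * F.w q * (ε * F.z q + F.w q)) ≤
          11 / 10 ^ 4 * ε ^ 2 := by
        calc _ ≤ Real.exp (-(B * F.φ q)) * (11 / 10 ^ 4 * ε ^ 2) := by gcongr
          _ ≤ 1 * (11 / 10 ^ 4 * ε ^ 2) := by gcongr
          _ = _ := one_mul _
      have a5 := mul_nonneg hE0.le a3
      nlinarith) r ⟨hr.1, le_rfl⟩
  simp only [h.φ0, hrφ, mul_zero, neg_zero, Real.exp_zero, mul_one, add_zero] at h1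
  have eB : B * (1 / 2) = B / 2 := by ring
  rw [eB] at h1
  have h2 : ε * t * K.Jlow ≤ F.z r * Real.exp (-(B / 2)) := by
    have a1 := k.Jlow
    have a2 := h.z0l
    have a3 : 11 / 10 ^ 4 * ε ^ 2 * r ≤ 1 / 100 * ε ^ 2 := by
      have : r ≤ 17 / 5 := hr'.2.le.trans h.hc'
      have : 0 < ε ^ 2 := by positivity
      nlinarith
    have a4 := mul_le_mul_of_nonneg_left a1 he.le
    rw [← hd0, ← hA1] at a4
    have e1 : Q 0 = d0 + t * K.A0 - t ^ 2 * A1 - t ^ 3 * K.X := by simp only [Q]; ring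
    have e2 : Q (1 / 2) = d0 + K.A0 / 2 - A1 / 8 - K.X / 48 + t * (K.A0 - A1 / 2 - K.X / 8)
      - t ^ 2 * (A1 + K.X / 2) - t ^ 3 * K.X := by simp only [Q]; ring
    rw [e1, e2] at h1
    nlinarith
  have h3 := mono' (f := fun s => F.z s * Real.exp (-(B * F.φ s)))
    (f' := fun s => Real.exp (-(B * F.φ s)) * (B * ε * F.y s ^ 2 -
      (F.m2 * F.z s + 32 * F.w s * (ε * F.z s + F.w s)))) (a := r) (c := F.c)
    (by
      have hsub : Ico r F.c ⊆ Icc 0 F.c := fun q hq => ⟨hr.1.trans hq.1, hq.2.le⟩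
      have hcφ := h.cφ.mono hsub
      have hcz := h.cz.mono hsub
      fun_prop)
    (fun q hq => by
      have hq' : q ∈ Ico 0 F.c := ⟨hr.1.trans hq.1, hq.2⟩
      have hE := (((h.dφ q hq').const_mul B).fun_neg).exp
      refine ((h.dz q hq').fun_mul hE).congr_deriv ?_
      ring)
    (fun q hq => by
      have hq' : q ∈ Ico 0 F.c := ⟨hr.1.trans hq.1, hq.2⟩
      apply mul_nonneg (Real.exp_pos _).le
      have hy := h.y15 k q hq'
      have hzb := (abs_le.1 (h.zb q hq')).2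
      have hE := (abs_le.1 (h.zww q hq')).2
      have hBl := h.bs.Bl
      have b3 : F.m2 * F.z q ≤ ε ^ 2 := by
        calc F.m2 * F.z q ≤ F.m2 * (36 / 100) := mul_le_mul_of_nonneg_left hzb h.m2n
          _ ≤ 1 / 10 ^ 12 * (36 / 100) := mul_le_mul_of_nonneg_right h.m2s (by norm_num)
          _ ≤ (4545 / 10000000) ^ 2 := by norm_num
          _ ≤ ε ^ 2 := by gcongr
      have b4 : (565685 / 100000) * ε * (15 / 100) ^ 2 ≤ B * ε * F.y q ^ 2 := by gcongr
      nlinarith) s ⟨hr.2, hs.2⟩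
  simp only [hrφ] at h3
  rw [eB] at h3
  linarith

lemma C2 (h : W B t ε K F) (k : Ok B t ε K) : ∀ s ∈ Ico 0 F.c,
    ε * K.Jlow * Real.exp (B * F.φ s) ≤ K.X := by
  intro s hs
  have he := h.bs.e0
  have ht := h.bs.t0
  rcases le_total (F.φ s) (1 / 2) with hφ | hφ
  · have h1 : Real.exp (B * F.φ s) ≤ Real.exp (B / 2) := by
      apply Real.exp_le_exp.2
      have := mul_le_mul_of_nonneg_left hφ h.bs.B0.le
      linarith
    have h2 := k.JB h.bs
    have h3 : B * K.zh ≤ 1 := by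
      have h5 := h.bs.Bu
      have h6 := k.zh1
      have := h.bs.B0
      nlinarith
    have h4 := k.Jlow1
    have h0 := k.Jlow0
    have hJ1 := k.J1 h.bs
    calc ε * K.Jlow * Real.exp (B * F.φ s) ≤ ε * K.Jup * Real.exp (B / 2) := by gcongr
      _ = K.Jup * ε * Real.exp (B / 2) := by ring
      _ ≤ K.X := by linarith [k.X0]
  · have h1 := h.zJ k s hs hφ
    have h2 := (le_abs_self _).trans (h.hz s hs).le
    have h3 := h.yX k s hs
    have c6 : Real.exp (-(B * F.φ s)) * Real.exp (B * F.φ s) = 1 := by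
      rw [← Real.exp_add]; simp
    have h4 := mul_le_mul_of_nonneg_right h1 (Real.exp_pos (B * F.φ s)).le
    rw [mul_assoc (F.z s), c6, mul_one] at h4
    have h5 : t * (ε * K.Jlow * Real.exp (B * F.φ s)) ≤ t * K.X := by
      calc t * (ε * K.Jlow * Real.exp (B * F.φ s)) = ε * t * K.Jlow * Real.exp (B * F.φ s) := by
            ring
        _ ≤ F.z s := h4
        _ ≤ t * F.y s := h2
        _ ≤ _ := by gcongr
    exact le_of_mul_le_mul_left h5 ht

end W

end Pool.Agent.H42.Two
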