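import Pool.Agent.H42.Two.Est4

/-!
The angle, the duration of a stage, the final state of a stage.
-/

open Set Filter Topology

namespace Pool.Agent.H42.Two

open Pool.Agent.H42.Mix (RD mono_of_rd lip_of_rd)

variable {B t ε : ℝ} {K : Cs} {F : Fn}

lemma arctan_le {u : ℝ} (hu : 0 ≤ u) : Real.arctan u ≤ u := by
  have h1 := mono_of_rd (f := fun x => x - Real.arctan x) (f' := fun x => 1 - 1 / (1 + x ^ 2))
    (a := 0) (b := u) (by fun_prop)
    (fun x _ => ((hasDerivAt_id' x).fun_sub (Real.hasDerivAt_arctan x)).hasDerivWithinAt)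
    (fun x _ => by
      have : 1 / (1 + x ^ 2) ≤ 1 := by
        rw [div_le_one (by positivity)]
        nlinarith [sq_nonneg x]
      linarith) u ⟨hu, le_rfl⟩
  simp only [Real.arctan_zero, sub_self] at h1
  linarith

lemma arctan_ge {u : ℝ} (hu : 0 ≤ u) : u / (1 + u ^ 2) ≤ Real.arctan u := by
  have h1 := mono_of_rd (f := fun x => Real.arctan x - x / (1 + x ^ 2))
    (f' := fun x => 1 / (1 + x ^ 2) - (1 * (1 + x ^ 2) - x * (2 * x)) / (1 + x ^ 2) ^ 2)
    (a := 0) (b := u)
    (by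
      apply ContinuousOn.sub Real.continuous_arctan.continuousOn
      apply ContinuousOn.div continuousOn_id (by fun_prop)
      intro x _
      positivity)
    (fun x _ => by
      have h2 : HasDerivAt (fun x : ℝ => 1 + x ^ 2) (2 * x) x := by
        simpa using ((hasDerivAt_id' x).fun_pow 2).const_add 1
      exact ((Real.hasDerivAt_arctan x).fun_sub ((hasDerivAt_id' x).fun_div h2
        (by positivity))).hasDerivWithinAt)
    (fun x _ => by
      have : 1 / (1 + x ^ 2) - (1 * (1 + x ^ 2) - x * (2 * x)) / (1 + x ^ 2) ^ 2 =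
        2 * x ^ 2 / (1 + x ^ 2) ^ 2 := by
        field_simp
        ring
      rw [this]
      positivity) u ⟨hu, le_rfl⟩
  simp only [Real.arctan_zero, zero_div, sub_self] at h1
  linarith

lemma hmono {a u : ℝ} (ht : 0 ≤ t) (hau : a ≤ u) (hu : t * u ≤ 1) :
    Real.arctan a - t / 2 * Real.log (1 + a ^ 2) ≤ Real.arctan u - t / 2 * Real.log (1 + u ^ 2) := by
  exact mono_of_rd (f := fun x => Real.arctan x - t / 2 * Real.log (1 + x ^ 2))
    (f' := fun x => 1 / (1 + x ^ 2) - t / 2 * (2 * x / (1 + x ^ 2)))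
    (a := a) (b := u)
    (by
      apply ContinuousOn.sub Real.continuous_arctan.continuousOn
      apply ContinuousOn.mul continuousOn_const
      apply ContinuousOn.log (by fun_prop)
      intro x _
      positivity)
    (fun x _ => by
      have h2 : HasDerivAt (fun x : ℝ => 1 + x ^ 2) (2 * x) x := by
        simpa using ((hasDerivAt_id' x).fun_pow 2).const_add 1
      exact ((Real.hasDerivAt_arctan x).fun_sub ((h2.log (by positivity)).const_mul
        (t / 2))).hasDerivWithinAt)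
    (fun x hx => by
      have : 1 / (1 + x ^ 2) - t / 2 * (2 * x / (1 + x ^ 2)) = (1 - t * x) / (1 + x ^ 2) := by
        field_simp
      rw [this]
      apply div_nonneg _ (by positivity)
      have h3 : t * x ≤ t * u := mul_le_mul_of_nonneg_left hx.2.le ht
      linarith) u ⟨hau, le_rfl⟩

namespace W

/-- the error term in the rotation -/
noncomputable def Te (B t ε : ℝ) (F : Fn) (s : ℝ) : ℝ :=
  t * F.p s * (F.x s + ε * F.p s) * F.y s + B * F.x s * F.z s * (ε * F.y s + F.z s) +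
    (F.m1 - F.m0) * (F.x s * F.y s)

lemma dxy (h : W B t ε K F) : ∀ s ∈ Ico 0 F.c, RD (fun s => F.x s / F.y s)
    ((-(F.y s + ε * F.x s) * (F.x s ^ 2 + F.y s ^ 2) + Te B t ε F s) / F.y s ^ 2) s := by
  intro s hs
  have hy := h.hy s hs
  refine ((h.dx s hs).fun_div (h.dy s hs) hy.ne').congr_deriv ?_
  congr 1
  simp only [Te]
  ring

lemma dAt (h : W B t ε K F) : ∀ s ∈ Ico 0 F.c, RD (fun s => Real.arctan (F.x s / F.y s))
    (-(F.y s + ε * F.x s) + Te B t ε F s / (F.x s ^ 2 + F.y s ^ 2)) s := by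
  intro s hs
  have hy := h.hy s hs
  have hx := h.hx s hs
  refine (h.dxy s hs).arctan.congr_deriv ?_
  field_simp
  ring

lemma dAs (h : W B t ε K F) : ∀ s ∈ Ico 0 F.c, RD (fun s => Real.arsinh (F.x s / F.y s))
    (-(F.y s + ε * F.x s) * Real.sqrt (F.x s ^ 2 + F.y s ^ 2) / F.y s +
      Te B t ε F s / (F.y s * Real.sqrt (F.x s ^ 2 + F.y s ^ 2))) s := by
  intro s hs
  have hy := h.hy s hs
  have hx := h.hx s hs
  refine (h.dxy s hs).arsinh.congr_deriv ?_
  have hR : 0 < F.x s ^ 2 + F.y s ^ 2 := by positivity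
  set R := Real.sqrt (F.x s ^ 2 + F.y s ^ 2) with hRd
  have hR2 : R ^ 2 = F.x s ^ 2 + F.y s ^ 2 := Real.sq_sqrt hR.le
  have hR0 : 0 < R := Real.sqrt_pos.2 hR
  have e : Real.sqrt (1 + (F.x s / F.y s) ^ 2) = R / F.y s := by
    rw [Real.sqrt_eq_iff_mul_self_eq (by positivity) (by positivity)]
    have : R / F.y s * (R / F.y s) = R ^ 2 / F.y s ^ 2 := by ring
    rw [this, hR2]
    field_simp
    ring
  rw [e, smul_eq_mul, ← hR2]
  field_simp

lemma pl0 (k : Ok B t ε K) : 0 ≤ K.a2 - K.pa := k.Pl0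

lemma P0 (h : W B t ε K F) (k : Ok B t ε K) : 0 ≤ K.pb + K.a1 := by
  have h1 := k.a1
  have h2 := k.pa0.trans k.pab
  have h3 : 0 ≤ K.a1 := by
    refine le_trans ?_ k.a1
    have := h.bs.t0
    have := h.bs.e0
    have := k.kq0
    have := k.X0
    have := k.Pw0
    positivity
  linarith

lemma Tlow (h : W B t ε K F) (k : Ok B t ε K) : ∀ s ∈ Ico 0 F.c,
    -(t * (K.a2 - K.pa) * (F.x s * F.y s)) - 12 / 10 ^ 9 ≤ Te B t ε F s := by
  intro s hs
  have hy := h.hy s hs
  have hy2 := h.hy2 s hs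
  have hx := h.hx s hs
  have hx2 := h.hx2 s hs
  have ht := h.bs.t0
  have he := h.bs.e0
  have hB := h.bs.B0
  have hBu := h.bs.Bu
  have hp := h.pl k s hs
  have hzz := h.zz k s hs
  have a1 : 0 ≤ t * (F.p s + (K.a2 - K.pa)) * (F.x s * F.y s) := by
    apply mul_nonneg (mul_nonneg ht.le (by linarith)) (by positivity)
  have a2 : 0 ≤ t * ε * F.p s ^ 2 * F.y s := by positivity
  have a3 : -(1134 / 10 ^ 11) ≤ B * F.x s * (F.z s * (ε * F.y s + F.z s)) := by
    have b1 : B * F.x s ≤ 1134 / 100 := by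
      calc B * F.x s ≤ (565686 / 100000) * 2 := by gcongr
        _ ≤ _ := by norm_num
    have b2 : B * F.x s * (-(F.z s * (ε * F.y s + F.z s))) ≤ 1134 / 100 * (1 / 10 ^ 9) := by
      rcases le_total 0 (F.z s * (ε * F.y s + F.z s)) with hc | hc
      · have : B * F.x s * (-(F.z s * (ε * F.y s + F.z s))) ≤ 0 :=
          mul_nonpos_of_nonneg_of_nonpos (by positivity) (by linarith)
        refine this.trans (by norm_num)
      · exact mul_le_mul b1 (by linarith) (by linarith) (by norm_num)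
    norm_num at b2 ⊢
    linarith
  have a4 : -(4 / 10 ^ 12) ≤ (F.m1 - F.m0) * (F.x s * F.y s) := by
    have b1 : F.x s * F.y s ≤ 4 := by nlinarith
    have b2 : 0 ≤ F.m1 * (F.x s * F.y s) := mul_nonneg h.m1n (by positivity)
    have b3 : F.m0 * (F.x s * F.y s) ≤ 1 / 10 ^ 12 * 4 :=
      mul_le_mul h.m0s b1 (by positivity) (by norm_num)
    have : (F.m1 - F.m0) * (F.x s * F.y s) = F.m1 * (F.x s * F.y s) - F.m0 * (F.x s * F.y s) := by
      ring
    rw [this]
    norm_num at b3 ⊢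
    linarith
  simp only [Te]
  norm_num at a3 a4 ⊢
  linarith

/-- `(y + κ + ε X φ)' ≥ x y` -/
lemma Mlow (h : W B t ε K F) (k : Ok B t ε K) : ∀ s ∈ Ico 0 F.c,
    F.x s * F.y s - 2 / 10 ^ 12 ≤ (F.x s * (ε * F.x s + F.y s) - F.m1 * F.y s
      - B * F.z s * (ε * F.y s + F.z s)) + B * F.z s ^ 2 + ε * K.X * F.y s := by
  intro s hs
  have hy := h.hy s hs
  have hy2 := h.hy2 s hs
  have hyX := h.yX k s hs
  have he := h.bs.e0
  have hBz := h.Bz s hs
  have b1 : B * F.z s ≤ F.y s := by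
    calc B * F.z s ≤ B * |F.z s| := mul_le_mul_of_nonneg_left (le_abs_self _) h.bs.B0.le
      _ ≤ _ := hBz
  have b2 : 0 ≤ ε * F.y s * (F.y s - B * F.z s) := mul_nonneg (by positivity) (by linarith)
  have b3 : 0 ≤ ε * F.y s * (K.X - F.y s) := mul_nonneg (by positivity) (by linarith)
  have b4 : F.m1 * F.y s ≤ 1 / 10 ^ 12 * 2 := mul_le_mul h.m1s hy2.le hy.le (by norm_num)
  have b5 : 0 ≤ ε * F.x s ^ 2 := by positivity
  norm_num at b4 ⊢
  nlinarith

lemma cAt (h : W B t ε K F) : ContinuousOn (fun s => Real.arctan (F.x s / F.y s)) (Ico 0 F.c) :=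
  Real.continuous_arctan.comp_continuousOn ((cI h.cx).div (cI h.cy) (fun r hr => (h.hy r hr).ne'))

lemma B_inv (hb : Bs B t ε) : B = t⁻¹ := by
  have := hb.tB
  have := hb.t0
  field_simp
  linarith

lemma xy0 (h : W B t ε K F) : F.x 0 / F.y 0 = B := by
  rw [h.x0, h.y0, one_div, ← B_inv h.bs]

/-- lower bound of the polar angle -/
lemma Atlow (h : W B t ε K F) (k : Ok B t ε K) : ∀ s ∈ Ico 0 F.c,
    Real.arctan B - F.φ s - ε * F.ψ s - t * (K.a2 - K.pa) / K.R2 * (F.y s - t + F.κ s +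
      ε * K.X * F.φ s) - 1 / 10 ^ 7 * s ≤ Real.arctan (F.x s / F.y s) := by
  have hR20 : 0 < K.R2 := by linarith [k.R20]
  have hpl := k.Pl0
  have ht := h.bs.t0
  have htu := h.bs.tu
  have h1 := mono' (f := fun s => Real.arctan (F.x s / F.y s) + F.φ s + ε * F.ψ s +
      t * (K.a2 - K.pa) / K.R2 * (F.y s + F.κ s + ε * K.X * F.φ s) + 1 / 10 ^ 7 * s)
    (f' := fun s => (-(F.y s + ε * F.x s) + Te B t ε F s / (F.x s ^ 2 + F.y s ^ 2)) + F.y s +
      ε * F.x s + t * (K.a2 - K.pa) / K.R2 * ((F.x s * (ε * F.x s + F.y s) - F.m1 * F.y s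
      - B * F.z s * (ε * F.y s + F.z s)) + B * F.z s ^ 2 + ε * K.X * F.y s) + 1 / 10 ^ 7)
    (a := 0) (c := F.c)
    ((((h.cAt.add (cI h.cφ)).add (continuousOn_const.mul (cI h.cψ))).add
      (continuousOn_const.mul (((cI h.cy).add (cI h.cκ)).add (continuousOn_const.mul
      (cI h.cφ))))).add (by fun_prop))
    (fun r hr => by
      have := ((((h.dAt r hr).fun_add (h.dφ r hr)).fun_add ((h.dψ r hr).const_mul ε)).fun_add
        ((((h.dy r hr).fun_add (h.dκ r hr)).fun_add ((h.dφ r hr).const_mul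
        (ε * K.X))).const_mul (t * (K.a2 - K.pa) / K.R2))).fun_add
        ((hasDerivAt_id' r).const_mul (1 / 10 ^ 7 : ℝ)).hasDerivWithinAt
      refine this.congr_deriv ?_
      ring)
    (fun r hr => by
      have hy := h.hy r hr
      have hx := h.hx r hr
      have hT := h.Tlow k r hr
      have hM := h.Mlow k r hr
      have hR := h.r2l k r hr
      have hR0 : 0 < F.x r ^ 2 + F.y r ^ 2 := by positivity
      have a1 : -(t * (K.a2 - K.pa) / K.R2 * (F.x r * F.y r)) - 16 / 10 ^ 9 ≤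
          Te B t ε F r / (F.x r ^ 2 + F.y r ^ 2) := by
        have b1 : (t * (K.a2 - K.pa) * (F.x r * F.y r) + 12 / 10 ^ 9) / (F.x r ^ 2 + F.y r ^ 2) ≤
            (t * (K.a2 - K.pa) * (F.x r * F.y r) + 12 / 10 ^ 9) / K.R2 := by
          apply div_le_div_of_nonneg_left _ hR20 hR
          have : 0 ≤ t * (K.a2 - K.pa) * (F.x r * F.y r) := by positivity
          positivity
        have b2 : -(t * (K.a2 - K.pa) * (F.x r * F.y r) + 12 / 10 ^ 9) /
            (F.x r ^ 2 + F.y r ^ 2) ≤ Te B t ε F r / (F.x r ^ 2 + F.y r ^ 2) := by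
          apply div_le_div_of_nonneg_right _ hR0.le
          linarith
        have b3 : (12 / 10 ^ 9 : ℝ) / K.R2 ≤ 16 / 10 ^ 9 := by
          rw [div_le_iff₀ hR20]
          have := k.R20
          norm_num
          linarith
        have b4 : (t * (K.a2 - K.pa) * (F.x r * F.y r) + 12 / 10 ^ 9) / K.R2 =
          t * (K.a2 - K.pa) / K.R2 * (F.x r * F.y r) + (12 / 10 ^ 9 : ℝ) / K.R2 := by ring
        rw [neg_div] at b2
        linarith
      have a2 : t * (K.a2 - K.pa) / K.R2 * (F.x r * F.y r - 2 / 10 ^ 12) ≤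
          t * (K.a2 - K.pa) / K.R2 * ((F.x r * (ε * F.x r + F.y r) - F.m1 * F.y r
          - B * F.z r * (ε * F.y r + F.z r)) + B * F.z r ^ 2 + ε * K.X * F.y r) := by
        apply mul_le_mul_of_nonneg_left hM (by positivity)
      have a3 : t * (K.a2 - K.pa) / K.R2 ≤ 1 := by
        rw [div_le_one hR20]
        have h1 := k.Pl2
        have h2 := k.Pw1
        have h3 := k.R20
        have : t * (K.a2 - K.pa) ≤ (176777 / 1000000) * (7 / 10) := by
          apply mul_le_mul htu (by linarith) hpl (by norm_num)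
        linarith
      have a4 : t * (K.a2 - K.pa) / K.R2 * (2 / 10 ^ 12) ≤ 2 / 10 ^ 12 := by
        have : (0 : ℝ) ≤ 2 / 10 ^ 12 := by norm_num
        nlinarith
      norm_num at a1 a2 a4 ⊢
      linarith)
  intro s hs
  have h2 := h1 s hs
  rw [h.xy0] at h2
  simp only [h.φ0, h.ψ0, h.κ0, h.y0, mul_zero, add_zero] at h2
  linarith

end W

end Pool.Agent.H42.Two
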