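import Pool.Agent.H42.Two.Est5

/-!
The duration of a stage and its final state.
-/

open Set Filter Topology

namespace Pool.Agent.H42.Two

open Pool.Agent.H42.Mix (RD mono_of_rd lip_of_rd)

variable {B t ε : ℝ} {K : Cs} {F : Fn}

namespace W

lemma p49 (h : W B t ε K F) (k : Ok B t ε K) : ∀ s ∈ Ico 0 F.c, F.p s ^ 2 ≤ 49 / 100 := by
  intro s hs
  have h1 := (h.hp s hs).le.trans k.Pw1
  rw [← sq_abs]
  calc |F.p s| ^ 2 ≤ (7 / 10) ^ 2 := pow_le_pow_left₀ (abs_nonneg _) h1 2
    _ = _ := by norm_num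

/-- upper bound of the error term -/
lemma Tup (h : W B t ε K F) (k : Ok B t ε K) : ∀ s ∈ Ico 0 F.c,
    Te B t ε F s ≤ t * (K.pb + K.a1) * (F.x s * F.y s) + ε * F.x s * F.y s ^ 2 +
      B * F.z s ^ 2 * F.x s + 84 / 10 ^ 6 := by
  intro s hs
  have hy := h.hy s hs
  have hy2 := h.hy2 s hs
  have hx := h.hx s hs
  have hx2 := h.hx2 s hs
  have ht := h.bs.t0
  have htu := h.bs.tu
  have he := h.bs.e0
  have heu := h.bs.eu
  have hp := h.pP k s hs
  have hp2 := h.p49 k s hs
  have hBz := h.Bz s hs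
  have b1 : B * F.z s ≤ F.y s := by
    calc B * F.z s ≤ B * |F.z s| := mul_le_mul_of_nonneg_left (le_abs_self _) h.bs.B0.le
      _ ≤ _ := hBz
  have a1 : 0 ≤ t * ((K.pb + K.a1) - F.p s) * (F.x s * F.y s) := by
    apply mul_nonneg (mul_nonneg ht.le (by linarith)) (by positivity)
  have a2 : t * ε * F.p s ^ 2 * F.y s ≤ 83 / 10 ^ 6 := by
    calc t * ε * F.p s ^ 2 * F.y s ≤ (176777 / 1000000) * (4762 / 10000000) * (49 / 100) * 2 := by
          gcongr
      _ ≤ _ := by norm_num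
  have a3 : 0 ≤ ε * F.x s * F.y s * (F.y s - B * F.z s) := by
    apply mul_nonneg (by positivity) (by linarith)
  have a4 : (F.m1 - F.m0) * (F.x s * F.y s) ≤ 4 / 10 ^ 12 := by
    have b1 : F.x s * F.y s ≤ 4 := by nlinarith
    have b2 : 0 ≤ F.m0 * (F.x s * F.y s) := mul_nonneg h.m0n (by positivity)
    have b3 : F.m1 * (F.x s * F.y s) ≤ 1 / 10 ^ 12 * 4 :=
      mul_le_mul h.m1s b1 (by positivity) (by norm_num)
    have : (F.m1 - F.m0) * (F.x s * F.y s) = F.m1 * (F.x s * F.y s) - F.m0 * (F.x s * F.y s) := by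
      ring
    rw [this]
    norm_num at b3 ⊢
    linarith
  simp only [Te]
  norm_num at a2 a4 ⊢
  linarith

/-- upper bound of the polar angle -/
lemma Atup (h : W B t ε K F) (k : Ok B t ε K) : ∀ s ∈ Ico 0 F.c,
    Real.arctan (F.x s / F.y s) ≤ Real.arctan B - F.φ s + t * (K.pb + K.a1) / K.R2 *
      (F.y s - t + F.κ s + ε * K.X * F.φ s) + K.X / K.R2 * F.κ s + 13 / 10 ^ 5 * s := by
  have hR20 : 0 < K.R2 := by linarith [k.R20]
  have hP0 := h.P0 k
  have ht := h.bs.t0
  have htu := h.bs.tu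
  have h1 := mono' (f := fun s => t * (K.pb + K.a1) / K.R2 * (F.y s + F.κ s + ε * K.X * F.φ s) +
      K.X / K.R2 * F.κ s + 13 / 10 ^ 5 * s - Real.arctan (F.x s / F.y s) - F.φ s)
    (f' := fun s => t * (K.pb + K.a1) / K.R2 * ((F.x s * (ε * F.x s + F.y s) - F.m1 * F.y s
      - B * F.z s * (ε * F.y s + F.z s)) + B * F.z s ^ 2 + ε * K.X * F.y s) +
      K.X / K.R2 * (B * F.z s ^ 2) + 13 / 10 ^ 5 - (-(F.y s + ε * F.x s) +
      Te B t ε F s / (F.x s ^ 2 + F.y s ^ 2)) - F.y s)
    (a := 0) (c := F.c)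
    (((((continuousOn_const.mul (((cI h.cy).add (cI h.cκ)).add (continuousOn_const.mul
      (cI h.cφ)))).add (continuousOn_const.mul (cI h.cκ))).add (by fun_prop)).sub h.cAt).sub
      (cI h.cφ))
    (fun r hr => by
      have := (((((((h.dy r hr).fun_add (h.dκ r hr)).fun_add ((h.dφ r hr).const_mul
        (ε * K.X))).const_mul (t * (K.pb + K.a1) / K.R2)).fun_add ((h.dκ r hr).const_mul
        (K.X / K.R2))).fun_add
        ((hasDerivAt_id' r).const_mul (13 / 10 ^ 5 : ℝ)).hasDerivWithinAt).fun_sub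
        (h.dAt r hr)).fun_sub (h.dφ r hr)
      refine this.congr_deriv ?_
      ring)
    (fun r hr => by
      have hy := h.hy r hr
      have hx := h.hx r hr
      have hxX := h.xX k r hr
      have he := h.bs.e0
      have hB0 := h.bs.B0
      have hT := h.Tup k r hr
      have hM := h.Mlow k r hr
      have hR := h.r2l k r hr
      have hX := k.X0
      have hR0 : 0 < F.x r ^ 2 + F.y r ^ 2 := by positivity
      have a1 : Te B t ε F r / (F.x r ^ 2 + F.y r ^ 2) ≤ t * (K.pb + K.a1) / K.R2 *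
          (F.x r * F.y r) + ε * F.x r + K.X / K.R2 * (B * F.z r ^ 2) + 12 / 10 ^ 5 := by
        have b0 : Te B t ε F r / (F.x r ^ 2 + F.y r ^ 2) ≤
            (t * (K.pb + K.a1) * (F.x r * F.y r) + ε * F.x r * F.y r ^ 2 +
            B * F.z r ^ 2 * F.x r + 84 / 10 ^ 6) / (F.x r ^ 2 + F.y r ^ 2) :=
          div_le_div_of_nonneg_right hT hR0.le
        have b1 : t * (K.pb + K.a1) * (F.x r * F.y r) / (F.x r ^ 2 + F.y r ^ 2) ≤
            t * (K.pb + K.a1) * (F.x r * F.y r) / K.R2 :=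
          div_le_div_of_nonneg_left (by positivity) hR20 hR
        have b2 : ε * F.x r * F.y r ^ 2 / (F.x r ^ 2 + F.y r ^ 2) ≤ ε * F.x r := by
          rw [div_le_iff₀ hR0]
          have : 0 ≤ ε * F.x r * F.x r ^ 2 := by positivity
          nlinarith
        have b3 : B * F.z r ^ 2 * F.x r / (F.x r ^ 2 + F.y r ^ 2) ≤
            B * F.z r ^ 2 * K.X / K.R2 := by
          calc B * F.z r ^ 2 * F.x r / (F.x r ^ 2 + F.y r ^ 2) ≤
              B * F.z r ^ 2 * F.x r / K.R2 := div_le_div_of_nonneg_left (by positivity) hR20 hR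
            _ ≤ _ := by gcongr
        have b4 : (84 / 10 ^ 6 : ℝ) / (F.x r ^ 2 + F.y r ^ 2) ≤ 12 / 10 ^ 5 := by
          rw [div_le_iff₀ hR0]
          have := k.R20
          norm_num
          linarith
        have e : (t * (K.pb + K.a1) * (F.x r * F.y r) + ε * F.x r * F.y r ^ 2 +
            B * F.z r ^ 2 * F.x r + 84 / 10 ^ 6) / (F.x r ^ 2 + F.y r ^ 2) =
            t * (K.pb + K.a1) * (F.x r * F.y r) / (F.x r ^ 2 + F.y r ^ 2) +
            ε * F.x r * F.y r ^ 2 / (F.x r ^ 2 + F.y r ^ 2) +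
            B * F.z r ^ 2 * F.x r / (F.x r ^ 2 + F.y r ^ 2) +
            (84 / 10 ^ 6 : ℝ) / (F.x r ^ 2 + F.y r ^ 2) := by ring
        rw [e] at b0
        have e2 : t * (K.pb + K.a1) * (F.x r * F.y r) / K.R2 =
          t * (K.pb + K.a1) / K.R2 * (F.x r * F.y r) := by ring
        have e3 : B * F.z r ^ 2 * K.X / K.R2 = K.X / K.R2 * (B * F.z r ^ 2) := by ring
        linarith
      have a2 : t * (K.pb + K.a1) / K.R2 * (F.x r * F.y r - 2 / 10 ^ 12) ≤
          t * (K.pb + K.a1) / K.R2 * ((F.x r * (ε * F.x r + F.y r) - F.m1 * F.y r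
          - B * F.z r * (ε * F.y r + F.z r)) + B * F.z r ^ 2 + ε * K.X * F.y r) := by
        apply mul_le_mul_of_nonneg_left hM (by positivity)
      have a3 : t * (K.pb + K.a1) / K.R2 ≤ 1 := by
        rw [div_le_one hR20]
        have h1 := k.Pl
        have h2 := k.Pw1
        have h3 := k.R20
        have : t * (K.pb + K.a1) ≤ (176777 / 1000000) * (7 / 10) := by
          apply mul_le_mul htu (by linarith) hP0 (by norm_num)
        linarith
      have a4 : t * (K.pb + K.a1) / K.R2 * (2 / 10 ^ 12) ≤ 2 / 10 ^ 12 := by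
        have : (0 : ℝ) ≤ 2 / 10 ^ 12 := by norm_num
        nlinarith
      norm_num at a1 a2 a4 ⊢
      linarith)
  intro s hs
  have h2 := h1 s hs
  rw [h.xy0] at h2
  simp only [h.φ0, h.κ0, h.y0, mul_zero, add_zero, sub_zero] at h2
  linarith

/-- the derivative of the hyperbolic angle -/
lemma dAs_le (h : W B t ε K F) (k : Ok B t ε K) : ∀ s ∈ Ico 0 F.c,
    -(F.y s + ε * F.x s) * Real.sqrt (F.x s ^ 2 + F.y s ^ 2) / F.y s +
      Te B t ε F s / (F.y s * Real.sqrt (F.x s ^ 2 + F.y s ^ 2)) ≤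
    -(K.r2 - t * (K.pb + K.a1) - 13 / 10 ^ 4) + B * F.z s ^ 2 / F.y s := by
  intro s hs
  have hy := h.hy s hs
  have hy15 := h.y15 k s hs
  have hyX := h.yX k s hs
  have hX2 := k.X2
  have hx := h.hx s hs
  have ht := h.bs.t0
  have he := h.bs.e0
  have heu := h.bs.eu
  have hB0 := h.bs.B0
  have hP0 := h.P0 k
  have hT := h.Tup k s hs
  have hRl := h.r2l k s hs
  have hr2 := k.r2
  have hr20 := k.r20
  have hR : 0 < F.x s ^ 2 + F.y s ^ 2 := by positivity
  set R := Real.sqrt (F.x s ^ 2 + F.y s ^ 2) with hRd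
  have hR2 : R ^ 2 = F.x s ^ 2 + F.y s ^ 2 := Real.sq_sqrt hR.le
  have hR0 : 0 < R := Real.sqrt_pos.2 hR
  have hRr : K.r2 ≤ R := by
    apply le_of_sq_le_sq _ hR0.le
    linarith
  have hxR : F.x s ≤ R := by
    apply le_of_sq_le_sq _ hR0.le
    nlinarith
  have a1 : -(F.y s + ε * F.x s) * R / F.y s ≤ -R := by
    rw [div_le_iff₀ hy]
    have : 0 ≤ ε * F.x s * R := by positivity
    nlinarith
  have a2 : Te B t ε F s / (F.y s * R) ≤ t * (K.pb + K.a1) + ε * F.y s +
      B * F.z s ^ 2 / F.y s + 84 / 10 ^ 6 / (F.y s * R) := by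
    have hyR : 0 < F.y s * R := by positivity
    rw [div_le_iff₀ hyR]
    have e : (t * (K.pb + K.a1) + ε * F.y s + B * F.z s ^ 2 / F.y s +
        84 / 10 ^ 6 / (F.y s * R)) * (F.y s * R) = t * (K.pb + K.a1) * (R * F.y s) +
        ε * R * F.y s ^ 2 + B * F.z s ^ 2 * R + 84 / 10 ^ 6 := by
      field_simp
    rw [e]
    have b1 : t * (K.pb + K.a1) * (F.x s * F.y s) ≤ t * (K.pb + K.a1) * (R * F.y s) := by gcongr
    have b2 : ε * F.x s * F.y s ^ 2 ≤ ε * R * F.y s ^ 2 := by gcongr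
    have b3 : B * F.z s ^ 2 * F.x s ≤ B * F.z s ^ 2 * R := by gcongr
    linarith
  have a3 : (84 / 10 ^ 6 : ℝ) / (F.y s * R) ≤ 701 / 10 ^ 6 := by
    have : (15 / 100 : ℝ) * (8 / 10) ≤ F.y s * R := by
      apply mul_le_mul hy15 (hr20.trans hRr) (by norm_num) hy.le
    rw [div_le_iff₀ (by positivity)]
    norm_num at this ⊢
    linarith
  have a4 : ε * F.y s ≤ 582 / 10 ^ 6 := by
    calc ε * F.y s ≤ (4762 / 10000000) * (122 / 100) := by
          apply mul_le_mul heu (hyX.trans hX2) hy.le (by norm_num)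
      _ ≤ _ := by norm_num
  have a5 : (701 / 10 ^ 6 : ℝ) + 582 / 10 ^ 6 ≤ 13 / 10 ^ 4 := by norm_num
  linarith

/-- the duration -/
lemma Tle (h : W B t ε K F) (k : Ok B t ε K) : ∀ s ∈ Ico 0 F.c,
    (K.r2 - t * (K.pb + K.a1) - 13 / 10 ^ 4) * s ≤
      Real.arsinh B + K.Kh / K.ymin + (K.X / 32 + 5 / 10 ^ 6) / K.ymid := by
  have hym := k.ym0
  have hymid : 0 < K.ymid := by linarith [k.ymid0]
  have hX := k.X0
  set ρ := K.r2 - t * (K.pb + K.a1) - 13 / 10 ^ 4 with hρ
  have hAs : ∀ s ∈ Ico 0 F.c, 0 < Real.arsinh (F.x s / F.y s) := fun s hs =>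
    Real.arsinh_pos_iff.2 (div_pos (h.hx s hs) (h.hy s hs))
  have cAs : ContinuousOn (fun s => Real.arsinh (F.x s / F.y s)) (Ico 0 F.c) :=
    ((cI h.cx).div (cI h.cy) (fun r hr => (h.hy r hr).ne')).arsinh
  have key : ∀ (m a : ℝ), 0 < m → 0 ≤ a → (∀ q ∈ Ico a F.c, m ≤ F.y q) → ∀ s ∈ Ico a F.c,
      Real.arsinh (F.x s / F.y s) + ρ * s - F.κ s / m ≤
      Real.arsinh (F.x a / F.y a) + ρ * a - F.κ a / m := by
    intro m a hm ha hy s hs
    have hsub : Ico a F.c ⊆ Ico 0 F.c := fun q hq => ⟨ha.trans hq.1, hq.2⟩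
    have h1 := mono' (f := fun s => F.κ s / m - Real.arsinh (F.x s / F.y s) - ρ * s)
      (f' := fun s => B * F.z s ^ 2 / m - (-(F.y s + ε * F.x s) *
        Real.sqrt (F.x s ^ 2 + F.y s ^ 2) / F.y s +
        Te B t ε F s / (F.y s * Real.sqrt (F.x s ^ 2 + F.y s ^ 2))) - ρ) (a := a) (c := F.c)
      (((((cI h.cκ).mono hsub).div_const m).sub (cAs.mono hsub)).sub (by fun_prop))
      (fun r hr => by
        have := (((h.dκ r (hsub hr)).div_const m).fun_sub (h.dAs r (hsub hr))).fun_sub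
          ((hasDerivAt_id' r).const_mul ρ).hasDerivWithinAt
        refine this.congr_deriv ?_
        ring)
      (fun r hr => by
        have h2 := h.dAs_le k r (hsub hr)
        have h3 : B * F.z r ^ 2 / F.y r ≤ B * F.z r ^ 2 / m := by
          apply div_le_div_of_nonneg_left _ hm (hy r hr)
          have := h.bs.B0
          positivity
        linarith) s hs
    linarith
  intro s hs
  have hs0 : (0 : ℝ) ∈ Ico 0 F.c := ⟨le_rfl, h.hc⟩
  have hKh0 : 0 ≤ K.Kh := by
    refine le_trans ?_ k.Kh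
    positivity
  rcases le_total (F.φ s) (1 / 2) with hφ | hφ
  · have h1 := key K.ymin 0 hym le_rfl (fun q hq => h.ylow k q hq) s hs
    have h2 := h.κKh k s hs hφ
    have h3 := hAs s hs
    have h4 : F.κ s / K.ymin ≤ K.Kh / K.ymin := by gcongr
    have h5 : 0 ≤ (K.X / 32 + 5 / 10 ^ 6) / K.ymid := by positivity
    rw [h.xy0, h.κ0, mul_zero, zero_div] at h1
    linarith
  · obtain ⟨r, hr, hrφ⟩ := h.half s hs hφ
    have hr' : r ∈ Ico 0 F.c := ⟨hr.1, hr.2.trans_lt hs.2⟩
    have h1 := key K.ymin 0 hym le_rfl (fun q hq => h.ylow k q hq) r hr'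
    have h2 := key K.ymid r hymid hr.1 (fun q hq => h.ymid k q ⟨hr.1.trans hq.1, hq.2⟩
      (by rw [← hrφ]; exact h.φmono hr' hq)) s ⟨hr.2, hs.2⟩
    have h3 := h.κKh k r hr' hrφ.le
    have h4 := hAs s hs
    have h5 : F.κ r / K.ymin ≤ K.Kh / K.ymin := by gcongr
    have h6 : 0 ≤ F.κ r / K.ymid := div_nonneg (h.κn r hr') hymid.le
    have h7 : F.κ s / K.ymid ≤ (K.X / 32 + 5 / 10 ^ 6) / K.ymid := by
      have := h.κup k s hs
      have := h.z2y s hs
      have := h.yX k s hs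
      gcongr
      norm_num at *
      linarith
    rw [h.xy0, h.κ0, mul_zero, zero_div] at h1
    linarith

/-- `p` decreases while `x` is large -/
lemma pend (h : W B t ε K F) (k : Ok B t ε K) : ∀ s ∈ Ico 0 F.c,
    F.p s ≤ K.pb + (K.kq + 7 / 10 ^ 4 + t * (45 / 100) ^ 2) * s -
      2 * t * (45 / 100) * Real.log (B * F.y s) := by
  have ht := h.bs.t0
  have htu := h.bs.tu
  have he := h.bs.e0
  have heu := h.bs.eu
  have hB0 := h.bs.B0
  have hBu := h.bs.Bu
  have h1 := mono' (f := fun s => (K.kq + 7 / 10 ^ 4 + t * (45 / 100) ^ 2) * s -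
      2 * t * (45 / 100) * Real.log (F.y s) - F.p s)
    (f' := fun s => (K.kq + 7 / 10 ^ 4 + t * (45 / 100) ^ 2) - 2 * t * (45 / 100) *
      ((F.x s * (ε * F.x s + F.y s) - F.m1 * F.y s
      - B * F.z s * (ε * F.y s + F.z s)) / F.y s) -
      (F.ep s - t * F.x s * (ε * F.p s + F.x s))) (a := 0) (c := F.c)
    ((ContinuousOn.sub (by fun_prop) (continuousOn_const.mul
      ((cI h.cy).log (fun r hr => (h.hy r hr).ne')))).sub (cI h.cp))
    (fun r hr => by
      have := (((hasDerivAt_id' r).const_mul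
        (K.kq + 7 / 10 ^ 4 + t * (45 / 100) ^ 2)).hasDerivWithinAt.fun_sub
        (((h.dy r hr).log (h.hy r hr).ne').const_mul (2 * t * (45 / 100)))).fun_sub (h.dp r hr)
      refine this.congr_deriv ?_
      ring)
    (fun r hr => by
      have hy := h.hy r hr
      have hy15 := h.y15 k r hr
      have hx := h.hx r hr
      have hxX := h.xX k r hr
      have hX2 := k.X2
      have hxB := h.xBy k r hr
      have hzz := h.zz k r hr
      have hep := (abs_le.1 (h.hep r hr)).2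
      have hp := (abs_le.1 ((h.hp r hr).le.trans k.Pw1)).1
      have a1 : (F.x r * (ε * F.x r + F.y r) - F.m1 * F.y r
          - B * F.z r * (ε * F.y r + F.z r)) / F.y r ≤ F.x r + 33 / 10 ^ 4 := by
        rw [div_le_iff₀ hy]
        have b1 : 0 ≤ F.m1 * F.y r := mul_nonneg h.m1n hy.le
        have b2 : ε * F.x r * F.x r ≤ 329 / 10 ^ 5 * F.y r := by
          calc ε * F.x r * F.x r ≤ ε * F.x r * (B * F.y r) := by gcongr
            _ = (ε * F.x r * B) * F.y r := by ring
            _ ≤ ((4762 / 10000000) * (122 / 100) * (565686 / 100000)) * F.y r := by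
              have : F.x r ≤ 122 / 100 := hxX.trans hX2
              gcongr
            _ ≤ _ := by
              apply mul_le_mul_of_nonneg_right _ hy.le
              norm_num
        have b3 : -(1 / 10 ^ 8) ≤ B * F.z r * (ε * F.y r + F.z r) := by
          have : B * (F.z r * (ε * F.y r + F.z r)) ≥ B * (-(1 / 10 ^ 9)) :=
            mul_le_mul_of_nonneg_left hzz hB0.le
          have e : B * F.z r * (ε * F.y r + F.z r) = B * (F.z r * (ε * F.y r + F.z r)) := by ring
          rw [e]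
          norm_num at this ⊢
          linarith
        norm_num at b3 ⊢
        linarith
      have a2 : 2 * t * (45 / 100) * ((F.x r * (ε * F.x r + F.y r) - F.m1 * F.y r
          - B * F.z r * (ε * F.y r + F.z r)) / F.y r) ≤
          2 * t * (45 / 100) * (F.x r + 33 / 10 ^ 4) := by gcongr
      have a3 : 2 * t * (45 / 100) * (33 / 10 ^ 4) ≤ 53 / 10 ^ 5 := by
        calc 2 * t * (45 / 100) * (33 / 10 ^ 4) ≤
            2 * (176777 / 1000000) * (45 / 100) * (33 / 10 ^ 4) := by gcongr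
          _ ≤ _ := by norm_num
      have a4 : t * F.x r * (ε * (-F.p r)) ≤ 8 / 10 ^ 5 := by
        calc t * F.x r * (ε * (-F.p r)) ≤ t * F.x r * (ε * (7 / 10)) := by
              apply mul_le_mul_of_nonneg_left _ (by positivity)
              apply mul_le_mul_of_nonneg_left _ he.le
              linarith
          _ ≤ (176777 / 1000000) * (122 / 100) * ((4762 / 10000000) * (7 / 10)) := by
              have : F.x r ≤ 122 / 100 := hxX.trans hX2
              gcongr
          _ ≤ _ := by norm_num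
      have a5 : 0 ≤ t * (F.x r - 45 / 100) ^ 2 := by positivity
      norm_num at a2 a3 a4 ⊢
      nlinarith)
  intro s hs
  have h2 := h1 s hs
  simp only [h.y0, h.p00, mul_zero, zero_sub] at h2
  have h3 : Real.log (B * F.y s) = Real.log B + Real.log (F.y s) :=
    Real.log_mul h.bs.B0.ne' (h.hy s hs).ne'
  have h4 : Real.log t + Real.log B = 0 := by
    rw [← Real.log_mul h.bs.t0.ne' h.bs.B0.ne', h.bs.tB, Real.log_one]
  have h5 := h.pb
  have h6 : Real.log B = -Real.log t := by linarith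
  rw [h3, h6]
  linarith

end W

end Pool.Agent.H42.Two
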