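import Pool.Agent.H42.Two.Step

/-!
The iteration of the stages at the shell ratio 2.
-/

open Set Filter Topology

namespace Pool.Agent.H42.Two

open Pool.Agent.H42.Mix (RD mono_of_rd lip_of_rd exists_antideriv Chain tail_abs)

variable {t ε B D μ M r S : ℝ} {N : ℕ} {Y : ℤ → ℝ → ℝ} {φ ψ κ Γ : ℝ → ℝ} {K : Cs} {c : ℝ}

/-- the first failure of finitely many strict inequalities -/
lemma first_fail {ι : Type} [Finite ι] {f : ι → ℝ → ℝ} {C : ℝ} (hC : 0 < C)
    (hf : ∀ i, ContinuousOn (f i) (Icc 0 C)) (h0 : ∀ i, f i 0 < 0) :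
    (∀ s ∈ Icc 0 C, ∀ i, f i s < 0) ∨
      ∃ c, 0 < c ∧ c ≤ C ∧ (∀ s ∈ Ico 0 c, ∀ i, f i s < 0) ∧ ∃ i, 0 ≤ f i c := by
  by_cases hall : ∀ s ∈ Icc 0 C, ∀ i, f i s < 0
  · exact Or.inl hall
  · right
    push Not at hall
    obtain ⟨s₀, hs₀, i₀, hi₀⟩ := hall
    let A : Set ℝ := ⋃ i, (Icc 0 C ∩ f i ⁻¹' Ici 0)
    have hAc : IsCompact A := by
      apply isCompact_iUnion
      intro i
      exact isCompact_Icc.of_isClosed_subset
        ((hf i).preimage_isClosed_of_isClosed isClosed_Icc isClosed_Ici) inter_subset_left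
    have hAn : A.Nonempty := ⟨s₀, mem_iUnion.2 ⟨i₀, hs₀, hi₀⟩⟩
    obtain ⟨c, hcA, hcmin⟩ := hAc.exists_isLeast hAn
    obtain ⟨i, hcI, hi⟩ := mem_iUnion.1 hcA
    have hc0 : 0 < c := by
      rcases hcI.1.eq_or_lt with h1 | h1
      · exfalso
        rw [← h1] at hi
        exact absurd hi (not_le.2 (h0 i))
      · exact h1
    refine ⟨c, hc0, hcI.2, fun s hs j => ?_, i, hi⟩
    by_contra hcon
    push Not at hcon
    have : s ∈ A := mem_iUnion.2 ⟨j, ⟨hs.1, hs.2.le.trans hcI.2⟩, hcon⟩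
    exact absurd (hcmin this) (not_le.2 hs.2)

lemma exists_case (hb : Bs B t ε) {p : ℝ} (h0 : 0 ≤ p) (h1 : p ≤ 3 / 5) :
    ∃ K : Cs, Ok B t ε K ∧ K.pa ≤ p ∧ p ≤ K.pb := by
  rcases le_total p (3 / 20) with h | h
  · refine ⟨caseA, okA hb, ?_, ?_⟩ <;> simp only [caseA] <;> linarith
  · rcases le_total p (3 / 10) with h' | h'
    · refine ⟨caseB, okB hb, ?_, ?_⟩ <;> simp only [caseB] <;> linarith
    · refine ⟨caseC, okC hb, ?_, ?_⟩ <;> simp only [caseC] <;> linarith

/-- the functions whose signs define the window -/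
noncomputable def ff (t ε : ℝ) (N : ℕ) (Y : ℤ → ℝ → ℝ) (φ : ℝ → ℝ) (K : Cs) :
    Fin 8 ⊕ Fin N → ℝ → ℝ :=
  Sum.elim ![fun s => -Y 0 s, fun s => Y 0 s - 2, fun s => -Y 1 s, fun s => Y 1 s - 2,
    fun s => |Y 2 s| - t * Y 1 s, fun s => φ s - K.PH, fun s => |Y 3 s| - ε / 2,
    fun s => |Y (-1) s| - K.Pw]
    (fun j s => |Y (-((j : ℕ) : ℤ) - 2) s| - 17 / 20 * (8 / 5) ^ (j : ℕ))

lemma ff_lt {s : ℝ} (h : ∀ i, ff t ε N Y φ K i s < 0) :
    0 < Y 0 s ∧ Y 0 s < 2 ∧ 0 < Y 1 s ∧ Y 1 s < 2 ∧ |Y 2 s| < t * Y 1 s ∧ φ s < K.PH ∧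
      |Y 3 s| < ε / 2 ∧ |Y (-1) s| < K.Pw ∧
      ∀ j : ℕ, j < N → |Y (-(j : ℤ) - 2) s| < 17 / 20 * (8 / 5) ^ j := by
  have h0 := h (Sum.inl 0)
  have h1 := h (Sum.inl 1)
  have h2 := h (Sum.inl 2)
  have h3 := h (Sum.inl 3)
  have h4 := h (Sum.inl 4)
  have h5 := h (Sum.inl 5)
  have h6 := h (Sum.inl 6)
  have h7 := h (Sum.inl 7)
  simp only [ff, Sum.elim_inl] at h0 h1 h2 h3 h4 h5 h6 h7
  change -Y 0 s < 0 at h0
  change Y 0 s - 2 < 0 at h1
  change -Y 1 s < 0 at h2
  change Y 1 s - 2 < 0 at h3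
  change |Y 2 s| - t * Y 1 s < 0 at h4
  change φ s - K.PH < 0 at h5
  change |Y 3 s| - ε / 2 < 0 at h6
  change |Y (-1) s| - K.Pw < 0 at h7
  refine ⟨by linarith, by linarith, by linarith, by linarith, by linarith, by linarith,
    by linarith, by linarith, fun j hj => ?_⟩
  have h8 := h (Sum.inr ⟨j, hj⟩)
  simp only [ff, Sum.elim_inr] at h8
  linarith

set_option maxHeartbeats 4000000 in
theorem St.step (h : St t ε B D μ M r S N Y) (hp : Par t ε B D μ r) :
    ∃ (μ' S' : ℝ) (Y' : ℤ → ℝ → ℝ),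
      St t ε B D μ' (M * (r / (3 / 4))) r S' (N + 1) Y' ∧ 0 ≤ μ' ∧ μ' ≤ μ := by
  have hB0 := hp.bs.B0
  have hBl := hp.bs.Bl
  have ht0 := hp.bs.t0
  have he := hp.bs.e0
  have heu := hp.bs.eu
  have hD1 := hp.D1
  have hS0 : 0 ≤ S := by linarith [h.hS]
  have hCS : (17 / 5 : ℝ) ≤ S := by linarith [h.hS]
  obtain ⟨φ, cφ, φ0, dφ⟩ := exists_antideriv hS0 (h.sys.cont 1)
  obtain ⟨ψ, cψ, ψ0, dψ⟩ := exists_antideriv hS0 (h.sys.cont 0)
  obtain ⟨κ, cκ, κ0, dκ⟩ := exists_antideriv (y := fun s => B * Y 2 s ^ 2) hS0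
    (continuousOn_const.mul ((h.sys.cont 2).pow 2))
  obtain ⟨Γ, cΓ, Γ0, dΓ⟩ := exists_antideriv (y := fun s => 32 * Y 2 s) hS0
    (continuousOn_const.mul (h.sys.cont 2))
  obtain ⟨K, ok, hpa, hpb⟩ := exists_case hp.bs h.p0l h.p0u
  have cY : ∀ j, ContinuousOn (Y j) (Icc 0 (17 / 5)) := fun j =>
    (h.sys.cont j).mono (Icc_subset_Icc_right hCS)
  have hcont : ∀ i, ContinuousOn (ff t ε N Y φ K i) (Icc 0 (17 / 5)) := by
    intro i
    rcases i with i | j
    · fin_cases i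
      · exact (cY 0).neg
      · exact (cY 0).sub continuousOn_const
      · exact (cY 1).neg
      · exact (cY 1).sub continuousOn_const
      · exact (cY 2).abs.sub (continuousOn_const.mul (cY 1))
      · exact cφ.continuousOn.sub continuousOn_const
      · exact (cY 3).abs.sub continuousOn_const
      · exact (cY (-1)).abs.sub continuousOn_const
    · exact (cY _).abs.sub continuousOn_const
  have hw0 : |Y 3 0| ≤ 13 / 20 * ε ^ 2 := by
    have := tail_abs (V := fun k : ℕ => Y ((3 + k : ℕ) : ℤ)) (s := 0) (E := 13 / 20 * ε ^ 2)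
      (by positivity) (fun n => by simpa using h.tail 0 n) 0
    simpa using this
  have hstart : ∀ i, ff t ε N Y φ K i 0 < 0 := by
    intro i
    rcases i with i | j
    · fin_cases i
      · show -Y 0 0 < 0
        rw [h.x0]; norm_num
      · show Y 0 0 - 2 < 0
        rw [h.x0]; norm_num
      · show -Y 1 0 < 0
        rw [h.y0]; linarith
      · show Y 1 0 - 2 < 0
        rw [h.y0]; linarith [hp.bs.tu]
      · show |Y 2 0| - t * Y 1 0 < 0
        rw [h.y0]
        have h1 : |Y 2 0| ≤ 1 / 1000 := by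
          rw [abs_le]
          have := h.z0l
          have := h.z0u
          have := hp.bs.te_le
          constructor
          · nlinarith
          · have h3 : 33 / 20 * (ε * t) ≤ 33 / 20 * (8418121 / 10 ^ 11) := by
              rw [mul_comm ε t]; gcongr
            norm_num at h3 ⊢
            linarith
        have h2 : t * t = 1 / 32 := by rw [← pow_two, hp.bs.t2]
        rw [h2]
        linarith
      · show φ 0 - K.PH < 0
        rw [φ0]
        linarith [ok.PH1]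
      · show |Y 3 0| - ε / 2 < 0
        nlinarith
      · show |Y (-1) 0| - K.Pw < 0
        rw [abs_of_nonneg h.p0l]
        have h1 := ok.Pl
        have h2 : 0 ≤ K.a1 := by
          refine le_trans ?_ ok.a1
          have := ok.kq0
          have := ok.X0
          have := ok.Pw0
          positivity
        linarith
    · show |Y (-((j : ℕ) : ℤ) - 2) 0| - 17 / 20 * (8 / 5) ^ (j : ℕ) < 0
      have h1 := h.old j
      have : (0 : ℝ) < (8 / 5) ^ (j : ℕ) := by positivity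
      linarith
  have hwz : ∀ c, 0 < c → c ≤ 17 / 5 → (∀ s ∈ Ico 0 c, ∀ i, ff t ε N Y φ K i s < 0) →
      WZ t ε B D μ M r S N Y φ ψ κ Γ K c := by
    intro c h1 h2 h3
    refine ⟨hp, h, ok, hpa, hpb, h1, h2, cφ, cψ, cκ, cΓ, φ0, ψ0, κ0, Γ0, dφ, dψ, dκ, dΓ,
      ?_, ?_, ?_, ?_, ?_, ?_, ?_, ?_, ?_⟩
    · exact fun s hs => (ff_lt (h3 s hs)).1
    · exact fun s hs => (ff_lt (h3 s hs)).2.1
    · exact fun s hs => (ff_lt (h3 s hs)).2.2.1
    · exact fun s hs => (ff_lt (h3 s hs)).2.2.2.1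
    · exact fun s hs => (ff_lt (h3 s hs)).2.2.2.2.1
    · exact fun s hs => (ff_lt (h3 s hs)).2.2.2.2.2.1
    · exact fun s hs => (ff_lt (h3 s hs)).2.2.2.2.2.2.1
    · exact fun s hs => (ff_lt (h3 s hs)).2.2.2.2.2.2.2.1
    · intro s hs j
      rcases lt_or_ge j N with hj | hj
      · exact (ff_lt (h3 s hs)).2.2.2.2.2.2.2.2 j hj
      · rw [h.sys.zero _ (by omega) s, abs_zero]
        positivity
  rcases first_fail (by norm_num) hcont hstart with hall | ⟨c, hc0, hc1, hgood, i, hi⟩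
  · exfalso
    have hw := hwz (17 / 5) (by norm_num) le_rfl (fun s hs => hall s ⟨hs.1, hs.2.le⟩)
    exact lt_irrefl _ (hw.toW.core ok).2.2.2.2.2.2.2.1
  have hw := hwz c hc0 hc1 hgood
  obtain ⟨q1, q2, q3, q4, q5, q6, q7, q8, q9, q10⟩ := hw.toW.core ok
  simp only [mkF] at q1 q2 q3 q4 q5 q6 q7 q8 q9 q10
  -- the failure is the one of the third mode
  have hzge : t * Y 1 c ≤ |Y 2 c| := by
    rcases i with i | j
    · fin_cases i
      · exact absurd (show 0 ≤ -Y 0 c from hi) (by linarith)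
      · exact absurd (show 0 ≤ Y 0 c - 2 from hi) (by linarith)
      · exact absurd (show 0 ≤ -Y 1 c from hi) (by linarith)
      · exact absurd (show 0 ≤ Y 1 c - 2 from hi) (by linarith)
      · have : 0 ≤ |Y 2 c| - t * Y 1 c := hi
        linarith
      · exact absurd (show 0 ≤ φ c - K.PH from hi) (by linarith)
      · exact absurd (show 0 ≤ |Y 3 c| - ε / 2 from hi) (by linarith)
      · exact absurd (show 0 ≤ |Y (-1) c| - K.Pw from hi) (by linarith)
    · have h1 : 0 ≤ |Y (-((j : ℕ) : ℤ) - 2) c| - 17 / 20 * (8 / 5) ^ (j : ℕ) := hi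
      have h2 := hw.old j
      linarith
  have hzle : |Y 2 c| ≤ t * Y 1 c :=
    cl (f := fun s => |Y 2 s|) (g := fun s => t * Y 1 s) hc0
      ((h.sys.cont 2).mono (Icc_subset_Icc_right hw.leS)).abs
      (continuousOn_const.mul ((h.sys.cont 1).mono (Icc_subset_Icc_right hw.leS)))
      (fun s hs => (hw.hz s hs).le)
  have hzeq : Y 2 c = t * Y 1 c := by
    have h1 : 0 < t * Y 1 c := mul_pos ht0 q3
    rcases le_total 0 (Y 2 c) with h2 | h2
    · rw [abs_of_nonneg h2] at hzge hzle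
      linarith
    · rw [abs_of_nonpos h2] at hzge
      linarith
  obtain ⟨ha, hx, hpe, hwl, hwu⟩ := q10 hzeq
  set a := Y 1 c with hadef
  have ha0 : 0 < a := q3
  have hBa : 0 < B * a := by positivity
  have hBa2 : 4242 / 1000 ≤ B * a := by nlinarith
  refine ⟨μ * D / (B * a), B * a * (S - c), fun j s => Y (j + 1) (c + s / (B * a)) / a,
    ?_, ?_, ?_⟩
  · have e0 : c + 0 / (B * a) = c := by simp
    refine ⟨h.sys.renorm hB0 (by linarith) ha0 hc0.le, by omega, ?_, ?_, ?_, ?_, ?_, ?_, ?_,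
      ?_, ?_, ?_⟩
    · have h1 : 17 / 5 ≤ S - c := by linarith [h.hS]
      nlinarith
    · simp only [e0, zero_add]
      exact div_self ha0.ne'
    · simp only [e0, one_add_one_eq_two]
      rw [hzeq]
      field_simp
    · simp only [e0]
      rw [le_div_iff₀ ha0]
      exact hwl
    · simp only [e0]
      rw [div_le_iff₀ ha0]
      exact hwu
    · simp only [e0]
      have e1 : (-1 : ℤ) + 1 = 0 := by norm_num
      rw [e1]
      positivity
    · simp only [e0]
      have e1 : (-1 : ℤ) + 1 = 0 := by norm_num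
      rw [e1, div_le_iff₀ ha0]
      exact hx
    · intro j
      simp only [e0]
      rw [abs_div, abs_of_pos ha0, div_le_iff₀ ha0]
      rcases j with _ | j
      · have e1 : -((0 : ℕ) : ℤ) - 2 + 1 = -1 := by norm_num
        rw [e1, pow_zero, mul_one]
        exact hpe
      · have e1 : -((j + 1 : ℕ) : ℤ) - 2 + 1 = -(j : ℤ) - 2 := by push_cast; ring
        rw [e1]
        have h1 := (hw.old j).le
        have h2 : (0 : ℝ) < (8 / 5) ^ j := by positivity
        rw [pow_succ]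
        nlinarith
    · intro m n
      simp only [e0]
      have h1 := hw.F m c ⟨hc0.le, le_rfl⟩ n
      have e : ∑ k ∈ Finset.range (n + 1), (Y (((3 + m + k : ℕ) : ℤ) + 1) c / a) ^ 2 =
          (∑ k ∈ Finset.range (n + 1), Y ((4 + m + k : ℕ) : ℤ) c ^ 2) / a ^ 2 := by
        rw [Finset.sum_div]
        apply Finset.sum_congr rfl
        intro k _
        have e2 : ((3 + m + k : ℕ) : ℤ) + 1 = ((4 + m + k : ℕ) : ℤ) := by push_cast; ring
        rw [div_pow, e2]
      rw [e, div_le_iff₀ (by positivity), ← mul_pow]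
      refine h1.trans ?_
      apply pow_le_pow_left₀ (by positivity)
      have h2 : 0 < ε ^ 2 / (2 * B) ^ m := by positivity
      calc 44 / 100 * ε ^ 2 / (2 * B) ^ m = (44 / 100) * (ε ^ 2 / (2 * B) ^ m) := by ring
        _ ≤ (13 / 20 * a) * (ε ^ 2 / (2 * B) ^ m) := by gcongr; linarith
        _ = _ := by ring
    · intro j s hs
      have h1 : c + s / (B * a) ∈ Icc 0 S := by
        refine ⟨add_nonneg hc0.le (div_nonneg hs.1 hBa.le), ?_⟩
        have : s / (B * a) ≤ S - c := by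
          rw [div_le_iff₀ hBa]
          linarith [hs.2]
        linarith
      have h2 := h.reg (j + 1) _ h1
      have e1 : ((j : ℤ) + 1) = ((j + 1 : ℕ) : ℤ) := by push_cast; ring
      simp only [e1]
      rw [abs_div, abs_of_pos ha0, div_le_iff₀ ha0]
      refine h2.trans ?_
      have h3 : 0 ≤ M * (r / (3 / 4)) * r ^ j := by
        have := (abs_nonneg _).trans h2
        have e : M * (r / (3 / 4)) * r ^ j = M * r ^ (j + 1) * (4 / 3) := by
          rw [pow_succ]; ring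
        rw [e]
        positivity
      calc M * r ^ (j + 1) = M * (r / (3 / 4)) * r ^ j * (3 / 4) := by
            rw [pow_succ]; ring
        _ ≤ M * (r / (3 / 4)) * r ^ j * a := by gcongr
  · have := hp.μ0
    have : 0 < D := by linarith
    positivity
  · rw [div_le_iff₀ hBa]
    have h1 : D ≤ B * a := by
      have := hp.D2
      linarith
    exact mul_le_mul_of_nonneg_left h1 hp.μ0

/-- the cascade goes on for ever -/
theorem St.iter (h : St t ε B D μ M r S N Y) (hp : Par t ε B D μ r) (n : ℕ) :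
    ∃ (μ' S' : ℝ) (Y' : ℤ → ℝ → ℝ),
      St t ε B D μ' (M * (r / (3 / 4)) ^ n) r S' (N + n) Y' ∧ 0 ≤ μ' ∧ μ' ≤ μ := by
  induction n with
  | zero => exact ⟨μ, S, Y, by simpa using h, hp.μ0, le_rfl⟩
  | succ n ih =>
    obtain ⟨μ1, S1, Y1, h1, h2, h3⟩ := ih
    obtain ⟨μ2, S2, Y2, h5, h6, h7⟩ := h1.step
      ⟨hp.bs, hp.D1, hp.D2, h2, h3.trans hp.μ1, hp.r0, hp.r1⟩
    refine ⟨μ2, S2, Y2, ?_, h6, h7.trans h3⟩
    have e : M * (r / (3 / 4)) ^ (n + 1) = M * (r / (3 / 4)) ^ n * (r / (3 / 4)) := by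
      rw [pow_succ]; ring
    rw [e, ← add_assoc]
    exact h5

theorem St.false (h : St t ε B D μ M r S N Y) (hp : Par t ε B D μ r) : False := by
  have hBl := hp.bs.Bl
  have hr : r / (3 / 4) < 1 := by
    rw [div_lt_one (by norm_num)]
    by_contra hc
    push Not at hc
    have h1 := hp.r1
    have h2 : (3 / 4 : ℝ) ^ 3 ≤ r ^ 3 := pow_le_pow_left₀ (by norm_num) hc 3
    norm_num at h2
    nlinarith
  have hr0 : 0 ≤ r / (3 / 4) := by have := hp.r0; positivity
  have hlim : Tendsto (fun n : ℕ => M * (r / (3 / 4)) ^ n) atTop (𝓝 (M * 0)) :=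
    (tendsto_pow_atTop_nhds_zero_of_lt_one hr0 hr).const_mul M
  rw [mul_zero] at hlim
  obtain ⟨n, hn⟩ := (hlim.eventually_lt_const (show (0 : ℝ) < 1 by norm_num)).exists
  obtain ⟨μ', S', Y', h1, -, -⟩ := h.iter hp n
  have h2 := h1.reg 0 0 ⟨le_rfl, by linarith [h1.hS]⟩
  have e : Y' ((0 : ℕ) : ℤ) 0 = 1 := by simpa using h1.x0
  rw [e, pow_zero, mul_one, abs_one] at h2
  linarith

end Pool.Agent.H42.Two
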