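import Pool.Agent.H42.Two.Iter
import Pool.Agent.H42.Mix.Main

/-!
Non-existence of regular solutions of the mixed dyadic system for large data, at the shell ratio 2.
-/

open Set Filter Topology

namespace Pool.Agent.H42.Two

open Pool.Agent.H42.Mix (RD IsSol Reg gain)

theorem blowup (α β B D ν T : ℝ) (hB0 : 0 < B) (hB : B ^ 2 = 32) (hD : 1 ≤ D)
    (hD' : D ≤ 424 / 100) (hβ : 0 < β) (h1 : β / 2200 ≤ α) (h2 : α ≤ β / 2100)
    (hν : 0 ≤ ν) (hT : 0 < T) :
    ∃ A₀ : ℝ, 0 < A₀ ∧ ∀ A, A₀ ≤ A → ¬ ∃ X : ℕ → ℝ → ℝ, IsSol α β B D ν T X ∧ Reg B T X ∧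
      X 0 0 = 0 ∧ X 1 0 = A ∧ X 2 0 = A / B ∧ ∀ n, 3 ≤ n → X n 0 = 0 := by
  have hD0 : 0 < D := by linarith
  refine ⟨7 / (β * B * T) + 10 ^ 14 * (ν * D) / (β * B), by positivity, ?_⟩
  rintro A hA ⟨X, hX, ⟨M, r, hr, hr', hreg⟩, hX0, hX1, hX2, hX3⟩
  have hA0 : 0 < A := lt_of_lt_of_le (by positivity) hA
  set k := β * B * A with hk
  have hk0 : 0 < k := by positivity
  have hA1 : 7 ≤ k * T := by
    have : 7 / (β * B * T) ≤ A := le_trans (by
      have : 0 ≤ 10 ^ 14 * (ν * D) / (β * B) := by positivity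
      linarith) hA
    rw [div_le_iff₀ (by positivity)] at this
    rw [hk]
    linarith
  have hA2 : 10 ^ 14 * (ν * D) ≤ k := by
    have : 10 ^ 14 * (ν * D) / (β * B) ≤ A := le_trans (by
      have : 0 ≤ 7 / (β * B * T) := by positivity
      linarith) hA
    rw [div_le_iff₀ (by positivity)] at this
    rw [hk]
    linarith
  have hright : ∀ n, ∀ t ∈ Ico 0 T, RD (X n) (gain α β B (fun k => X k t) n - ν * D ^ n * X n t
      - B ^ n * X (n + 1) t * (α * X n t + β * X (n + 1) t)) t := by
    intro n t ht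
    exact (hX n t ⟨ht.1, ht.2.le⟩).mono_of_mem_nhdsWithin (Icc_mem_nhdsGE_of_mem ht)
  have hcont : ∀ n, ContinuousOn (X n) (Icc 0 T) := fun n t ht => (hX n t ht).continuousWithinAt
  have hmem : ∀ s ∈ Ico 0 (k * T), s / k ∈ Ico 0 T := by
    intro s hs
    refine ⟨div_nonneg hs.1 hk0.le, ?_⟩
    rw [div_lt_iff₀ hk0]
    linarith [hs.2]
  have hmem2 : MapsTo (fun s => s / k) (Icc 0 (k * T)) (Icc 0 T) := by
    intro s hs
    refine ⟨div_nonneg hs.1 hk0.le, ?_⟩
    show s / k ≤ T
    rw [div_le_iff₀ hk0]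
    linarith [hs.2]
  have hder : ∀ (f : ℝ → ℝ) (v s : ℝ), RD f v (s / k) →
      RD (fun s => f (s / k) / A) (v * (1 / k) / A) s := by
    intro f v s hf
    have h1 : HasDerivWithinAt (fun s => s / k) (1 / k) (Ici s) s := by
      simpa using ((hasDerivAt_id' s).div_const k).hasDerivWithinAt
    have h2 : MapsTo (fun s => s / k) (Ici s) (Ici (s / k)) := by
      intro t ht
      simp only [mem_Ici] at ht ⊢
      gcongr
    exact (HasDerivWithinAt.comp s hf h1 h2).div_const A
  set ε := α / β with hε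
  have hε1 : 1 / 2200 ≤ ε := by
    rw [hε, le_div_iff₀ hβ]
    linarith
  have hε2 : ε ≤ 1 / 2100 := by
    rw [hε, div_le_iff₀ hβ]
    linarith
  have hε0 : 0 < ε := by linarith
  have hbs : Bs B (1 / B) ε := ⟨hB0, hB, by field_simp, hε1, hε2⟩
  have hP : Par (1 / B) ε B D (ν * D / k) r := ⟨hbs, hD, hD', by positivity, by
    rw [div_le_div_iff₀ hk0 (by norm_num)]
    linarith, hr, hr'⟩
  have hαβ : α = ε * β := by rw [hε]; field_simp
  set Y : ℤ → ℝ → ℝ := fun j s => if 0 ≤ j + 1 then X (j + 1).toNat (s / k) / A else 0 with hY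
  have hYn : ∀ (n : ℕ) s, Y ((n : ℤ) - 1) s = X n (s / k) / A := by
    intro n s
    simp only [hY, sub_add_cancel, Nat.cast_nonneg, if_true, Int.toNat_natCast]
  have hst : St (1 / B) ε B D (ν * D / k) (M * r / A) r (k * T) 1 Y := by
    have e0 : Y 0 0 = X 1 0 / A := by have := hYn 1 0; simpa using this
    have e1 : Y 1 0 = X 2 0 / A := by have := hYn 2 0; norm_num at this; simpa using this
    have e2 : Y 2 0 = X 3 0 / A := by have := hYn 3 0; norm_num at this; simpa using this
    have em : Y (-1) 0 = X 0 0 / A := by have := hYn 0 0; simpa using this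
    have hz : ∀ j : ℤ, j < -1 → ∀ s, Y j s = 0 := by
      intro j hj s
      simp only [hY]
      rw [if_neg (by omega)]
    refine ⟨⟨?_, ?_, ?_⟩, le_rfl, by linarith, ?_, ?_, ?_, ?_, ?_, ?_, ?_, ?_, ?_⟩
    · intro j
      by_cases hj : 0 ≤ j + 1
      · simp only [hY, if_pos hj]
        apply ContinuousOn.div_const
        exact (hcont _).comp (by fun_prop) hmem2
      · simp only [hY, if_neg hj]
        exact continuousOn_const
    · intro j hj s
      exact hz j (by simpa using hj) s
    · intro j hj s hs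
      obtain ⟨n, hn⟩ := Int.eq_ofNat_of_zero_le (show 0 ≤ j + 1 by push_cast at hj; omega)
      have hjn : j = (n : ℤ) - 1 := by omega
      subst hjn
      have hYf : Y ((n : ℤ) - 1) = fun s => X n (s / k) / A := funext (hYn n)
      have hn1 : Y ((n : ℤ) - 1 + 1) s = X (n + 1) (s / k) / A := by
        have := hYn (n + 1) s
        rw [← this]
        congr 1
        push_cast
        ring
      rw [hn1, hYf]
      refine (hder _ _ s (hright n _ (hmem s hs))).congr_deriv ?_
      have hBn : B ^ ((n : ℤ) - 1) = B ^ n / B := by rw [zpow_sub_one₀ hB0.ne', zpow_natCast]; rfl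
      have hDn : D ^ ((n : ℤ) - 1) = D ^ n / D := by rw [zpow_sub_one₀ hD0.ne', zpow_natCast]; rfl
      rw [hBn, hDn]
      cases n with
      | zero =>
        have : Y (((0 : ℕ) : ℤ) - 1 - 1) s = 0 := hz _ (by norm_num) s
        rw [this]
        simp only [gain, hαβ, hk]
        field_simp
        ring
      | succ m =>
        have : Y (((m + 1 : ℕ) : ℤ) - 1 - 1) s = X m (s / k) / A := by
          have := hYn m s
          rw [← this]
          congr 1
          push_cast
          ring
        rw [this]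
        have hBm : B ^ (((m + 1 : ℕ) : ℤ) - 1 - 1) = B ^ m / B := by
          have : ((m + 1 : ℕ) : ℤ) - 1 - 1 = (m : ℤ) - 1 := by push_cast; ring
          rw [this, zpow_sub_one₀ hB0.ne', zpow_natCast]
          rfl
        rw [hBm]
        simp only [gain, hαβ, hk]
        field_simp
    · rw [e0, hX1]
      exact div_self hA0.ne'
    · rw [e1, hX2]
      field_simp
    · rw [e2, hX3 3 le_rfl, zero_div]
      nlinarith
    · rw [e2, hX3 3 le_rfl, zero_div]
      positivity
    · rw [em, hX0, zero_div]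
    · rw [em, hX0, zero_div]
      norm_num
    · intro j
      rw [hz _ (by omega), abs_zero]
      positivity
    · intro m n
      have : ∑ k ∈ Finset.range (n + 1), Y ((3 + m + k : ℕ) : ℤ) 0 ^ 2 = 0 := by
        apply Finset.sum_eq_zero
        intro l _
        have h3 : Y ((3 + m + l : ℕ) : ℤ) 0 = X (3 + m + l + 1) (0 / k) / A := by
          rw [← hYn (3 + m + l + 1) 0]
          congr 1
          push_cast
          ring
        rw [h3, zero_div, hX3 _ (by omega)]
        simp
      rw [this]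
      positivity
    · intro j s hs
      have h3 : Y ((j : ℕ) : ℤ) s = X (j + 1) (s / k) / A := by
        rw [← hYn (j + 1) s]
        congr 1
        push_cast
        ring
      rw [h3, abs_div, abs_of_pos hA0, div_le_iff₀ hA0]
      calc |X (j + 1) (s / k)| ≤ M * r ^ (j + 1) := hreg _ _ (hmem2 hs)
        _ = M * r / A * r ^ j * A := by
          field_simp
          ring
  exact hst.false hP

end Pool.Agent.H42.Two
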