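import Pool.Agent.H42.Two.Core

/-!
Numerical bounds of exponentials, logarithms and arc tangents.
-/

open Set

namespace Pool.Agent.H42.Two

/-- Taylor polynomial of the exponential -/
noncomputable def Tl (r : ℝ) : ℝ :=
  1 + r + r ^ 2 / 2 + r ^ 3 / 6 + r ^ 4 / 24 + r ^ 5 / 120 + r ^ 6 / 720 + r ^ 7 / 5040

lemma exp_ge {n : ℕ} {r y : ℝ} (h0 : 0 ≤ r) (_ : r ≤ 1)
    (h : y ≤ (27182818283 / 10 ^ 10) ^ n * Tl r) : y ≤ Real.exp (n + r) := by
  rw [Real.exp_add]
  have h2 : (27182818283 / 10 ^ 10 : ℝ) ^ n ≤ Real.exp n := by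
    have : Real.exp n = Real.exp 1 ^ n := by rw [← Real.exp_nat_mul]; simp
    rw [this]
    apply pow_le_pow_left₀ (by norm_num)
    have := Real.exp_one_gt_d9
    norm_num at this ⊢
    linarith
  have h3 : Tl r ≤ Real.exp r := by
    have := Real.sum_le_exp_of_nonneg h0 8
    simp only [Finset.sum_range_succ, Finset.sum_range_zero, Nat.factorial] at this
    norm_num at this
    simp only [Tl]
    linarith
  have h4 : 0 ≤ Tl r := by simp only [Tl]; positivity
  calc y ≤ (27182818283 / 10 ^ 10) ^ n * Tl r := h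
    _ ≤ Real.exp n * Real.exp r := by gcongr

lemma exp_le {n : ℕ} {r y : ℝ} (h0 : 0 ≤ r) (h1 : r ≤ 1)
    (h : (27182818286 / 10 ^ 10) ^ n * (Tl r + r ^ 8 * 9 / 322560) ≤ y) :
    Real.exp (n + r) ≤ y := by
  rw [Real.exp_add]
  have h2 : Real.exp n ≤ (27182818286 / 10 ^ 10 : ℝ) ^ n := by
    have : Real.exp n = Real.exp 1 ^ n := by rw [← Real.exp_nat_mul]; simp
    rw [this]
    apply pow_le_pow_left₀ (Real.exp_pos _).le
    have := Real.exp_one_lt_d9
    norm_num at this ⊢
    linarith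
  have h3 : Real.exp r ≤ Tl r + r ^ 8 * 9 / 322560 := by
    have := Real.exp_bound' h0 h1 (n := 8) (by norm_num)
    simp only [Finset.sum_range_succ, Finset.sum_range_zero, Nat.factorial] at this
    norm_num at this
    simp only [Tl]
    linarith
  calc Real.exp n * Real.exp r ≤ (27182818286 / 10 ^ 10) ^ n * (Tl r + r ^ 8 * 9 / 322560) := by
        gcongr
    _ ≤ y := h

lemma arctan_three_fifths : Real.pi / 4 - 1 / 4 ≤ Real.arctan (3 / 5) := by
  have h1 := Real.arctan_add (x := 3 / 5) (y := 1 / 4) (by norm_num)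
  have h2 : ((3 : ℝ) / 5 + 1 / 4) / (1 - 3 / 5 * (1 / 4)) = 1 := by norm_num
  rw [h2, Real.arctan_one] at h1
  have h3 := arctan_le (u := 1 / 4) (by norm_num)
  linarith

lemma log_136 : Real.log (1 + (3 / 5) ^ 2) ≤ 3076 / 10000 := by
  rw [Real.log_le_iff_le_exp (by norm_num)]
  have := exp_ge (n := 0) (r := 3076 / 10000) (y := 1 + (3 / 5) ^ 2) (by norm_num) (by norm_num)
    (by norm_num [Tl])
  norm_num at this ⊢
  exact this

namespace Bs

variable {B t ε : ℝ}

lemma te_le (hb : Bs B t ε) : t * ε ≤ 8418121 / 10 ^ 11 := by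
  calc t * ε ≤ (176777 / 1000000) * (4762 / 10000000) := by
        have := hb.tu
        have := hb.eu
        have := hb.e0
        gcongr
    _ ≤ _ := by norm_num

lemma Be_le (hb : Bs B t ε) : B * ε ≤ 2693797 / 10 ^ 9 := by
  calc B * ε ≤ (565686 / 100000) * (4762 / 10000000) := by
        have := hb.Bu
        have := hb.eu
        have := hb.e0
        gcongr
    _ ≤ _ := by norm_num

lemma exp_half_le (hb : Bs B t ε) : Real.exp (B / 2) ≤ 16919 / 10 ^ 3 := by
  have h1 : B / 2 ≤ 282843 / 100000 := by linarith [hb.Bu]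
  refine (Real.exp_le_exp.2 h1).trans ?_
  have := exp_le (n := 2) (r := 82843 / 100000) (y := 16919 / 10 ^ 3) (by norm_num) (by norm_num)
    (by norm_num [Tl])
  norm_num at this ⊢
  exact this

lemma exp_neg_half_le (hb : Bs B t ε) : Real.exp (-(B / 2)) ≤ 59109 / 10 ^ 6 := by
  have h1 : 28284 / 10000 ≤ B / 2 := by linarith [hb.Bl]
  have h2 : (16918 / 10 ^ 3 : ℝ) ≤ Real.exp (B / 2) := by
    refine le_trans ?_ (Real.exp_le_exp.2 h1)
    have := exp_ge (n := 2) (r := 8284 / 10000) (y := 16918 / 10 ^ 3) (by norm_num)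
      (by norm_num) (by norm_num [Tl])
    norm_num at this ⊢
    exact this
  rw [Real.exp_neg, inv_eq_one_div, div_le_iff₀ (Real.exp_pos _)]
  norm_num at h2 ⊢
  linarith

lemma arsinh_le (hb : Bs B t ε) : Real.arsinh B ≤ 24339 / 10000 := by
  rw [← Real.exp_le_exp, Real.exp_arsinh, hb.B2]
  have h1 : Real.sqrt (1 + 32) ≤ 57446 / 10000 := by
    rw [Real.sqrt_le_left (by norm_num)]
    norm_num
  have h2 := exp_ge (n := 2) (r := 4339 / 10000) (y := 114015 / 10000) (by norm_num)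
      (by norm_num) (by norm_num [Tl])
  have h3 := hb.Bu
  norm_num at h2 h1 ⊢
  linarith

lemma arctanB_le (hb : Bs B t ε) : Real.arctan B ≤ Real.pi / 2 - t * (32 / 33) := by
  rw [W.B_inv hb, Real.arctan_inv_of_pos hb.t0]
  have h1 := arctan_ge hb.t0.le
  have h2 : t / (1 + t ^ 2) = t * (32 / 33) := by
    rw [hb.t2]
    ring
  linarith

end Bs

end Pool.Agent.H42.Two
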