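import Pool.Agent.H42.Two.Sys

/-!
One stage of the cascade at the shell ratio 2 leads to the next one.
-/

open Set Filter Topology

namespace Pool.Agent.H42.Two

open Pool.Agent.H42.Mix (RD mono_of_rd lip_of_rd exists_antideriv Chain tail_abs)

variable {t ε B D μ M r S : ℝ} {N : ℕ} {Y : ℤ → ℝ → ℝ} {φ ψ κ Γ : ℝ → ℝ} {K : Cs} {c : ℝ}

lemma Par.zt (h : Par t ε B D μ r) (n : ℕ) : B ^ (-(n : ℤ)) = t ^ n := by
  rw [zpow_neg, zpow_natCast, h.t_inv, inv_pow]

lemma Par.Dz (h : Par t ε B D μ r) {k : ℤ} (hk : k ≤ 0) : D ^ k ≤ 1 :=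
  zpow_le_one_of_nonpos₀ h.D1 hk

namespace WZ

/-- bound of the derivative of an older mode -/
lemma dold0 (h : WZ t ε B D μ M r S N Y φ ψ κ Γ K c) : ∀ s ∈ Ico 0 c,
    |t ^ 3 * Y (-3) s * (ε * Y (-3) s + Y (-2) s) - μ * D ^ (-2 : ℤ) * Y (-2) s
      - t ^ 2 * Y (-1) s * (ε * Y (-2) s + Y (-1) s)| ≤ 35 / 1000 := by
  intro s hs
  have he := h.par.bs.e0
  have heu := h.par.bs.eu
  have ht0 := h.par.bs.t0
  have htu := h.par.bs.tu
  have hq := (h.hq s hs 0).le
  have ho := (h.hq s hs 1).le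
  have hp := (h.hp s hs).le.trans h.ok.Pw1
  have e3 : (-((1 : ℕ) : ℤ) - 2) = -3 := by norm_num
  have e2 : (-((0 : ℕ) : ℤ) - 2) = -2 := by norm_num
  rw [e3] at ho
  rw [e2] at hq
  norm_num at ho hq
  have b1 : |t ^ 3 * Y (-3) s * (ε * Y (-3) s + Y (-2) s)| ≤ 7 / 1000 := by
    rw [abs_mul, abs_mul, abs_of_pos (by positivity)]
    have : |ε * Y (-3) s + Y (-2) s| ≤ (4762 / 10000000) * (34 / 25) + 17 / 20 := by
      refine (abs_add_le _ _).trans (add_le_add ?_ hq)
      rw [abs_mul, abs_of_pos he]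
      gcongr
    calc t ^ 3 * |Y (-3) s| * |ε * Y (-3) s + Y (-2) s| ≤
        (176777 / 1000000) ^ 3 * (34 / 25) * ((4762 / 10000000) * (34 / 25) + 17 / 20) := by
          gcongr
      _ ≤ _ := by norm_num
  have b2 : |μ * D ^ (-2 : ℤ) * Y (-2) s| ≤ 1 / 1000 := by
    have hD := h.par.Dz (k := -2) (by norm_num)
    have hD0 : 0 ≤ D ^ (-2 : ℤ) := zpow_nonneg (by linarith [h.par.D1]) _
    have hμ := h.par.μ0
    rw [abs_mul, abs_of_nonneg (by positivity)]
    calc μ * D ^ (-2 : ℤ) * |Y (-2) s| ≤ 1 / 10 ^ 14 * 1 * (17 / 20) := by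
          have := h.par.μ1
          gcongr
      _ ≤ _ := by norm_num
  have b3 : |t ^ 2 * Y (-1) s * (ε * Y (-2) s + Y (-1) s)| ≤ 16 / 1000 := by
    rw [abs_mul, abs_mul, abs_of_pos (by positivity)]
    have : |ε * Y (-2) s + Y (-1) s| ≤ (4762 / 10000000) * (17 / 20) + 7 / 10 := by
      refine (abs_add_le _ _).trans (add_le_add ?_ hp)
      rw [abs_mul, abs_of_pos he]
      gcongr
    calc t ^ 2 * |Y (-1) s| * |ε * Y (-2) s + Y (-1) s| ≤
        (176777 / 1000000) ^ 2 * (7 / 10) * ((4762 / 10000000) * (17 / 20) + 7 / 10) := by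
          gcongr
      _ ≤ _ := by norm_num
  refine (abs_sub _ _).trans (le_trans (add_le_add (abs_sub _ _) le_rfl) ?_)
  linarith

lemma dold1 (h : WZ t ε B D μ M r S N Y φ ψ κ Γ K c) (i : ℕ) : ∀ s ∈ Ico 0 c,
    |t ^ (i + 4) * Y (-((i + 2 : ℕ) : ℤ) - 2) s * (ε * Y (-((i + 2 : ℕ) : ℤ) - 2) s +
      Y (-((i + 1 : ℕ) : ℤ) - 2) s) - μ * D ^ (-((i + 1 : ℕ) : ℤ) - 2) *
      Y (-((i + 1 : ℕ) : ℤ) - 2) s
      - t ^ (i + 3) * Y (-(i : ℤ) - 2) s * (ε * Y (-((i + 1 : ℕ) : ℤ) - 2) s +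
      Y (-(i : ℤ) - 2) s)| ≤ 35 / 1000 * (8 / 5) ^ (i + 1) := by
  intro s hs
  have he := h.par.bs.e0
  have heu := h.par.bs.eu
  have ht0 := h.par.bs.t0
  have htu := h.par.bs.tu
  have h0 := (h.hq s hs i).le
  have h1 := (h.hq s hs (i + 1)).le
  have h2 := (h.hq s hs (i + 2)).le
  set a := Y (-(i : ℤ) - 2) s
  set b := Y (-((i + 1 : ℕ) : ℤ) - 2) s
  set d := Y (-((i + 2 : ℕ) : ℤ) - 2) s
  set u : ℝ := (8 / 5) ^ i with hu
  have hu1 : 1 ≤ u := one_le_pow₀ (by norm_num)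
  have e1 : (8 / 5 : ℝ) ^ (i + 1) = u * (8 / 5) := by rw [pow_succ]
  have e2 : (8 / 5 : ℝ) ^ (i + 2) = u * (64 / 25) := by rw [pow_add, ← hu]; norm_num
  rw [e1] at h1
  rw [e2] at h2
  -- `t ^ i u² ≤ 1`
  have hv : t ^ i * u ^ 2 ≤ 1 := by
    have : t ^ i * u ^ 2 = (t * (64 / 25)) ^ i := by
      rw [hu, ← pow_mul, mul_comm i 2, pow_mul, ← mul_pow]
      norm_num
    rw [this]
    apply pow_le_one₀ (by positivity)
    linarith
  have hv0 : 0 < t ^ i := by positivity
  have b1 : |t ^ (i + 4) * d * (ε * d + b)| ≤ 7 / 1000 := by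
    rw [abs_mul, abs_mul, abs_of_pos (by positivity)]
    have b0 : |ε * d + b| ≤ 7 / 5 * u := by
      refine (abs_add_le _ _).trans ?_
      rw [abs_mul, abs_of_pos he]
      have : ε * |d| ≤ (4762 / 10000000) * (17 / 20 * (u * (64 / 25))) := by gcongr
      linarith
    calc t ^ (i + 4) * |d| * |ε * d + b| ≤
        t ^ (i + 4) * (17 / 20 * (u * (64 / 25))) * (7 / 5 * u) := by gcongr
      _ = t ^ 4 * (17 / 20 * (64 / 25) * (7 / 5)) * (t ^ i * u ^ 2) := by ring
      _ ≤ (176777 / 1000000) ^ 4 * (17 / 20 * (64 / 25) * (7 / 5)) * 1 := by gcongr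
      _ ≤ _ := by norm_num
  have b2 : |μ * D ^ (-((i + 1 : ℕ) : ℤ) - 2) * b| ≤ 1 / 1000 * u := by
    have hD := h.par.Dz (k := -((i + 1 : ℕ) : ℤ) - 2) (by omega)
    have hD0 : 0 ≤ D ^ (-((i + 1 : ℕ) : ℤ) - 2) := zpow_nonneg (by linarith [h.par.D1]) _
    have hμ := h.par.μ0
    rw [abs_mul, abs_of_nonneg (by positivity)]
    calc μ * D ^ (-((i + 1 : ℕ) : ℤ) - 2) * |b| ≤
          1 / 10 ^ 14 * 1 * (17 / 20 * (u * (8 / 5))) := by
          have := h.par.μ1
          gcongr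
      _ = (1 / 10 ^ 14 * (17 / 20 * (8 / 5))) * u := by ring
      _ ≤ _ := by
        apply mul_le_mul_of_nonneg_right _ (by linarith)
        norm_num
  have b3 : |t ^ (i + 3) * a * (ε * b + a)| ≤ 5 / 1000 := by
    rw [abs_mul, abs_mul, abs_of_pos (by positivity)]
    have b0 : |ε * b + a| ≤ 9 / 10 * u := by
      refine (abs_add_le _ _).trans ?_
      rw [abs_mul, abs_of_pos he]
      have : ε * |b| ≤ (4762 / 10000000) * (17 / 20 * (u * (8 / 5))) := by gcongr
      linarith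
    calc t ^ (i + 3) * |a| * |ε * b + a| ≤
        t ^ (i + 3) * (17 / 20 * u) * (9 / 10 * u) := by gcongr
      _ = t ^ 3 * (17 / 20 * (9 / 10)) * (t ^ i * u ^ 2) := by ring
      _ ≤ (176777 / 1000000) ^ 3 * (17 / 20 * (9 / 10)) * 1 := by gcongr
      _ ≤ _ := by norm_num
  refine (abs_sub _ _).trans (le_trans (add_le_add (abs_sub _ _) le_rfl) ?_)
  rw [e1]
  linarith

/-- the older modes at the end -/
lemma old (h : WZ t ε B D μ M r S N Y φ ψ κ Γ K c) (j : ℕ) :
    |Y (-(j : ℤ) - 2) c| < 17 / 20 * (8 / 5) ^ j := by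
  have hu : (1 : ℝ) ≤ (8 / 5) ^ j := one_le_pow₀ (by norm_num)
  rcases lt_or_ge N (j + 2) with hj | hj
  · rw [h.st.sys.zero _ (by omega) c, abs_zero]
    positivity
  · have h0 := h.st.old j
    have h1 : |Y (-(j : ℤ) - 2) c - Y (-(j : ℤ) - 2) 0| ≤ 35 / 1000 * (8 / 5) ^ j * (c - 0) := by
      have hd : ∀ s ∈ Ico 0 c, ∃ v, RD (Y (-(j : ℤ) - 2)) v s ∧
          |v| ≤ 35 / 1000 * (8 / 5) ^ j := by
        intro s hs
        have h2 := h.st.sys.d (-(j : ℤ) - 2) (by omega) s ⟨hs.1, lt_of_lt_of_le hs.2 h.leS⟩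
        refine ⟨_, h2, ?_⟩
        rcases j with _ | i
        · have h3 := h.dold0 s hs
          have e1 : (-((0 : ℕ) : ℤ) - 2) = -2 := by norm_num
          have e2 : (-2 - 1 : ℤ) = -3 := by norm_num
          have e3 : (-2 + 1 : ℤ) = -1 := by norm_num
          have e4 : B ^ (-3 : ℤ) = t ^ 3 := by
            have := h.par.zt 3
            norm_num at this
            exact this
          have e5 : B ^ (-2 : ℤ) = t ^ 2 := by
            have := h.par.zt 2
            norm_num at this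
            exact this
          rw [e1, e2, e3, e4, e5, pow_zero, mul_one]
          exact h3
        · have h3 := h.dold1 i s hs
          have e1 : (-((i + 1 : ℕ) : ℤ) - 2 - 1) = -((i + 2 : ℕ) : ℤ) - 2 := by push_cast; ring
          have e2 : (-((i + 1 : ℕ) : ℤ) - 2 + 1) = -(i : ℤ) - 2 := by push_cast; ring
          have e4 : B ^ (-((i + 2 : ℕ) : ℤ) - 2) = t ^ (i + 4) := by
            have e : -((i + 2 : ℕ) : ℤ) - 2 = -((i + 4 : ℕ) : ℤ) := by push_cast; ring
            rw [e, h.par.zt]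
          have e5 : B ^ (-((i + 1 : ℕ) : ℤ) - 2) = t ^ (i + 3) := by
            have e : -((i + 1 : ℕ) : ℤ) - 2 = -((i + 3 : ℕ) : ℤ) := by push_cast; ring
            rw [e, h.par.zt]
          rw [e1, e2, e4, e5]
          exact h3
      choose! v hv hv' using hd
      exact lip_of_rd ((h.st.sys.cont _).mono (Icc_subset_Icc_right h.leS)) hv hv' c
        ⟨h.c0.le, le_rfl⟩
    have h2 : 35 / 1000 * (8 / 5) ^ j * (c - 0) ≤ 35 / 1000 * (8 / 5) ^ j * (17 / 5) := by
      rw [sub_zero]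
      have := h.c1
      gcongr
    have h3 : |Y (-(j : ℤ) - 2) c| ≤ |Y (-(j : ℤ) - 2) c - Y (-(j : ℤ) - 2) 0| +
        |Y (-(j : ℤ) - 2) 0| := by
      have := abs_add_le (Y (-(j : ℤ) - 2) c - Y (-(j : ℤ) - 2) 0) (Y (-(j : ℤ) - 2) 0)
      simpa using this
    linarith

/-- the tails during the window -/
lemma F (h : WZ t ε B D μ M r S N Y φ ψ κ Γ K c) (m : ℕ) : ∀ s ∈ Icc 0 c, ∀ n,
    ∑ k ∈ Finset.range (n + 1), Y ((4 + m + k : ℕ) : ℤ) s ^ 2 ≤
      (44 / 100 * ε ^ 2 / (2 * B) ^ m) ^ 2 := by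
  have hB0 := h.par.bs.B0
  have hBu := h.par.bs.Bu
  have hBl := h.par.bs.Bl
  have he := h.par.bs.e0
  have heu := h.par.bs.eu
  have hB3 := h.par.B3
  induction m with
  | zero =>
    intro s hs n
    have h1 := h.v4 (Q := 34 / 100 * ε) (E := 44 / 100 * ε ^ 2) (by positivity)
      (fun s hs => h.toW.w34 h.ok s hs)
      (by
        have a1 : B ^ 3 * (34 / 100 * ε) * (17 / 5) ≤ 997 / 10000 := by
          rw [hB3]
          calc 32 * B * (34 / 100 * ε) * (17 / 5) ≤ 32 * (565686 / 100000) *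
                (34 / 100 * (4762 / 10000000)) * (17 / 5) := by gcongr
            _ ≤ _ := by norm_num
        have a2 : Real.exp (B ^ 3 * (34 / 100 * ε) * (17 / 5)) ≤ 1105 / 1000 := by
          refine (Real.exp_le_exp.2 a1).trans ?_
          have := exp_le (n := 0) (r := 997 / 10000) (y := 1105 / 1000) (by norm_num)
            (by norm_num) (by norm_num [Tl])
          norm_num at this ⊢
          exact this
        have a3 : 13 / 20 * ε ^ 2 / (2 * B) + ε * (34 / 100 * ε) ≤ 3975 / 10000 * ε ^ 2 := by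
          have : 13 / 20 * ε ^ 2 / (2 * B) ≤ 575 / 10000 * ε ^ 2 := by
            rw [div_le_iff₀ (by positivity)]
            have : 0 < ε ^ 2 := by positivity
            nlinarith
          linarith
        calc Real.exp (B ^ 3 * (34 / 100 * ε) * (17 / 5)) *
            (13 / 20 * ε ^ 2 / (2 * B) + ε * (34 / 100 * ε)) ≤
            1105 / 1000 * (3975 / 10000 * ε ^ 2) := by gcongr
          _ ≤ _ := by
            have : 0 < ε ^ 2 := by positivity
            linarith) s hs n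
    simpa using h1
  | succ m ih =>
    intro s hs n
    set E := 44 / 100 * ε ^ 2 / (2 * B) ^ m with hE
    have hE0 : 0 ≤ E := by positivity
    have hq : ∀ s ∈ Icc 0 c, |Y ((4 + m : ℕ) : ℤ) s| ≤ E := fun s hs => by
      have := tail_abs (V := fun k : ℕ => Y ((4 + m + k : ℕ) : ℤ)) hE0 (fun n => ih s hs n) 0
      simpa using this
    have h1 := (h.st.sys.chain h.leS (4 + m)).tail (Q := E) (F := 13 / 20 * ε ^ 2 / (2 * B) ^ (m + 2))
      (r := B ^ (4 + m)) (q := Y ((4 + m : ℕ) : ℤ)) (Φ := fun s => B ^ (4 + m) * E * s)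
      (Φ' := fun _ => B ^ (4 + m) * E) he.le
      (fun k => mul_nonneg h.par.μ0 (pow_nonneg (by linarith [h.par.D1]) _)) (by positivity) hE0
      (by positivity) (fun s _ => rfl) (fun s hs => hq s ⟨hs.1, le_of_lt hs.2⟩) (by fun_prop)
      (fun s _ => by
        simpa using ((hasDerivAt_id' s).const_mul (B ^ (4 + m) * E)).hasDerivWithinAt)
      (fun s hs => mul_le_mul_of_nonneg_left (hq s ⟨hs.1, le_of_lt hs.2⟩) (by positivity))
      (flux (V := fun j : ℕ => Y (j : ℤ)) hB0 h.par.r0 h.par.r1 he.le (4 + m + 1)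
        (fun j s hs => h.st.reg j s ⟨hs.1, hs.2.le.trans h.leS⟩))
      (by
        intro n
        have := h.st.tail (m + 2) n
        have e : ∀ k, 3 + (m + 2) + k = 4 + m + 1 + k := fun k => by omega
        simp only [e] at this
        exact this) n s hs
    have e : ∀ k, 4 + (m + 1) + k = 4 + m + 1 + k := fun k => by omega
    simp only [e]
    refine h1.trans ?_
    apply pow_le_pow_left₀ (by positivity)
    have a1 : B ^ (4 + m) * E * s - B ^ (4 + m) * E * 0 ≤ 1 / 2 := by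
      have e1 : B ^ (4 + m) * E = 1024 * (44 / 100) * ε ^ 2 * (1 / 2) ^ m := by
        rw [hE, mul_pow, pow_add]
        have : B ^ 4 = 1024 := by
          calc B ^ 4 = (B ^ 2) ^ 2 := by ring
            _ = _ := by rw [h.par.bs.B2]; norm_num
        rw [this, one_div, inv_pow]
        field_simp
      rw [e1, mul_zero, sub_zero]
      have a2 : (1 / 2 : ℝ) ^ m ≤ 1 := pow_le_one₀ (by norm_num) (by norm_num)
      have a3 : s ≤ 17 / 5 := hs.2.trans h.c1
      have a4 := hs.1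
      calc 1024 * (44 / 100) * ε ^ 2 * (1 / 2) ^ m * s ≤
          1024 * (44 / 100) * (4762 / 10000000) ^ 2 * 1 * (17 / 5) := by gcongr
        _ ≤ _ := by norm_num
    have a2 : Real.exp (B ^ (4 + m) * E * s - B ^ (4 + m) * E * 0) ≤ 2 := by
      refine (Real.exp_le_exp.2 a1).trans ?_
      calc Real.exp (1 / 2) ≤ 1 / (1 - 1 / 2) := by
            apply Real.exp_bound_div_one_sub_of_interval (by norm_num) (by norm_num)
        _ = 2 := by norm_num
    have e3 : (2 * B) ^ (m + 2) = (2 * B) ^ m * 128 := by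
      rw [pow_add]
      have : (2 * B) ^ 2 = 128 := by rw [mul_pow, h.par.bs.B2]; norm_num
      rw [this]
    have e4 : 13 / 20 * ε ^ 2 / (2 * B) ^ (m + 2) = E * (13 / 20 / (44 / 100) / 128) := by
      rw [e3, hE]
      field_simp
    have e5 : 44 / 100 * ε ^ 2 / (2 * B) ^ (m + 1) = E * (1 / (2 * B)) := by
      rw [hE, pow_succ (2 * B) m, div_mul_div_comm, mul_one]
    rw [e4, e5]
    have a5 : 1 / 12 ≤ 1 / (2 * B) := by
      apply one_div_le_one_div_of_le (by positivity)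
      linarith
    calc Real.exp (B ^ (4 + m) * E * s - B ^ (4 + m) * E * 0) *
        (E * (13 / 20 / (44 / 100) / 128) + ε * E) ≤
        2 * (E * (13 / 20 / (44 / 100) / 128) + (4762 / 10000000) * E) := by gcongr
      _ ≤ E * (1 / 12) := by
          have : 2 * (13 / 20 / (44 / 100) / 128 + (4762 / 10000000) : ℝ) ≤ 1 / 12 := by norm_num
          nlinarith
      _ ≤ _ := by gcongr

end WZ

/-- the renormalised system -/
lemma SysZ.renorm (h : SysZ ε B D μ S N Y) {a : ℝ} (hB : 0 < B) (hD : 0 < D) (ha : 0 < a)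
    (hc : 0 ≤ c) :
    SysZ ε B D (μ * D / (B * a)) (B * a * (S - c)) (N + 1)
      (fun j s => Y (j + 1) (c + s / (B * a)) / a) := by
  have hBa : 0 < B * a := mul_pos hB ha
  have hmem : ∀ s ∈ Ico 0 (B * a * (S - c)), c + s / (B * a) ∈ Ico 0 S := by
    intro s hs
    refine ⟨add_nonneg hc (div_nonneg hs.1 hBa.le), ?_⟩
    have : s / (B * a) < S - c := by
      rw [div_lt_iff₀ hBa]
      linarith [hs.2]
    linarith
  have hmem2 : MapsTo (fun s => c + s / (B * a)) (Icc 0 (B * a * (S - c))) (Icc 0 S) := by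
    intro s hs
    refine ⟨add_nonneg hc (div_nonneg hs.1 hBa.le), ?_⟩
    have : s / (B * a) ≤ S - c := by
      rw [div_le_iff₀ hBa]
      linarith [hs.2]
    show c + s / (B * a) ≤ S
    linarith
  have hder : ∀ (f : ℝ → ℝ) (v s : ℝ), RD f v (c + s / (B * a)) →
      RD (fun s => f (c + s / (B * a)) / a) (v * (1 / (B * a)) / a) s := by
    intro f v s hf
    have h1 : HasDerivWithinAt (fun s => c + s / (B * a)) (1 / (B * a)) (Ici s) s := by
      simpa using (((hasDerivAt_id' s).div_const (B * a)).const_add c).hasDerivWithinAt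
    have h2 : MapsTo (fun s => c + s / (B * a)) (Ici s) (Ici (c + s / (B * a))) := by
      intro t ht
      simp only [mem_Ici] at ht ⊢
      gcongr
    exact (HasDerivWithinAt.comp s hf h1 h2).div_const a
  refine ⟨?_, ?_, ?_⟩
  · intro j
    apply ContinuousOn.div_const
    exact (h.cont (j + 1)).comp (by fun_prop) hmem2
  · intro j hj s
    rw [h.zero (j + 1) (by push_cast at hj; omega), zero_div]
  · intro j hj s hs
    refine (hder _ _ s (h.d (j + 1) (by push_cast at hj; omega) _ (hmem s hs))).congr_deriv ?_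
    have e1 : j + 1 - 1 = j := by ring
    have e2 : j - 1 + 1 = j := by ring
    have e3 : B ^ (j + 1) = B ^ j * B := zpow_add_one₀ hB.ne' j
    have e4 : D ^ (j + 1) = D ^ j * D := zpow_add_one₀ hD.ne' j
    have e5 : B ^ (j - 1) = B ^ j / B := by rw [zpow_sub_one₀ hB.ne']; rfl
    rw [e1, e2, e3, e4, e5]
    field_simp

end Pool.Agent.H42.Two
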