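import Pool.Agent.H42.Two.Cases
import Pool.Agent.H42.Mix.Stage

/-!
The renormalised chain, indexed by the integers, at the shell ratio 2.
-/

open Set Filter Topology

namespace Pool.Agent.H42.Two

open Pool.Agent.H42.Mix (RD mono_of_rd lip_of_rd exists_antideriv Chain tail_abs)

/-- A renormalised mixed dyadic chain, whose lowest mode has index `-N`. -/
structure SysZ (ε B D μ S : ℝ) (N : ℕ) (Y : ℤ → ℝ → ℝ) : Prop where
  cont : ∀ j, ContinuousOn (Y j) (Icc 0 S)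
  zero : ∀ j : ℤ, j < -(N : ℤ) → ∀ s, Y j s = 0
  d : ∀ j : ℤ, -(N : ℤ) ≤ j → ∀ s ∈ Ico 0 S, RD (Y j)
    (B ^ (j - 1) * Y (j - 1) s * (ε * Y (j - 1) s + Y j s) - μ * D ^ j * Y j s
      - B ^ j * Y (j + 1) s * (ε * Y j s + Y (j + 1) s)) s

/-- the starting position of a stage -/
structure St (t ε B D μ M r S : ℝ) (N : ℕ) (Y : ℤ → ℝ → ℝ) : Prop where
  sys : SysZ ε B D μ S N Y
  hN : 1 ≤ N
  hS : 34 / 5 ≤ S
  x0 : Y 0 0 = 1
  y0 : Y 1 0 = t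
  z0l : -ε ^ 2 ≤ Y 2 0
  z0u : Y 2 0 ≤ 33 / 20 * (ε * t)
  p0l : 0 ≤ Y (-1) 0
  p0u : Y (-1) 0 ≤ 3 / 5
  old : ∀ j : ℕ, |Y (-(j : ℤ) - 2) 0| ≤ 18 / 25 * (8 / 5) ^ j
  tail : ∀ m n : ℕ, ∑ k ∈ Finset.range (n + 1), Y ((3 + m + k : ℕ) : ℤ) 0 ^ 2 ≤
    (13 / 20 * ε ^ 2 / (2 * B) ^ m) ^ 2
  reg : ∀ j : ℕ, ∀ s ∈ Icc 0 S, |Y j s| ≤ M * r ^ j

/-- the parameters -/
structure Par (t ε B D μ r : ℝ) : Prop where
  bs : Bs B t ε
  D1 : 1 ≤ D
  D2 : D ≤ 424 / 100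
  μ0 : 0 ≤ μ
  μ1 : μ ≤ 1 / 10 ^ 14
  r0 : 0 ≤ r
  r1 : B * r ^ 3 < 1

variable {t ε B D μ M r S : ℝ} {N : ℕ} {Y : ℤ → ℝ → ℝ}

lemma flux {V : ℕ → ℝ → ℝ} (hB : 0 < B) (hr : 0 ≤ r) (hr' : B * r ^ 3 < 1) (hε : 0 ≤ ε)
    {a c : ℝ} (m : ℕ) (hreg : ∀ j, ∀ s ∈ Ico a c, |V j s| ≤ M * r ^ j) :
    ∀ η : ℝ, 0 < η → ∃ N₀ : ℕ, ∀ N, N₀ ≤ N → ∀ s ∈ Ico a c,
      |B ^ (m + N) * V (m + N) s * V (m + (N + 1)) s *
        (ε * V (m + N) s + V (m + (N + 1)) s)| ≤ η := by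
  have hb : Real.sqrt B ^ 2 = B := Real.sq_sqrt hB.le
  have := Pool.Agent.H42.Mix.flux_small (b := Real.sqrt B) (Y := V) (M := M) (a := a) (c := c) hr
    (by rw [hb]; exact hr') hε m hreg
  rwa [hb] at this

lemma SysZ.chain (h : SysZ ε B D μ S N Y) {s1 : ℝ} (hs1 : s1 ≤ S) (m : ℕ) :
    Chain ε (fun k => B ^ (m + 1 + k)) (fun k => μ * D ^ (m + 1 + k))
      (fun s => B ^ m * Y (m : ℤ) s * (ε * Y (m : ℤ) s + Y ((m + 1 : ℕ) : ℤ) s))
      (fun k => Y ((m + 1 + k : ℕ) : ℤ)) 0 s1 where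
  cont k := (h.cont _).mono (Icc_subset_Icc_right hs1)
  d0 s hs := by
    have h1 := h.d ((m + 1 : ℕ) : ℤ) (by omega) s ⟨hs.1, hs.2.trans_le hs1⟩
    have e1 : ((m + 1 : ℕ) : ℤ) - 1 = (m : ℤ) := by push_cast; ring
    have e2 : ((m + 1 : ℕ) : ℤ) + 1 = ((m + 1 + 1 : ℕ) : ℤ) := by push_cast; ring
    rw [e1, e2, zpow_natCast, zpow_natCast, zpow_natCast] at h1
    exact h1
  dn k s hs := by
    have h1 := h.d ((m + 1 + (k + 1) : ℕ) : ℤ) (by omega) s ⟨hs.1, hs.2.trans_le hs1⟩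
    have e1 : ((m + 1 + (k + 1) : ℕ) : ℤ) - 1 = ((m + 1 + k : ℕ) : ℤ) := by push_cast; ring
    have e2 : ((m + 1 + (k + 1) : ℕ) : ℤ) + 1 = ((m + 1 + (k + 2) : ℕ) : ℤ) := by push_cast; ring
    rw [e1, e2, zpow_natCast, zpow_natCast, zpow_natCast] at h1
    exact h1

/-- the functions of the window -/
noncomputable def mkF (t ε B D μ : ℝ) (Y : ℤ → ℝ → ℝ) (φ ψ κ Γ : ℝ → ℝ) (c : ℝ) : Fn where
  p := Y (-1)
  x := Y 0
  y := Y 1
  z := Y 2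
  w := Y 3
  φ := φ
  ψ := ψ
  κ := κ
  Γ := Γ
  ep := fun s => t ^ 2 * Y (-2) s * (ε * Y (-2) s + Y (-1) s) - μ * D⁻¹ * Y (-1) s
  ev := fun s => μ * D ^ 3 * Y 3 s + B ^ 3 * Y 4 s * (ε * Y 3 s + Y 4 s)
  m0 := μ
  m1 := μ * D
  m2 := μ * D ^ 2
  c := c
  p0 := Y (-1) 0

/-- a window of the whole chain -/
structure WZ (t ε B D μ M r S : ℝ) (N : ℕ) (Y : ℤ → ℝ → ℝ) (φ ψ κ Γ : ℝ → ℝ) (K : Cs)
    (c : ℝ) : Prop where
  par : Par t ε B D μ r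
  st : St t ε B D μ M r S N Y
  ok : Ok B t ε K
  pa : K.pa ≤ Y (-1) 0
  pb : Y (-1) 0 ≤ K.pb
  c0 : 0 < c
  c1 : c ≤ 17 / 5
  cφ : Continuous φ
  cψ : Continuous ψ
  cκ : Continuous κ
  cΓ : Continuous Γ
  φ0 : φ 0 = 0
  ψ0 : ψ 0 = 0
  κ0 : κ 0 = 0
  Γ0 : Γ 0 = 0
  dφ : ∀ s ∈ Icc 0 S, HasDerivAt φ (Y 1 s) s
  dψ : ∀ s ∈ Icc 0 S, HasDerivAt ψ (Y 0 s) s
  dκ : ∀ s ∈ Icc 0 S, HasDerivAt κ (B * Y 2 s ^ 2) s
  dΓ : ∀ s ∈ Icc 0 S, HasDerivAt Γ (32 * Y 2 s) s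
  hx : ∀ s ∈ Ico 0 c, 0 < Y 0 s
  hx2 : ∀ s ∈ Ico 0 c, Y 0 s < 2
  hy : ∀ s ∈ Ico 0 c, 0 < Y 1 s
  hy2 : ∀ s ∈ Ico 0 c, Y 1 s < 2
  hz : ∀ s ∈ Ico 0 c, |Y 2 s| < t * Y 1 s
  hφ : ∀ s ∈ Ico 0 c, φ s < K.PH
  hw : ∀ s ∈ Ico 0 c, |Y 3 s| < ε / 2
  hp : ∀ s ∈ Ico 0 c, |Y (-1) s| < K.Pw
  hq : ∀ s ∈ Ico 0 c, ∀ j : ℕ, |Y (-(j : ℤ) - 2) s| < 17 / 20 * (8 / 5) ^ j

variable {φ ψ κ Γ : ℝ → ℝ} {K : Cs} {c : ℝ}

lemma Par.t_inv (h : Par t ε B D μ r) : t = B⁻¹ := by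
  have h1 := h.bs.tB
  have := h.bs.B0
  field_simp
  linarith

lemma Par.B3 (h : Par t ε B D μ r) : B ^ 3 = 32 * B := by
  have h1 := h.bs.B2
  calc B ^ 3 = B ^ 2 * B := by ring
    _ = _ := by rw [h1]

lemma Par.μD (h : Par t ε B D μ r) : μ * D ^ 3 ≤ 1 / 10 ^ 12 := by
  have h1 : D ^ 3 ≤ (424 / 100) ^ 3 := pow_le_pow_left₀ (by linarith [h.D1]) h.D2 3
  calc μ * D ^ 3 ≤ 1 / 10 ^ 14 * (424 / 100) ^ 3 := by
        have := h.μ1
        have := h.D1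
        gcongr
    _ ≤ _ := by norm_num

lemma Par.μk (h : Par t ε B D μ r) {k : ℕ} (hk : k ≤ 3) : μ * D ^ k ≤ 1 / 10 ^ 12 := by
  refine le_trans ?_ h.μD
  have := h.μ0
  exact mul_le_mul_of_nonneg_left (pow_le_pow_right₀ h.D1 hk) this

namespace WZ

lemma leS (h : WZ t ε B D μ M r S N Y φ ψ κ Γ K c) : c ≤ S := by
  have := h.c1
  have := h.st.hS
  linarith

/-- the fourth mode -/
lemma v4 (h : WZ t ε B D μ M r S N Y φ ψ κ Γ K c) {Q E : ℝ} (hQ0 : 0 ≤ Q)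
    (hQ : ∀ s ∈ Ico 0 c, |Y 3 s| ≤ Q)
    (hE : Real.exp (B ^ 3 * Q * (17 / 5)) * (13 / 20 * ε ^ 2 / (2 * B) + ε * Q) ≤ E) :
    ∀ s ∈ Icc 0 c, ∀ n, ∑ k ∈ Finset.range (n + 1), Y ((4 + k : ℕ) : ℤ) s ^ 2 ≤ E ^ 2 := by
  intro s hs n
  have hB0 := h.par.bs.B0
  have he := h.par.bs.e0
  have h1 := (h.st.sys.chain h.leS 3).tail (Q := Q) (F := 13 / 20 * ε ^ 2 / (2 * B))
    (r := B ^ 3) (q := Y 3) (Φ := fun s => B ^ 3 * Q * s) (Φ' := fun _ => B ^ 3 * Q) he.le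
    (fun k => mul_nonneg h.par.μ0 (pow_nonneg (by linarith [h.par.D1]) _)) (by positivity) hQ0
    (by positivity) (fun s _ => rfl) hQ (by fun_prop)
    (fun s _ => by
      simpa using ((hasDerivAt_id' s).const_mul (B ^ 3 * Q)).hasDerivWithinAt)
    (fun s hs => mul_le_mul_of_nonneg_left (hQ s hs) (by positivity))
    (flux (V := fun j : ℕ => Y (j : ℤ)) hB0 h.par.r0 h.par.r1 he.le 4 (fun j s hs => h.st.reg j s
      ⟨hs.1, hs.2.le.trans h.leS⟩))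
    (by
      intro n
      have := h.st.tail 1 n
      simpa using this) n s hs
  refine h1.trans ?_
  apply pow_le_pow_left₀ (by positivity)
  refine le_trans ?_ hE
  gcongr
  have : B ^ 3 * Q * s - B ^ 3 * Q * 0 = B ^ 3 * Q * s := by ring
  rw [this]
  have := hs.2.trans h.c1
  gcongr

/-- the window of the leading modes -/
lemma toW (h : WZ t ε B D μ M r S N Y φ ψ κ Γ K c) :
    W B t ε K (mkF t ε B D μ Y φ ψ κ Γ c) where
  bs := h.par.bs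
  hc := h.c0
  hc' := h.c1
  m0n := h.par.μ0
  m0s := by simpa [mkF] using h.par.μk (k := 0) (by norm_num)
  m1n := mul_nonneg h.par.μ0 (by linarith [h.par.D1])
  m1s := by simpa [mkF] using h.par.μk (k := 1) (by norm_num)
  m2n := mul_nonneg h.par.μ0 (sq_nonneg _)
  m2s := h.par.μk (k := 2) (by norm_num)
  cp := (h.st.sys.cont _).mono (Icc_subset_Icc_right h.leS)
  cx := (h.st.sys.cont _).mono (Icc_subset_Icc_right h.leS)
  cy := (h.st.sys.cont _).mono (Icc_subset_Icc_right h.leS)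
  cz := (h.st.sys.cont _).mono (Icc_subset_Icc_right h.leS)
  cw := (h.st.sys.cont _).mono (Icc_subset_Icc_right h.leS)
  cφ := h.cφ.continuousOn
  cψ := h.cψ.continuousOn
  cκ := h.cκ.continuousOn
  cΓ := h.cΓ.continuousOn
  dp s hs := by
    have hN := h.st.hN
    have h1 := h.st.sys.d (-1) (by omega) s ⟨hs.1, lt_of_lt_of_le hs.2 h.leS⟩
    refine h1.congr_deriv ?_
    have e1 : (-1 : ℤ) - 1 = -2 := by norm_num
    have e2 : (-1 : ℤ) + 1 = 0 := by norm_num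
    have e3 : B ^ (-2 : ℤ) = t ^ 2 := by
      rw [h.par.t_inv, zpow_neg, inv_pow]
      norm_cast
    have e4 : B ^ (-1 : ℤ) = t := by rw [h.par.t_inv, zpow_neg_one]
    have e5 : D ^ (-1 : ℤ) = D⁻¹ := zpow_neg_one D
    rw [e1, e2, e3, e4, e5]
    simp only [mkF]
  dx s hs := by
    have h1 := h.st.sys.d 0 (by omega) s ⟨hs.1, lt_of_lt_of_le hs.2 h.leS⟩
    refine h1.congr_deriv ?_
    have e1 : (0 : ℤ) - 1 = -1 := by norm_num
    have e2 : (0 : ℤ) + 1 = 1 := by norm_num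
    have e4 : B ^ (-1 : ℤ) = t := by rw [h.par.t_inv, zpow_neg_one]
    rw [e1, e2, e4, zpow_zero, zpow_zero]
    simp only [mkF]
    ring
  dy s hs := by
    have h1 := h.st.sys.d 1 (by omega) s ⟨hs.1, lt_of_lt_of_le hs.2 h.leS⟩
    refine h1.congr_deriv ?_
    have e1 : (1 : ℤ) - 1 = 0 := by norm_num
    have e2 : (1 : ℤ) + 1 = 2 := by norm_num
    rw [e1, e2, zpow_zero, zpow_one, zpow_one]
    simp only [mkF]
    ring
  dz s hs := by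
    have h1 := h.st.sys.d 2 (by omega) s ⟨hs.1, lt_of_lt_of_le hs.2 h.leS⟩
    refine h1.congr_deriv ?_
    have e1 : (2 : ℤ) - 1 = 1 := by norm_num
    have e2 : (2 : ℤ) + 1 = 3 := by norm_num
    have e3 : B ^ (2 : ℤ) = 32 := by rw [← h.par.bs.B2]; norm_cast
    have e4 : D ^ (2 : ℤ) = D ^ 2 := by norm_cast
    rw [e1, e2, zpow_one, e3, e4]
    simp only [mkF]
  dw s hs := by
    have h1 := h.st.sys.d 3 (by omega) s ⟨hs.1, lt_of_lt_of_le hs.2 h.leS⟩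
    refine h1.congr_deriv ?_
    have e1 : (3 : ℤ) - 1 = 2 := by norm_num
    have e2 : (3 : ℤ) + 1 = 4 := by norm_num
    have e3 : B ^ (2 : ℤ) = 32 := by rw [← h.par.bs.B2]; norm_cast
    have e4 : D ^ (3 : ℤ) = D ^ 3 := by norm_cast
    have e5 : B ^ (3 : ℤ) = B ^ 3 := by norm_cast
    rw [e1, e2, e3, e4, e5]
    simp only [mkF]
    ring
  dφ s hs := (h.dφ s ⟨hs.1, (le_of_lt hs.2).trans h.leS⟩).hasDerivWithinAt
  dψ s hs := (h.dψ s ⟨hs.1, (le_of_lt hs.2).trans h.leS⟩).hasDerivWithinAt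
  dκ s hs := (h.dκ s ⟨hs.1, (le_of_lt hs.2).trans h.leS⟩).hasDerivWithinAt
  dΓ s hs := (h.dΓ s ⟨hs.1, (le_of_lt hs.2).trans h.leS⟩).hasDerivWithinAt
  φ0 := h.φ0
  ψ0 := h.ψ0
  κ0 := h.κ0
  Γ0 := h.Γ0
  x0 := h.st.x0
  y0 := h.st.y0
  p00 := rfl
  pa := h.pa
  pb := h.pb
  z0l := h.st.z0l
  z0u := h.st.z0u
  w0 := by
    have he := h.par.bs.e0
    have := tail_abs (V := fun k : ℕ => Y ((3 + k : ℕ) : ℤ)) (s := 0) (E := 13 / 20 * ε ^ 2)
      (by positivity) (fun n => by simpa using h.st.tail 0 n) 0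
    simpa [mkF] using this
  hx := h.hx
  hx2 := h.hx2
  hy := h.hy
  hy2 := h.hy2
  hz := h.hz
  hφ := h.hφ
  hw := h.hw
  hp := h.hp
  hep s hs := by
    have he := h.par.bs.e0
    have hq := (h.hq s hs 0).le
    simp only [Nat.cast_zero, neg_zero, zero_sub, pow_zero, mul_one] at hq
    have hp := (h.hp s hs).le
    have hPw := h.ok.Pw0
    have hPw1 := h.ok.Pw1
    refine le_trans ?_ h.ok.kqd
    simp only [mkF]
    refine (abs_sub _ _).trans (add_le_add ?_ ?_)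
    · rw [abs_mul, abs_mul, h.par.bs.t2]
      have e : |(1 / 32 : ℝ)| = 1 / 32 := by norm_num
      rw [e]
      have h3 : |ε * Y (-2) s + Y (-1) s| ≤ 17 / 20 * ε + K.Pw := by
        refine (abs_add_le _ _).trans (add_le_add ?_ hp)
        rw [abs_mul, abs_of_pos he, mul_comm]
        gcongr
      calc 1 / 32 * |Y (-2) s| * |ε * Y (-2) s + Y (-1) s| ≤
          1 / 32 * (17 / 20) * (17 / 20 * ε + K.Pw) := by gcongr
        _ = _ := by ring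
    · rw [abs_mul, abs_mul, abs_of_nonneg h.par.μ0]
      have hD : |D⁻¹| ≤ 1 := by
        have hD1 := h.par.D1
        rw [abs_of_nonneg (by positivity)]
        exact inv_le_one_of_one_le₀ hD1
      calc μ * |D⁻¹| * |Y (-1) s| ≤ 1 / 10 ^ 14 * 1 * (7 / 10) := by
            have := h.par.μ1
            have := h.par.μ0
            have := hp.trans hPw1
            gcongr
        _ ≤ _ := by norm_num
  hev s hs := by
    have he := h.par.bs.e0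
    have heu := h.par.bs.eu
    have hel := h.par.bs.el
    have hB0 := h.par.bs.B0
    have hBu := h.par.bs.Bu
    have hBl := h.par.bs.Bl
    have hw := (h.hw s hs).le
    have hB3 := h.par.B3
    have h4 : ∀ s ∈ Icc 0 c, ∀ n, ∑ k ∈ Finset.range (n + 1), Y ((4 + k : ℕ) : ℤ) s ^ 2 ≤
        (65 / 100 * ε ^ 2) ^ 2 := by
      apply h.v4 (Q := ε / 2) (by positivity) (fun s hs => (h.hw s hs).le)
      have a1 : B ^ 3 * (ε / 2) * (17 / 5) ≤ 147 / 1000 := by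
        rw [hB3]
        calc 32 * B * (ε / 2) * (17 / 5) ≤ 32 * (565686 / 100000) * ((4762 / 10000000) / 2) *
              (17 / 5) := by gcongr
          _ ≤ _ := by norm_num
      have a2 : Real.exp (B ^ 3 * (ε / 2) * (17 / 5)) ≤ 116 / 100 := by
        refine (Real.exp_le_exp.2 a1).trans ?_
        have := exp_le (n := 0) (r := 147 / 1000) (y := 116 / 100) (by norm_num) (by norm_num)
          (by norm_num [Tl])
        norm_num at this ⊢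
        exact this
      have a3 : 13 / 20 * ε ^ 2 / (2 * B) + ε * (ε / 2) ≤ 5575 / 10000 * ε ^ 2 := by
        have : 13 / 20 * ε ^ 2 / (2 * B) ≤ 575 / 10000 * ε ^ 2 := by
          rw [div_le_iff₀ (by positivity)]
          have : 0 < ε ^ 2 := by positivity
          nlinarith
        linarith
      calc Real.exp (B ^ 3 * (ε / 2) * (17 / 5)) * (13 / 20 * ε ^ 2 / (2 * B) + ε * (ε / 2)) ≤
          116 / 100 * (5575 / 10000 * ε ^ 2) := by gcongr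
        _ ≤ _ := by
          have : 0 < ε ^ 2 := by positivity
          linarith
    have hv : |Y 4 s| ≤ 65 / 100 * ε ^ 2 := by
      have := tail_abs (V := fun k : ℕ => Y ((4 + k : ℕ) : ℤ)) (s := s) (E := 65 / 100 * ε ^ 2)
        (by positivity) (fun n => h4 s ⟨hs.1, le_of_lt hs.2⟩ n) 0
      simpa using this
    simp only [mkF]
    have b1 : |μ * D ^ 3 * Y 3 s| ≤ 1 / 100 * ε ^ 3 := by
      have hD1 := h.par.D1
      have hμ0 := h.par.μ0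
      rw [abs_mul, abs_of_nonneg (by positivity)]
      calc μ * D ^ 3 * |Y 3 s| ≤ 1 / 10 ^ 12 * (ε / 2) := by
            have := h.par.μD
            gcongr
        _ ≤ 1 / 100 * (4545 / 10000000) ^ 2 * ε := by
            have : (1 / 10 ^ 12 : ℝ) / 2 ≤ 1 / 100 * (4545 / 10000000) ^ 2 := by norm_num
            nlinarith
        _ ≤ 1 / 100 * ε ^ 2 * ε := by gcongr
        _ = _ := by ring
    have b2 : |B ^ 3 * Y 4 s * (ε * Y 3 s + Y 4 s)| ≤ 1 / 10 * ε ^ 3 := by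
      rw [abs_mul, abs_mul, abs_of_pos (by positivity), hB3]
      have b3 : |ε * Y 3 s + Y 4 s| ≤ 115 / 100 * ε ^ 2 := by
        refine (abs_add_le _ _).trans ?_
        rw [abs_mul, abs_of_pos he]
        have : ε * |Y 3 s| ≤ ε * (ε / 2) := by gcongr
        nlinarith
      calc 32 * B * |Y 4 s| * |ε * Y 3 s + Y 4 s| ≤
          32 * (565686 / 100000) * (65 / 100 * ε ^ 2) * (115 / 100 * ε ^ 2) := by gcongr
        _ = (32 * (565686 / 100000) * (65 / 100) * (115 / 100) * ε) * ε ^ 3 := by ring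
        _ ≤ (32 * (565686 / 100000) * (65 / 100) * (115 / 100) * (4762 / 10000000)) * ε ^ 3 := by
            gcongr
        _ ≤ 1 / 10 * ε ^ 3 := by
            apply mul_le_mul_of_nonneg_right _ (by positivity)
            norm_num
    refine (abs_add_le _ _).trans ?_
    have : 0 < ε ^ 3 := by positivity
    linarith

end WZ

end Pool.Agent.H42.Two
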